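import Pool.Agent.H48.CV.ConvD
import Pool.Agent.H48.NE.Mxw

/-!
# Module EqmE: the Maxwellian with given mass, momentum, energy

`mx_ints`: `∫ exp(-k|w|²) dw = (π/k)^(d/2)` (product of `integral_gaussian`; `Real.exp (-(k * nsq w)) = ∏ exp(-k w_i²)`, `MeasureTheory.integral_fintype_prod_eq_prod`), `∫ w_i exp(-k|w|²) = 0` (odd), `∫ |w|² exp(-k|w|²) = (d/(2k)) (π/k)^(d/2)` (each `∫ w_i² e^(-k w_i²) = (1/(2k)) (π/k)^(1/2)`: integration by parts or
derivative of the Gaussian integral in `k`; search `integral_rpow_mul_exp_neg_mul_sq`, `integral_sq_mul_gaussian`, `Real.Gamma`), translation `w = v - u`.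
`eqm_exists`: `ρ = ∫ F > 0`, `u_i = ρ⁻¹ ∫ F v_i`, `E = ∫ F nsq v - ρ nsq u = ∫ F |v-u|² > 0` (`F ≥ 0` continuous, not identically zero: `F > 0` on an open set of positive `nu`-measure, so `∫ F |v-u|² > 0`; periodicity to get a point of the open cube), `k = ρ d/(2E)`, `a = ρ (k/π)^(d/2)`. -/

set_option autoImplicit false

open MeasureTheory Set Filter Topology Pool.Agent.H25.Kin Pool.Agent.H48.PL Pool.Agent.H48.PD
open Pool.Agent.H82.BK Pool.Agent.H82.CM Pool.Agent.H48.PR Pool.Agent.H48.NE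
open Pool.Agent.H15.AV (Slice sol_slice)

namespace Pool.Agent.H48.CV

variable {d : ℕ}

private lemma eqmE_G0 (k : ℝ) : ∫ x : ℝ, Real.exp (-(k * x ^ 2)) = Real.sqrt (Real.pi / k) := by
  rw [← integral_gaussian k]
  congr 1
  funext x
  congr 1
  ring

private lemma eqmE_i0 {k : ℝ} (hk : 0 < k) : Integrable fun x : ℝ => Real.exp (-(k * x ^ 2)) := by
  refine (integrable_exp_neg_mul_sq hk).congr (Eventually.of_forall fun x => ?_)
  show Real.exp _ = Real.exp _
  congr 1
  ring

private lemma eqmE_i1 {k : ℝ} (hk : 0 < k) : Integrable fun x : ℝ => x * Real.exp (-(k * x ^ 2)) := by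
  refine (integrable_mul_exp_neg_mul_sq hk).congr (Eventually.of_forall fun x => ?_)
  show x * Real.exp _ = x * Real.exp _
  congr 2
  ring

private lemma eqmE_i2 {k : ℝ} (hk : 0 < k) :
    Integrable fun x : ℝ => x ^ 2 * Real.exp (-(k * x ^ 2)) := by
  refine (integrable_rpow_mul_exp_neg_mul_sq hk (s := 2) (by norm_num)).congr
    (Eventually.of_forall fun x => ?_)
  show x ^ (2 : ℝ) * Real.exp _ = x ^ 2 * Real.exp _
  rw [Real.rpow_two]
  congr 2
  ring

private lemma eqmE_G1 (k : ℝ) : ∫ x : ℝ, x * Real.exp (-(k * x ^ 2)) = 0 := by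
  have h := integral_neg_eq_self (fun x : ℝ => x * Real.exp (-(k * x ^ 2))) volume
  have h2 : ∫ x : ℝ, (-x) * Real.exp (-(k * (-x) ^ 2)) = -∫ x : ℝ, x * Real.exp (-(k * x ^ 2)) := by
    rw [← integral_neg]
    congr 1
    funext x
    rw [neg_sq]
    ring
  have h3 := h2.symm.trans h
  linarith

private lemma eqmE_G2 {k : ℝ} (hk : 0 < k) :
    ∫ x : ℝ, x ^ 2 * Real.exp (-(k * x ^ 2)) = 1 / (2 * k) * Real.sqrt (Real.pi / k) := by
  have hd : ∀ x : ℝ, HasDerivAt (fun x : ℝ => x * Real.exp (-(k * x ^ 2)))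
      (Real.exp (-(k * x ^ 2)) - 2 * k * (x ^ 2 * Real.exp (-(k * x ^ 2)))) x := by
    intro x
    have h1 : HasDerivAt (fun x : ℝ => -(k * x ^ 2)) (-(k * (2 * x))) x := by
      have h0 : HasDerivAt (fun x : ℝ => x ^ 2) (2 * x) x := by
        have h00 := hasDerivAt_pow 2 x
        rw [show (2 : ℕ) - 1 = 1 from rfl, pow_one] at h00
        exact_mod_cast h00
      exact (h0.const_mul k).neg
    have h2 : HasDerivAt (fun x : ℝ => x * Real.exp (-(k * x ^ 2)))
        (1 * Real.exp (-(k * x ^ 2)) + x * (Real.exp (-(k * x ^ 2)) * (-(k * (2 * x))))) x :=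
      (hasDerivAt_id x).mul h1.exp
    have e : 1 * Real.exp (-(k * x ^ 2)) + x * (Real.exp (-(k * x ^ 2)) * (-(k * (2 * x)))) =
        Real.exp (-(k * x ^ 2)) - 2 * k * (x ^ 2 * Real.exp (-(k * x ^ 2))) := by ring
    rw [← e]
    exact h2
  have h := integral_eq_zero_of_hasDerivAt_of_integrable hd
    ((eqmE_i0 hk).sub ((eqmE_i2 hk).const_mul (2 * k))) (eqmE_i1 hk)
  have e := integral_sub (eqmE_i0 hk) ((eqmE_i2 hk).const_mul (2 * k))
  rw [integral_const_mul, eqmE_G0] at e
  have h' : Real.sqrt (Real.pi / k) - 2 * k * ∫ x : ℝ, x ^ 2 * Real.exp (-(k * x ^ 2)) = 0 := by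
    rw [← e]
    exact h
  rw [one_div, inv_mul_eq_div, eq_div_iff (by positivity)]
  linarith

private lemma eqmE_exp (k : ℝ) (w : Vec d) :
    Real.exp (-(k * nsq w)) = ∏ i, Real.exp (-(k * w i ^ 2)) := by
  rw [← Real.exp_sum]
  congr 1
  unfold nsq
  rw [Finset.mul_sum, ← Finset.sum_neg_distrib]

private lemma eqmE_sqrt (k : ℝ) (hk : 0 < k) :
    Real.sqrt (Real.pi / k) ^ d = (Real.pi / k) ^ ((d : ℝ) / 2) := by
  have h0 : 0 ≤ Real.pi / k := (div_pos Real.pi_pos hk).le
  rw [Real.sqrt_eq_rpow, ← Real.rpow_natCast, ← Real.rpow_mul h0]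
  congr 1
  ring

private lemma eqmE_J0 {k : ℝ} (hk : 0 < k) :
    Integrable (fun w : Vec d => Real.exp (-(k * nsq w))) ∧
    ∫ w : Vec d, Real.exp (-(k * nsq w)) = (Real.pi / k) ^ ((d : ℝ) / 2) := by
  constructor
  · simp only [eqmE_exp]
    exact Integrable.fintype_prod (f := fun (_ : Fin d) (x : ℝ) => Real.exp (-(k * x ^ 2)))
      (μ := fun _ => volume) fun _ => eqmE_i0 hk
  · simp only [eqmE_exp]
    rw [integral_fintype_prod_volume_eq_prod (fun (_ : Fin d) (x : ℝ) => Real.exp (-(k * x ^ 2)))]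
    rw [Finset.prod_const, eqmE_G0, Finset.card_univ, Fintype.card_fin]
    exact eqmE_sqrt k hk

private lemma eqmE_J {k : ℝ} (hk : 0 < k) (i : Fin d) {p : ℝ → ℝ} {c : ℝ}
    (hi : Integrable fun x : ℝ => p x * Real.exp (-(k * x ^ 2)))
    (hc : ∫ x : ℝ, p x * Real.exp (-(k * x ^ 2)) = c * Real.sqrt (Real.pi / k)) :
    Integrable (fun w : Vec d => p (w i) * Real.exp (-(k * nsq w))) ∧
    ∫ w : Vec d, p (w i) * Real.exp (-(k * nsq w)) = c * (Real.pi / k) ^ ((d : ℝ) / 2) := by
  have e : (fun w : Vec d => p (w i) * Real.exp (-(k * nsq w))) =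
      fun w : Vec d => ∏ j, (fun (j : Fin d) (x : ℝ) =>
        (if j = i then p x else 1) * Real.exp (-(k * x ^ 2))) j (w j) := by
    funext w
    rw [eqmE_exp]
    simp only [Finset.prod_mul_distrib, Finset.prod_ite_eq', Finset.mem_univ, if_true]
  have hI : ∀ j : Fin d, Integrable (fun x : ℝ =>
      (if j = i then p x else 1) * Real.exp (-(k * x ^ 2))) := by
    intro j
    by_cases h : j = i
    · simp only [h, if_true]
      exact hi
    · simp only [h, if_false, one_mul]
      exact eqmE_i0 hk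
  rw [e]
  constructor
  · exact Integrable.fintype_prod (f := fun (j : Fin d) (x : ℝ) =>
        (if j = i then p x else 1) * Real.exp (-(k * x ^ 2)))
      (μ := fun _ => volume) hI
  · rw [integral_fintype_prod_volume_eq_prod (fun (j : Fin d) (x : ℝ) =>
        (if j = i then p x else 1) * Real.exp (-(k * x ^ 2)))]
    have h1 : ∀ j : Fin d, ∫ x : ℝ, (if j = i then p x else 1) * Real.exp (-(k * x ^ 2)) =
        (if j = i then c else 1) * Real.sqrt (Real.pi / k) := by
      intro j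
      by_cases h : j = i
      · simp only [h, if_true]
        exact hc
      · simp only [h, if_false, one_mul]
        exact eqmE_G0 k
    rw [Finset.prod_congr rfl fun j _ => h1 j, Finset.prod_mul_distrib, Finset.prod_ite_eq',
      if_pos (Finset.mem_univ _), Finset.prod_const, Finset.card_univ, Fintype.card_fin,
      eqmE_sqrt k hk]

theorem mx_ints {k : ℝ} (hk : 0 < k) (a : ℝ) (u : Vec d) :
    ∫ v, mx a k u v = a * (Real.pi / k) ^ ((d : ℝ) / 2) ∧
    (∀ i, ∫ v, mx a k u v * v i = a * (Real.pi / k) ^ ((d : ℝ) / 2) * u i) ∧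
    ∫ v, mx a k u v * nsq v = a * (Real.pi / k) ^ ((d : ℝ) / 2) * (nsq u + d / (2 * k)) := by
  obtain ⟨i0, v0⟩ := eqmE_J0 (d := d) hk
  have j1 : ∀ i : Fin d, _ := fun i => eqmE_J hk i (p := fun x => x) (c := 0) (eqmE_i1 hk)
    (by rw [zero_mul]; exact eqmE_G1 k)
  have j2 : ∀ i : Fin d, _ := fun i => eqmE_J hk i (p := fun x => x ^ 2) (c := 1 / (2 * k))
    (eqmE_i2 hk) (eqmE_G2 hk)
  have e0 : ∀ w : Vec d, mx a k u (w + u) = a * Real.exp (-(k * nsq w)) := by
    intro w
    unfold mx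
    rw [add_sub_cancel_right]
  refine ⟨?_, fun i => ?_, ?_⟩
  · rw [← integral_add_right_eq_self (fun v => mx a k u v) u]
    simp only [e0]
    rw [integral_const_mul, v0]
  · rw [← integral_add_right_eq_self (fun v => mx a k u v * v i) u]
    have e1 : (fun w : Vec d => mx a k u (w + u) * (w + u) i) = fun w : Vec d =>
        a * (w i * Real.exp (-(k * nsq w))) + a * u i * Real.exp (-(k * nsq w)) := by
      funext w
      rw [e0, Pi.add_apply]
      ring
    rw [e1, integral_add ((j1 i).1.const_mul a) (i0.const_mul _), integral_const_mul,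
      integral_const_mul, (j1 i).2, v0]
    ring
  · rw [← integral_add_right_eq_self (fun v => mx a k u v * nsq v) u]
    have e1 : (fun w : Vec d => mx a k u (w + u) * nsq (w + u)) = fun w : Vec d =>
        ∑ i, (a * (w i ^ 2 * Real.exp (-(k * nsq w))) + (2 * a * u i * (w i * Real.exp (-(k * nsq w)))
          + a * u i ^ 2 * Real.exp (-(k * nsq w)))) := by
      funext w
      rw [e0]
      conv_lhs => rw [show nsq (w + u) = ∑ i, (w i + u i) ^ 2 from rfl, Finset.mul_sum]
      refine Finset.sum_congr rfl fun i _ => ?_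
      ring
    have hs : ∀ i : Fin d, Integrable fun w : Vec d =>
        (a * (w i ^ 2 * Real.exp (-(k * nsq w))) + (2 * a * u i * (w i * Real.exp (-(k * nsq w)))
          + a * u i ^ 2 * Real.exp (-(k * nsq w)))) := fun i =>
      ((j2 i).1.const_mul a).add (((j1 i).1.const_mul _).add (i0.const_mul _))
    rw [e1, integral_finsetSum _ fun i _ => hs i]
    have hv : ∀ i : Fin d, ∫ w : Vec d,
        (a * (w i ^ 2 * Real.exp (-(k * nsq w))) + (2 * a * u i * (w i * Real.exp (-(k * nsq w)))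
          + a * u i ^ 2 * Real.exp (-(k * nsq w)))) =
        a * (Real.pi / k) ^ ((d : ℝ) / 2) * (1 / (2 * k) + u i ^ 2) := by
      intro i
      have ib : Integrable fun w : Vec d => 2 * a * u i * (w i * Real.exp (-(k * nsq w))) :=
        (j1 i).1.const_mul _
      have ic : Integrable fun w : Vec d => a * u i ^ 2 * Real.exp (-(k * nsq w)) :=
        i0.const_mul _
      have ibc : Integrable fun w : Vec d => 2 * a * u i * (w i * Real.exp (-(k * nsq w))) +
          a * u i ^ 2 * Real.exp (-(k * nsq w)) := ib.add ic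
      rw [integral_add ((j2 i).1.const_mul a) ibc,
        integral_add ib ic, integral_const_mul,
        integral_const_mul, integral_const_mul, (j1 i).2, (j2 i).2, v0]
      ring
    rw [Finset.sum_congr rfl fun i _ => hv i, ← Finset.mul_sum, Finset.sum_add_distrib,
      Finset.sum_const, Finset.card_univ, Fintype.card_fin, nsmul_eq_mul]
    congr 1
    unfold nsq
    ring

private lemma eqmE_int {F : Vec d → Vec d → ℝ} (hF : Slice F) {p : Vec d → ℝ} (hp : Continuous p)
    {A : ℝ} (hA : ∀ v, |p v| ≤ A * (1 + ‖v‖) ^ 2) :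
    Integrable (fun q : Vec d × Vec d => F q.2 q.1 * p q.1) (nu d) := by
  obtain ⟨C, hC⟩ := hF.decay (d + 3)
  have hc : Continuous fun q : Vec d × Vec d => F q.2 q.1 * p q.1 :=
    (hF.cont.comp (by fun_prop : Continuous fun q : Vec d × Vec d => (q.2, q.1))).mul
      (hp.comp continuous_fst)
  have hA0 : 0 ≤ A := by
    have h := (abs_nonneg _).trans (hA 0)
    rw [norm_zero, add_zero, one_pow, mul_one] at h
    exact h
  refine integrable_nu (C := A * C) hc.aestronglyMeasurable fun q => ?_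
  have hw : 0 < 1 + ‖q.1‖ := by positivity
  rw [abs_mul, abs_of_nonneg (hF.nonneg _ _)]
  calc F q.2 q.1 * |p q.1| ≤ F q.2 q.1 * (A * (1 + ‖q.1‖) ^ 2) :=
        mul_le_mul_of_nonneg_left (hA _) (hF.nonneg _ _)
    _ = A * ((1 + ‖q.1‖) ^ (d + 3) * F q.2 q.1) * ((1 + ‖q.1‖) ^ (d + 1))⁻¹ := by
        rw [pow_add, show d + 1 = d + 1 from rfl]
        field_simp
        ring
    _ ≤ A * C * ((1 + ‖q.1‖) ^ (d + 1))⁻¹ := by
        refine mul_le_mul_of_nonneg_right (mul_le_mul_of_nonneg_left (hC _ _) hA0) ?_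
        positivity
    _ = A * C * wt d q.1 := rfl

theorem eqm_exists (hd : 1 ≤ d) {F : Vec d → Vec d → ℝ} (hF : Slice F)
    (hm : 0 < ∫ q, F q.2 q.1 ∂(nu d)) : ∃ (a k : ℝ) (u : Vec d), EqM a k u F := by
  have hn0 : ∀ v : Vec d, 0 ≤ nsq v := fun v => Finset.sum_nonneg fun i _ => sq_nonneg _
  have hcn : Continuous fun v : Vec d => nsq v := by
    unfold nsq
    fun_prop
  have k0 : Integrable (fun q : Vec d × Vec d => F q.2 q.1) (nu d) := by
    have := eqmE_int hF (p := fun _ => 1) continuous_const (A := 1) fun v => by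
      rw [abs_one, one_mul]
      nlinarith [norm_nonneg v]
    simpa using this
  have k1 : ∀ i, Integrable (fun q : Vec d × Vec d => F q.2 q.1 * q.1 i) (nu d) := fun i =>
    eqmE_int hF (p := fun v => v i) (continuous_apply i) (A := 1) fun v => by
      have h := norm_le_pi_norm v i
      rw [Real.norm_eq_abs] at h
      nlinarith [norm_nonneg v]
  have k2 : Integrable (fun q : Vec d × Vec d => F q.2 q.1 * nsq q.1) (nu d) :=
    eqmE_int hF hcn (A := d + 1) fun v => by
      rw [abs_of_nonneg (hn0 v)]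
      have := one_add_nsq_le v
      linarith
  set ρ := ∫ q, F q.2 q.1 ∂(nu d) with hρ
  set u : Vec d := fun i => ρ⁻¹ * ∫ q, F q.2 q.1 * q.1 i ∂(nu d) with hu
  have hui : ∀ i, ρ * u i = ∫ q, F q.2 q.1 * q.1 i ∂(nu d) := by
    intro i
    rw [hu]
    field_simp
  set E := ∫ q, F q.2 q.1 * nsq (q.1 - u) ∂(nu d) with hE
  have ee : (fun q : Vec d × Vec d => F q.2 q.1 * nsq (q.1 - u)) = fun q =>
      F q.2 q.1 * nsq q.1 - (2 * (∑ i, u i * (F q.2 q.1 * q.1 i)) - nsq u * F q.2 q.1) := by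
    funext q
    have h1 : nsq (q.1 - u) = nsq q.1 - (2 * (∑ i, u i * q.1 i) - nsq u) := by
      unfold nsq
      rw [Finset.mul_sum, ← Finset.sum_sub_distrib, ← Finset.sum_sub_distrib]
      refine Finset.sum_congr rfl fun i _ => ?_
      rw [Pi.sub_apply]
      ring
    rw [h1]
    have h2 : ∑ i, u i * (F q.2 q.1 * q.1 i) = F q.2 q.1 * ∑ i, u i * q.1 i := by
      rw [Finset.mul_sum]
      exact Finset.sum_congr rfl fun i _ => by ring
    rw [h2]
    ring
  have ks : Integrable (fun q : Vec d × Vec d => ∑ i, u i * (F q.2 q.1 * q.1 i)) (nu d) :=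
    integrable_finsetSum _ fun i _ => (k1 i).const_mul _
  have ks2 : Integrable (fun q : Vec d × Vec d => 2 * (∑ i, u i * (F q.2 q.1 * q.1 i))) (nu d) :=
    ks.const_mul 2
  have k02 : Integrable (fun q : Vec d × Vec d => nsq u * F q.2 q.1) (nu d) := k0.const_mul _
  have ksk : Integrable (fun q : Vec d × Vec d =>
      2 * (∑ i, u i * (F q.2 q.1 * q.1 i)) - nsq u * F q.2 q.1) (nu d) := ks2.sub k02
  have kE : Integrable (fun q : Vec d × Vec d => F q.2 q.1 * nsq (q.1 - u)) (nu d) := by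
    rw [ee]
    exact k2.sub ksk
  have hEe : E = (∫ q, F q.2 q.1 * nsq q.1 ∂(nu d)) - ρ * nsq u := by
    rw [hE, ee, integral_sub k2 ksk,
      integral_sub ks2 k02, integral_const_mul, integral_const_mul,
      integral_finsetSum _ fun i _ => (k1 i).const_mul _]
    simp only [integral_const_mul]
    have h3 : ∑ i, u i * ∫ q, F q.2 q.1 * q.1 i ∂(nu d) = ρ * nsq u := by
      unfold nsq
      rw [Finset.mul_sum]
      refine Finset.sum_congr rfl fun i _ => ?_
      rw [← hui i]
      ring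
    rw [h3, ← hρ]
    ring
  have hE0 : 0 < E := by
    have hEn : 0 ≤ E := integral_nonneg fun q => mul_nonneg (hF.nonneg _ _) (hn0 _)
    rcases hEn.lt_or_eq with h | h
    · exact h
    exfalso
    have hz := (integral_eq_zero_iff_of_nonneg
      (fun q : Vec d × Vec d => mul_nonneg (hF.nonneg q.2 q.1) (hn0 (q.1 - u))) kE).1
      (by rw [← hE, ← h])
    have : Nonempty (Fin d) := ⟨⟨0, hd⟩⟩
    have hnull : nu d {q : Vec d × Vec d | q.1 = u} = 0 := by
      have e : {q : Vec d × Vec d | q.1 = u} = ({u} : Set (Vec d)) ×ˢ (univ : Set (Vec d)) := by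
        ext q
        simp
      rw [e, nu, Measure.prod_prod]
      have : (volume : Measure (Vec d)) {u} = 0 := measure_singleton u
      rw [this, zero_mul]
    have hae : ∀ᵐ q ∂(nu d), F q.2 q.1 = 0 := by
      have h1 : ∀ᵐ q ∂(nu d), q.1 ≠ u := by
        rw [ae_iff]
        simpa using hnull
      filter_upwards [hz, h1] with q hq hq1
      have hq' : F q.2 q.1 * nsq (q.1 - u) = 0 := hq
      rcases mul_eq_zero.1 hq' with h | h
      · exact h
      · exfalso
        apply hq1
        have h4 : ∀ i, (q.1 - u) i ^ 2 = 0 := by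
          intro i
          have := (Finset.sum_eq_zero_iff_of_nonneg fun i _ => sq_nonneg ((q.1 - u) i)).1 h i
            (Finset.mem_univ i)
          exact this
        funext i
        have h5 := pow_eq_zero_iff (two_ne_zero) |>.1 (h4 i)
        rw [Pi.sub_apply] at h5
        linarith
    have : ρ = 0 := by
      rw [hρ]
      exact (integral_congr_ae hae).trans (integral_zero _ _)
    linarith
  have hd0 : (0 : ℝ) < d := by exact_mod_cast hd
  have hk : 0 < ρ * d / (2 * E) := by positivity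
  obtain ⟨m1, m2, m3⟩ := mx_ints hk (ρ * (Real.pi / (ρ * d / (2 * E))) ^ (-((d : ℝ) / 2))) u
  have hP : 0 < Real.pi / (ρ * d / (2 * E)) := div_pos Real.pi_pos hk
  have hone : ρ * (Real.pi / (ρ * d / (2 * E))) ^ (-((d : ℝ) / 2)) *
      (Real.pi / (ρ * d / (2 * E))) ^ ((d : ℝ) / 2) = ρ := by
    rw [mul_assoc, ← Real.rpow_add hP, neg_add_cancel, Real.rpow_zero, mul_one]
  refine ⟨ρ * (Real.pi / (ρ * d / (2 * E))) ^ (-((d : ℝ) / 2)), ρ * d / (2 * E), u, ?_, hk, ?_,
    fun i => ?_, ?_⟩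
  · exact mul_pos hm (Real.rpow_pos_of_pos hP _)
  · rw [m1, hone]
  · rw [m2, hone, hui]
  · rw [m3, hone]
    have h6 : (d : ℝ) / (2 * (ρ * d / (2 * E))) = E / ρ := by
      field_simp
    rw [h6, hEe]
    field_simp
    ring

end Pool.Agent.H48.CV
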