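import Pool.Agent.H48.NE.Defs
import Pool.Agent.H48.PG.DefB

/-!
# Part P: convergence of plane symmetric solutions to the Maxwellian (MP_c15324_an): definitions
-/

set_option autoImplicit false

open MeasureTheory Set Filter Topology Pool.Agent.H25.Kin Pool.Agent.H48.PL Pool.Agent.H48.PD
open Pool.Agent.H82.BK Pool.Agent.H82.CM Pool.Agent.H48.PR Pool.Agent.H48.NE

namespace Pool.Agent.H48.CV

variable {d : ℕ}

/-- plane symmetric solutions with bounds that do not depend on time -/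
structure PB (γ : ℝ) (b : ℝ → ℝ) (Cl : ℕ → ℝ) (m : ℝ) (e : Fin d) (T : ℝ)
    (f : ℝ → Vec d → Vec d → ℝ) : Prop where
  sol : IsBoltzmannSol γ b T f
  pla : Planar e T f
  dec : ∀ t ∈ Ico 0 T, ∀ (N : ℕ) (x v : Vec d), (1 + ‖v‖) ^ N * f t x v ≤ Cl N
  mass : ∀ t ∈ Ico 0 T, ∀ x, m ≤ ∫ v, f t x v

/-- the Maxwellian `mx a k u` has the same total mass, momentum and energy as `F` -/
structure EqM (a k : ℝ) (u : Vec d) (F : Vec d → Vec d → ℝ) : Prop where
  ha : 0 < a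
  hk : 0 < k
  mass : ∫ q, F q.2 q.1 ∂(nu d) = ∫ v, mx a k u v
  mom : ∀ i, ∫ q, F q.2 q.1 * q.1 i ∂(nu d) = ∫ v, mx a k u v * v i
  ene : ∫ q, F q.2 q.1 * nsq q.1 ∂(nu d) = ∫ v, mx a k u v * nsq v

end Pool.Agent.H48.CV
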