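import Pool.Agent.H48.NE.ReA
import Pool.Agent.H48.NE.ReB
import Pool.Agent.H48.CV.Defs
import Pool.Agent.H48.PI.Shift

/-!
# Module HsD: entropy and relative entropy

`re_mono`: `re_anti` for the shifted solution `f(r + ·)` (`boltz_shift` of PI/Shift). `hs_drop`: `re_formula` at `r` and `t` (`sol_slice`), conservation of mass, momentum, energy (as in `re_anti`): `RE (f r) - RE (f t) = Hs (f r) - Hs (f t)` (`Hs` unfolds to `∫ F log F dν`), and `RE (f t) ≥ 0` (`re_nonneg`). -/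

set_option autoImplicit false

open MeasureTheory Set Filter Topology Pool.Agent.H25.Kin Pool.Agent.H48.PL Pool.Agent.H48.PD
open Pool.Agent.H82.BK Pool.Agent.H82.CM Pool.Agent.H48.PR Pool.Agent.H48.NE
open Pool.Agent.H15.AV (Slice sol_slice)

namespace Pool.Agent.H48.CV

variable {d : ℕ} {γ s C Ca cb : ℝ} {b : ℝ → ℝ}

private theorem hsD_pos1 : Pos (fun _ : Vec d => (1 : ℝ)) 1 where
  per := fun _ _ => rfl
  smooth := contDiff_const
  le0 := fun _ => by simp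
  le1 := fun x => by
    have h : fderiv ℝ (fun _ : Vec d => (1 : ℝ)) x = 0 := by simp
    rw [h, norm_zero]
    exact zero_le_one

private theorem hsD_mom {T : ℝ} {f Q' : ℝ → Vec d → Vec d → ℝ} (hf : IsClassicalSol T Q' f)
    {p : Vec d → ℝ} (hp : PG p) (hpc : Continuous p)
    (hQ : ∀ s ∈ Ioo 0 T, ∀ x, ∫ v, Q' s x v * p v = 0) {t : ℝ} (ht : t ∈ Ico 0 T) :
    mom (fun _ => 1) p f t = mom (fun _ => 1) p f 0 := by
  rcases ht.1.eq_or_lt with h0 | h0
  · rw [← h0]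
  · have hd : ∀ s ∈ Ioo 0 t, HasDerivAt (mom (fun _ => 1) p f) 0 s := by
      intro s hs
      have h1 := mom_hasDerivAt hsD_pos1 hp hpc hf ⟨hs.1, hs.2.trans ht.2⟩
        (hQ s ⟨hs.1, hs.2.trans ht.2⟩)
      refine h1.congr_deriv ?_
      simp
    obtain ⟨c, -, hc⟩ := exists_hasDerivAt_eq_slope (mom (fun _ => 1) p f) (fun _ => 0) h0
      (mom_cont hsD_pos1 hp hpc hf ht.2) hd
    rw [sub_zero, eq_comm, div_eq_zero_iff] at hc
    rcases hc with hc | hc
    · linarith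
    · exact absurd hc h0.ne'

theorem re_mono (HL : HypL d γ s b C Ca cb) {a k : ℝ} (ha : 0 < a) (hk : 0 < k) (u : Vec d) {T : ℝ}
    {f : ℝ → Vec d → Vec d → ℝ} (hf : IsBoltzmannSol γ b T f) {r t : ℝ} (hr : 0 ≤ r) (hrt : r ≤ t)
    (ht : t < T) : RE a k u (f t) ≤ RE a k u (f r) := by
  have hg := Pool.Agent.H48.PI.boltz_shift hf hr
  have h := re_anti HL ha hk u hg (t := t - r) ⟨by linarith, by linarith⟩
  simpa using h

theorem hs_drop (HL : HypL d γ s b C Ca cb) {a k : ℝ} (ha : 0 < a) (hk : 0 < k) (u : Vec d) {T : ℝ}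
    {f : ℝ → Vec d → Vec d → ℝ} (hf : IsBoltzmannSol γ b T f) {r t : ℝ} (hr : 0 ≤ r) (hrt : r ≤ t)
    (ht : t < T) : Pool.Agent.H48.PI.Hs (f r) - Pool.Agent.H48.PI.Hs (f t) ≤ RE a k u (f r) := by
  have htT : t ∈ Ico 0 T := ⟨hr.trans hrt, ht⟩
  have hrT : r ∈ Ico 0 T := ⟨hr, hrt.trans_lt ht⟩
  have hI := boltz_HasInvariants HL.H hf
  have m1 := Pool.Agent.H15.AV.mass_const (Q := boltzQ γ b) hf hI htT
  have m2 := Pool.Agent.H15.AV.mass_const (Q := boltzQ γ b) hf hI hrT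
  have e1 := Pool.Agent.H15.AV.energy_const (Q := boltzQ γ b) hf hI htT
  have e2 := Pool.Agent.H15.AV.energy_const (Q := boltzQ γ b) hf hI hrT
  have h4 : ∀ {w : ℝ}, w ∈ Ico 0 T → ∀ i : Fin d,
      ∫ q, f w q.2 q.1 * q.1 i ∂(nu d) = ∫ q, f 0 q.2 q.1 * q.1 i ∂(nu d) := by
    intro w hw i
    have h5 := hsD_mom hf (p := fun v => v i) (PG.coord i) (continuous_apply i)
      (fun s hs x => (hI s hs x).2.1 i) hw
    unfold mom at h5
    simp only [one_mul] at h5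
    have e : ∀ r : ℝ, ∫ q, f r q.2 q.1 * q.1 i ∂(nu d) = ∫ q, q.1 i * f r q.2 q.1 ∂(nu d) :=
      fun r => integral_congr_ae (Eventually.of_forall fun q => mul_comm _ _)
    rw [e w, e 0, h5]
  have hSt := sol_slice hf htT
  have hn := re_nonneg ha hk u (f t) hSt.nonneg
  rw [re_formula ha hk u hSt, m1, e1] at hn
  rw [re_formula ha hk u (sol_slice hf hrT), m2, e2]
  simp only [h4 htT] at hn
  simp only [h4 hrT]
  unfold Pool.Agent.H48.PI.Hs
  linarith

end Pool.Agent.H48.CV
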