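import Pool.Agent.H48.CV.ConvD
import Pool.Agent.H48.CV.HsD
import Pool.Agent.H48.CV.EqmE

/-!
# Module GenC: convergence to the Maxwellian, coordinate directions, general form

As Crd and CrdE (proofs by helper21 and helper45), for all `γ ≥ 0`; the two blocks P1 (`L1T`), P2 (`SupS`) and the bounds of the
solutions (`UBP`) are hypotheses. -/

set_option autoImplicit false

open MeasureTheory Set Filter Topology Pool.Agent.H25.Kin Pool.Agent.H48.PL Pool.Agent.H48.PD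
open Pool.Agent.H82.BK Pool.Agent.H82.CM Pool.Agent.H48.PR Pool.Agent.H48.NE
open Pool.Agent.H15.AV (Slice sol_slice)

namespace Pool.Agent.H48.CV

variable {d : ℕ}

/-- block P1 as a property of the kernel -/
def L1T (d : ℕ) (γ : ℝ) (b : ℝ → ℝ) (e : Fin d) : Prop :=
  ∀ (Cl : ℕ → ℝ) (m : ℝ), 0 < m → ∀ (a k : ℝ) (u : Vec d) (ε : ℝ), 0 < ε →
    ∃ L : ℝ, 1 ≤ L ∧ ∀ (T : ℝ) (f : ℝ → Vec d → Vec d → ℝ),
      PB γ b Cl m e T f → EqM a k u (f 0) → L < T →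
      ∃ t ∈ Icc 1 L, ∫ q, |f t q.2 q.1 - mx a k u q.1| ∂(nu d) ≤ ε

/-- block P2 as a property of the kernel -/
def SupS (d : ℕ) (γ : ℝ) (b : ℝ → ℝ) (e : Fin d) : Prop :=
  ∀ (Cl : ℕ → ℝ) (m : ℝ), 0 < m → ∀ (a k : ℝ), 0 < a → 0 < k → ∀ (u : Vec d) (p : ℕ) (η : ℝ), 0 < η →
    ∃ ε > 0, ∀ (T : ℝ) (f : ℝ → Vec d → Vec d → ℝ), PB γ b Cl m e T f → ∀ t₀ : ℝ, 1 ≤ t₀ →
      t₀ + 1 < T → Pool.Agent.H48.PI.Hs (f t₀) - Pool.Agent.H48.PI.Hs (f (t₀ + 1)) ≤ ε →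
      (∀ t ∈ Icc t₀ (t₀ + 1), ∫ q, |f t q.2 q.1 - mx a k u q.1| ∂(nu d) ≤ ε) →
      ∀ x v, |f (t₀ + 1) x v - mx a k u v| ≤ η * Wp p v

/-- the solutions with the initial value `F₀` and the symmetry `P` have decay constants and a lower bound of the mass density
which do not depend on time -/
def UBP (d : ℕ) (γ : ℝ) (b : ℝ → ℝ) (P : ℝ → (ℝ → Vec d → Vec d → ℝ) → Prop)
    (F₀ : Vec d → Vec d → ℝ) : Prop :=
  ∃ (U : ℕ → ℝ) (m₀ : ℝ), 0 < m₀ ∧ ∀ (T : ℝ) (f : ℝ → Vec d → Vec d → ℝ), IsBoltzmannSol γ b T f →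
    P T f → f 0 = F₀ → ∀ t ∈ Ico 0 T, ∀ x, (∀ (N : ℕ) (v : Vec d), (1 + ‖v‖) ^ N * f t x v ≤ U N) ∧
      m₀ ≤ ∫ v, f t x v

theorem conv_coordG {s γ : ℝ} (hd : 2 ≤ d) (hs : 0 < s) (h0 : 0 ≤ γ) (hs1 : 2 * s < 1)
    (h2 : γ + 2 * s ≤ 2) {b : ℝ → ℝ} (hb : IsKernel d s b) {e : Fin d} (hP1 : L1T d γ b e)
    (hP2 : SupS d γ b e) (Cl : ℕ → ℝ) {m : ℝ} (hm : 0 < m) (a k : ℝ) (u : Vec d) (p : ℕ)
    {η : ℝ} (hη : 0 < η) : ∃ L : ℝ, ∀ (T : ℝ) (f : ℝ → Vec d → Vec d → ℝ), PB γ b Cl m e T f →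
      EqM a k u (f 0) → ∀ t ∈ Ico L T, ∀ x v, |f t x v - mx a k u v| ≤ η * Wp p v := by
  by_cases hak : 0 < a ∧ 0 < k
  swap
  · exact ⟨0, fun T f _ hE => absurd ⟨hE.ha, hE.hk⟩ hak⟩
  obtain ⟨ha, hk⟩ := hak
  obtain ⟨C, Ca, cb, HL⟩ := exists_hypL hd hs (by linarith : s < 1) (by linarith : 0 ≤ γ + 2 * s)
    h2 hb
  obtain ⟨ε, hε, hsup⟩ := hP2 Cl m hm a k ha hk u p η hη
  obtain ⟨K, hK, hre⟩ := re_l1 ha hk u (∫ v, mx a k u v)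
  obtain ⟨η₁, hη₁, hη₁e, hη₁K⟩ : ∃ η₁ : ℝ, 0 < η₁ ∧ η₁ ≤ ε ∧ K * Real.sqrt η₁ ≤ ε := by
    refine ⟨min ε ((ε / (K + 1)) ^ 2), lt_min hε (by positivity), min_le_left _ _, ?_⟩
    have k1 : Real.sqrt (min ε ((ε / (K + 1)) ^ 2)) ≤ ε / (K + 1) :=
      (Real.sqrt_le_sqrt (min_le_right _ _)).trans
        (le_of_eq (Real.sqrt_sq (by positivity : 0 ≤ ε / (K + 1))))
    calc K * Real.sqrt (min ε ((ε / (K + 1)) ^ 2)) ≤ K * (ε / (K + 1)) :=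
          mul_le_mul_of_nonneg_left k1 hK
      _ = ε * (K / (K + 1)) := by ring
      _ ≤ ε * 1 := mul_le_mul_of_nonneg_left ((div_le_one (by linarith)).2 (by linarith)) hε.le
      _ = ε := mul_one ε
  obtain ⟨ε₁, hε₁, hsm⟩ := re_small ha hk u Cl hη₁
  obtain ⟨L₁, hL₁, hl⟩ := hP1 Cl m hm a k u ε₁ hε₁
  refine ⟨L₁ + 1, fun T f hP hE t ht x v => ?_⟩
  obtain ⟨r, hr, hr1⟩ := hl T f hP hE (by linarith [ht.1, ht.2])
  have hLt := ht.1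
  have hrT : r < T := by linarith [hr.2, ht.1, ht.2]
  have hr0 : 0 ≤ r := by linarith [hr.1]
  have hRE : ∀ τ, r ≤ τ → τ < T → RE a k u (f τ) ≤ η₁ := fun τ h3 h4 =>
    (re_mono HL ha hk u hP.sol hr0 h3 h4).trans
      (hsm (f r) (sol_slice hP.sol ⟨hr0, hrT⟩) (hP.dec r ⟨hr0, hrT⟩) hr1)
  have hI := boltz_HasInvariants HL.H hP.sol
  have hL1 : ∀ τ, r ≤ τ → τ < T → ∫ q, |f τ q.2 q.1 - mx a k u q.1| ∂(nu d) ≤ ε := by
    intro τ h3 h4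
    have hτ : τ ∈ Ico 0 T := ⟨hr0.trans h3, h4⟩
    have h5 := Pool.Agent.H15.AV.mass_const (Q := boltzQ γ b) hP.sol hI hτ
    have h6 := hre (f τ) (sol_slice hP.sol hτ) (by rw [h5, hE.mass])
    refine h6.trans (le_trans ?_ hη₁K)
    exact mul_le_mul_of_nonneg_left (Real.sqrt_le_sqrt (hRE τ h3 h4)) hK
  have hrt : r ≤ t - 1 := by linarith [hr.2]
  have ht1 : t - 1 < T := by linarith [ht.2]
  have hdrop := hs_drop HL ha hk u hP.sol (hr0.trans hrt) (by linarith : t - 1 ≤ t) ht.2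
  have h7 := hsup T f hP (t - 1) (by linarith) (by linarith [ht.2])
    (by
      rw [sub_add_cancel]
      exact hdrop.trans ((hRE (t - 1) hrt ht1).trans hη₁e))
    (fun τ hτ => hL1 τ (hrt.trans hτ.1) (by linarith [hτ.2, ht.2])) x v
  rwa [sub_add_cancel] at h7

private lemma GenC_mass {F₀ : Vec d → Vec d → ℝ} (hF : Slice F₀)
    (hm : ∀ x, 0 < ∫ v, F₀ x v) : 0 < ∫ q, F₀ q.2 q.1 ∂(nu d) := by
  have hms : Measurable fun q : Vec d × Vec d => F₀ q.2 q.1 :=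
    (hF.cont.comp (continuous_snd.prodMk continuous_fst)).measurable
  obtain ⟨C, hC⟩ := hF.decay (d + 1)
  have hint : Integrable (fun q : Vec d × Vec d => F₀ q.2 q.1) (nu d) := by
    refine integrable_nu (C := C) hms.aestronglyMeasurable fun q => ?_
    rw [abs_of_nonneg (hF.nonneg _ _)]
    unfold wt
    rw [← div_eq_mul_inv, le_div_iff₀ (by positivity), mul_comm]
    exact hC q.2 q.1
  have h1 : ∫ x, (∫ v, F₀ x v) ∂(muD d) = ∫ q, F₀ q.2 q.1 ∂(nu d) :=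
    (integral_prod_symm _ hint).symm
  rw [← h1]
  have h2 : Integrable (fun x => ∫ v, F₀ x v) (muD d) := hint.integral_prod_right
  rw [integral_pos_iff_support_of_nonneg (fun x => (hm x).le) h2]
  have h3 : Function.support (fun x => ∫ v, F₀ x v) = Set.univ := by
    ext x
    simp only [Function.mem_support, Set.mem_univ, iff_true]
    exact (hm x).ne'
  rw [h3]
  unfold muD
  rw [Measure.restrict_apply_univ]
  have h4 : (volume : Measure (Vec d)) (Icc (0 : Vec d) 1) = 1 := by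
    rw [Real.volume_Icc_pi]
    simp
  rw [h4]
  exact one_pos

theorem conv_crdG {s γ : ℝ} (hd : 2 ≤ d) (hs : 0 < s) (h0 : 0 ≤ γ) (hs1 : 2 * s < 1)
    (h2 : γ + 2 * s ≤ 2) {b : ℝ → ℝ} (hb : IsKernel d s b) {e : Fin d} (hP1 : L1T d γ b e)
    (hP2 : SupS d γ b e) {P : ℝ → (ℝ → Vec d → Vec d → ℝ) → Prop} (hPl : ∀ T f, P T f → Planar e T f)
    {F₀ : Vec d → Vec d → ℝ} (hF : Slice F₀) (hm : ∀ x, 0 < ∫ v, F₀ x v)
    (hU : UBP d γ b P F₀) : ConvP d γ b P F₀ := by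
  obtain ⟨U, m₀, hm₀, hU⟩ := hU
  obtain ⟨a, k, u, hEq⟩ := eqm_exists (by omega) hF (GenC_mass hF hm)
  refine ⟨a, k, u, hEq, fun p η hη => ?_⟩
  obtain ⟨L, hL⟩ := conv_coordG hd hs h0 hs1 h2 hb hP1 hP2 U hm₀ a k u p hη
  refine ⟨L, fun T f hf hp hf0 t ht x v => ?_⟩
  refine hL T f ⟨hf, hPl T f hp, fun t ht N x v => (hU T f hf hp hf0 t ht x).1 N v,
    fun t ht x => (hU T f hf hp hf0 t ht x).2⟩ ?_ t ht x v
  rw [hf0]
  exact hEq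

end Pool.Agent.H48.CV
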