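import Pool.Agent.H48.CV.ThmH
import Pool.Agent.H48.CV.GenC
import Pool.Agent.H48.PR.UniG
import Pool.Agent.H48.PI.MaxN
import Pool.Agent.H85.DG.OpD
import Pool.Agent.H48.PG.FinB

/-!
# Module HomB: bounds independent of time for space homogeneous data, `0 < γ < 1`, `2 s < 1`

`hom_sup`: the solutions are assumed independent of `x`. `Slice F₀`. `a = γ - 1 ∈ [-1,0)`, `exists_hypL`, `op_d` (H85/DG/OpD) with `e = ⟨0,_⟩`: `K₀, κ, δ₁`. Let `f` be a solution on `[0,T)`, `f 0 = F₀`, independent of `x`. MASS, ENERGY, ENTROPY of each slice: `∫ f t x dv = ρ := ∫ F₀ 0 v dv`, `∫ f t x v nsq v dv = E` (`mass_const`, `energy_const` of H15/AV/Ent; `nu` integrals of functions independent of `x` are `v`-integrals: `muD_univ`), `∫ (f log⁺ f) dv ≤ C` (`Hs (f t) ≤ Hs F₀`: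
`entropy_le` of H15/AV/Ent as in `Hs_anti`; `ent_lower` of H48/PL/EntL). With `len (v - w)^γ ≤ (1 + len v)^γ (1 + len w)^γ`: for `g = f t x`, `g₁ = g` where `g ≤ C₀` and `jb w ≤ R`, `0` elsewhere: `∫ len(v-w)^γ (g - g₁) ≤ (1 + len v)^γ δ` for `R`, then `C₀`, large (`∫_{jb > R} (1+len w)^γ g ≤ C E R^(γ-2)`; `∫_{g > C₀, jb ≤ R} ≤ (1+R)^γ C/log C₀`), `δ` as small as desired.
LOWER BOUND: `∫ len(v-w)^γ g₁ ≥ c (1 + len v)^γ`, `c = c(ρ, E, C)` independent of `δ`: `∫ g₁ ≥ ρ/2`; the ball `len(v-w) ≤ r₀` has `g₁ ≤ C₁` part (`g ≤ C₁` outside a set of mass `ρ/8`) `≤ C₁ |B_r₀| ≤ ρ/8` so `∫_{len(v-w) ≥ r₀} g₁ ≥ ρ/4`: `≥ r₀^γ ρ/4`; for `len v ≥ R₃` half of the mass is at distance `≥ len v/2` (energy). So for `N₁` of `op_d` (`C₀, R`): at a point `v` with `g v (1+nsq v)^p ≥ N₁` and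
`g u (1+nsq u)^p ≤ g v (1+nsq v)^p` for all `u` (`TouchS δ₁ 1 p g v` with `P = 0`): `boltzQ γ b g v ≤ g v (K₀ ∫ len(v-w)^γ (g - g₁) - κ ∫ len(v-w)^γ g₁) ≤ 0` (`(v_e - w_e) PhS e a v w ≤ len (v-w)^(1+a)`, see H85/DG or H82/DG/OpD). `max_high` (H48/PI/MaxN) with `E = 0`, `DE = 0`, `m = 0`, `A₁ = N₁`, `A₀ = max N₁ A`: the bound `A₀` (as at the end of `core_D`, H85/DG/CoreD).
`hom_of`: `PlaneData s (Pi.single i 1) F₀` for all `i` (`F₀` is independent of `x`), `sym_of_hol` (H48/PR/DatF): `f t x v` depends on `x i` only, for each `i`; with `i = 0` and `i = 1` (`2 ≤ d`): independent of `x`. `hom_UB`: decay constants from `hom_sup` with all large `p`, mass `= ρ`. -/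

set_option autoImplicit false

open MeasureTheory Set Filter Topology Pool.Agent.H25.Kin Pool.Agent.H48.PL Pool.Agent.H48.PD Pool.Agent.H25.PN
open Pool.Agent.H82.BK Pool.Agent.H82.CM Pool.Agent.H48.PR Pool.Agent.H93.CM Pool.Agent.H48.NE
open Pool.Agent.H15.AV (Slice sol_slice)

namespace Pool.Agent.H48.CV

variable {d : ℕ} {s γ : ℝ} {b : ℝ → ℝ}

section Aux

open Pool.Agent.H48.PI Pool.Agent.H48.PW

/-- integral over the phase space of a function of the velocity -/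
private lemma HomB_nu (φ : Vec d → ℝ) : ∫ q, φ q.1 ∂(nu d) = ∫ v, φ v := by
  unfold nu
  rw [integral_fun_fst]
  simp [Measure.real, muD_univ]

/-- the same on a subset -/
private lemma HomB_nuS (φ : Vec d → ℝ) {S : Set (Vec d)} (hS : MeasurableSet S) :
    ∫ q in {q : Vec d × Vec d | q.1 ∈ S}, φ q.1 ∂(nu d) = ∫ v in S, φ v := by
  have hS' : MeasurableSet {q : Vec d × Vec d | q.1 ∈ S} := measurable_fst hS
  rw [← integral_indicator hS', ← integral_indicator hS, ← HomB_nu]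
  refine integral_congr_ae (Eventually.of_forall fun q => ?_)
  by_cases h : q.1 ∈ S
  · have h' : q ∈ {q : Vec d × Vec d | q.1 ∈ S} := h
    simp only
    rw [indicator_of_mem h', indicator_of_mem h]
  · have h' : q ∉ {q : Vec d × Vec d | q.1 ∈ S} := h
    simp only
    rw [indicator_of_notMem h', indicator_of_notMem h]

/-- the bounded part of a slice -/
private lemma HomB_g1 {g : Vec d → ℝ} (hg : Nice g) (hg0 : ∀ u, 0 ≤ g u) {R C₀ : ℝ} (hR : 1 ≤ R) (hC : 0 < C₀) :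
    Measurable (fun u => chi R u * bet C₀ (g u)) ∧ (∀ u, 0 ≤ chi R u * bet C₀ (g u)) ∧
      (∀ u, chi R u * bet C₀ (g u) ≤ g u) ∧ (∀ u, chi R u * bet C₀ (g u) ≤ C₀) ∧
      ∀ u, 2 * R < jb u → chi R u * bet C₀ (g u) = 0 := by
  have hb0 : ∀ u, 0 ≤ bet C₀ (g u) := fun u => bet_nonneg hC (hg0 u)
  have gb' : ∀ u, chi R u * bet C₀ (g u) ≤ bet C₀ (g u) := fun u => by
    calc chi R u * bet C₀ (g u) ≤ 1 * bet C₀ (g u) :=
          mul_le_mul_of_nonneg_right (chi_le_one _ _) (hb0 u)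
      _ = bet C₀ (g u) := one_mul _
  refine ⟨?_, fun u => mul_nonneg (chi_nonneg _ _) (hb0 u), fun u => (gb' u).trans (bet_le hC (hg0 u)),
    fun u => (gb' u).trans (bet_le_C hC (hg0 u)), fun u hu => ?_⟩
  · have m1 : Measurable (bet C₀) := by
      unfold bet
      exact (measurable_const.mul measurable_id).div (measurable_const.add measurable_id)
    exact (chi_cont _).measurable.mul (m1.comp hg.cont.measurable)
  · rw [chi_eq_zero hR hu.le, zero_mul]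

private lemma HomB_chi {R R' : ℝ} (hR : 0 < R) (h : R ≤ R') (w : Vec d) : chi R w ≤ chi R' w := by
  unfold chi
  have h1 : jb w / R' ≤ jb w / R := div_le_div_of_nonneg_left (jb_pos w).le hR h
  exact max_le_max le_rfl (min_le_min le_rfl (by linarith))

private lemma HomB_bet {C C' : ℝ} (hC : 0 < C) (h : C ≤ C') {r : ℝ} (hr : 0 ≤ r) :
    bet C r ≤ bet C' r := by
  have hC' : 0 < C' := hC.trans_le h
  unfold bet
  rw [div_le_div_iff₀ (by positivity) (by positivity)]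
  nlinarith [mul_le_mul_of_nonneg_right h (mul_nonneg hr hr)]

/-- the relative velocity is large away from a slab -/
private lemma HomB_len {R δ : ℝ} (hR : 1 ≤ R) (hδ : 0 < δ) {e : Fin d} {v w : Vec d} (h1 : jb w ≤ 2 * R)
    (h2 : δ ≤ |w e - v e|) : min (1 / 2) (δ / (4 * R)) * jb v ≤ len (v - w) := by
  have hj := jb_pos v
  rcases le_or_gt (jb v) (4 * R) with h | h
  · have h3 : |w e - v e| ≤ len (v - w) := by
      rw [abs_sub_comm]
      exact abs_coord_le (v - w) e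
    calc min (1 / 2) (δ / (4 * R)) * jb v ≤ δ / (4 * R) * (4 * R) :=
          mul_le_mul (min_le_right _ _) h hj.le (by positivity)
      _ = δ := by field_simp
      _ ≤ len (v - w) := h2.trans h3
  · have h3 := (abs_le.1 (jb_lip v w)).2
    calc min (1 / 2) (δ / (4 * R)) * jb v ≤ 1 / 2 * jb v :=
          mul_le_mul_of_nonneg_right (min_le_left _ _) hj.le
      _ ≤ len (v - w) := by linarith

/-- `|v-w|^r ≤ 2 ⟨v⟩^r ⟨w⟩`, `0 ≤ r ≤ 1` -/
private lemma HomB_up {r : ℝ} (h0 : 0 ≤ r) (h1 : r ≤ 1) (v w : Vec d) :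
    len (v - w) ^ r ≤ 2 * jb v ^ r * jb w := by
  have jv := one_le_jb v
  have jw := one_le_jb w
  have h2 : len (v - w) ≤ jb v * (2 * jb w) := by
    have := len_sub_le v w
    have := len_le_jb v
    have := len_le_jb w
    nlinarith
  calc len (v - w) ^ r ≤ (jb v * (2 * jb w)) ^ r := Real.rpow_le_rpow (len_nonneg _) h2 h0
    _ = jb v ^ r * (2 * jb w) ^ r := Real.mul_rpow (by linarith) (by linarith)
    _ ≤ jb v ^ r * (2 * jb w) ^ (1 : ℝ) := by
        refine mul_le_mul_of_nonneg_left ?_ (Real.rpow_nonneg (by linarith) _)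
        exact Real.rpow_le_rpow_of_exponent_le (by linarith) h1
    _ = 2 * jb v ^ r * jb w := by rw [Real.rpow_one]; ring

/-- lower bound of the loss term of the bounded part -/
private lemma HomB_low {r : ℝ} (h0 : 0 ≤ r) (h1 : r ≤ 2) (hd : 2 ≤ d) {g : Vec d → ℝ} (hg : Nice g)
    (hg0 : ∀ u, 0 ≤ g u) {R₂ C₂ R C₀ δ m : ℝ} (hR₂ : 1 ≤ R₂) (hC₂ : 0 < C₂) (hR : R₂ ≤ R) (hC : C₂ ≤ C₀)
    (hδ : 0 < δ) (e : Fin d) (v : Vec d) (hm : m / 2 ≤ ∫ w, chi R₂ w * bet C₂ (g w))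
    (hs : ∫ w in {w : Vec d | |w e - v e| < δ}, chi R₂ w * bet C₂ (g w) ≤ m / 4) :
    min (1 / 2) (δ / (4 * R₂)) ^ r * jb v ^ r * (m / 4) ≤
      ∫ w, len (v - w) ^ r * (chi R w * bet C₀ (g w)) := by
  obtain ⟨m2, p2, l2, c2, z2⟩ := HomB_g1 hg hg0 hR₂ hC₂
  obtain ⟨m1, p1, l1, c1, z1⟩ := HomB_g1 hg hg0 (hR₂.trans hR) (hC₂.trans_le hC)
  obtain ⟨c, hc⟩ : ∃ c : ℝ, c = min (1 / 2) (δ / (4 * R₂)) := ⟨_, rfl⟩
  have hc0 : 0 < c := by
    rw [hc]
    have : 0 < R₂ := by linarith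
    exact lt_min (by norm_num) (by positivity)
  have hS : MeasurableSet {w : Vec d | |w e - v e| < δ} := by
    have h3 : Continuous fun w : Vec d => |w e - v e| := by fun_prop
    have h4 : Measurable fun w : Vec d => |w e - v e| := h3.measurable
    exact h4 measurableSet_Iio
  have hgi : Integrable g := hg.rd.integrable hg.cont.aestronglyMeasurable
  have i2 : Integrable fun w => chi R₂ w * bet C₂ (g w) := by
    refine hgi.mono' m2.aestronglyMeasurable (Eventually.of_forall fun w => ?_)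
    rw [Real.norm_of_nonneg (p2 w)]
    exact l2 w
  have hlm : Measurable fun w : Vec d => len (v - w) ^ r :=
    (continuous_len.comp (continuous_const.sub continuous_id)).measurable.pow_const _
  have i1 : Integrable fun w => len (v - w) ^ r * (chi R w * bet C₀ (g w)) := by
    have h3 := freq_integrable hd (by linarith : -2 < r) h1 hg v
    refine h3.mono' (hlm.mul m1).aestronglyMeasurable (Eventually.of_forall fun w => ?_)
    have h4 : 0 ≤ len (v - w) ^ r := Real.rpow_nonneg (len_nonneg _) _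
    rw [Real.norm_of_nonneg (mul_nonneg h4 (p1 w)), mul_comm]
    exact mul_le_mul_of_nonneg_right (l1 w) h4
  have h5 := integral_add_compl hS i2
  have h6 : m / 4 ≤ ∫ w in {w : Vec d | |w e - v e| < δ}ᶜ, chi R₂ w * bet C₂ (g w) := by linarith
  rw [← hc, ← Real.mul_rpow hc0.le (jb_pos v).le]
  have hK : 0 ≤ (c * jb v) ^ r := Real.rpow_nonneg (mul_nonneg hc0.le (jb_pos v).le) _
  calc (c * jb v) ^ r * (m / 4)
      ≤ (c * jb v) ^ r * ∫ w in {w : Vec d | |w e - v e| < δ}ᶜ, chi R₂ w * bet C₂ (g w) :=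
        mul_le_mul_of_nonneg_left h6 hK
    _ = ∫ w in {w : Vec d | |w e - v e| < δ}ᶜ, (c * jb v) ^ r * (chi R₂ w * bet C₂ (g w)) :=
        (integral_const_mul _ _).symm
    _ ≤ ∫ w in {w : Vec d | |w e - v e| < δ}ᶜ, len (v - w) ^ r * (chi R w * bet C₀ (g w)) := by
        refine setIntegral_mono_on (i2.integrableOn.const_mul _) i1.integrableOn hS.compl
          fun w hw => ?_
        have hw' : δ ≤ |w e - v e| := not_lt.1 hw
        rcases le_or_gt (jb w) (2 * R₂) with h7 | h7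
        · have h8 := HomB_len hR₂ hδ h7 hw'
          rw [← hc] at h8
          have h9 : chi R₂ w * bet C₂ (g w) ≤ chi R w * bet C₀ (g w) :=
            mul_le_mul (HomB_chi (by linarith) hR w) (HomB_bet hC₂ hC (hg0 w))
              (bet_nonneg hC₂ (hg0 w)) (chi_nonneg _ _)
          exact mul_le_mul (Real.rpow_le_rpow (mul_nonneg hc0.le (jb_pos v).le) h8 h0) h9 (p2 w)
            (Real.rpow_nonneg (len_nonneg _) _)
        · rw [z2 w h7, mul_zero]
          exact mul_nonneg (Real.rpow_nonneg (len_nonneg _) _) (p1 w)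
    _ ≤ ∫ w, len (v - w) ^ r * (chi R w * bet C₀ (g w)) :=
        setIntegral_le_integral i1 (Eventually.of_forall fun w =>
          mul_nonneg (Real.rpow_nonneg (len_nonneg _) _) (p1 w))

/-- upper bound of the gain from the unbounded part -/
private lemma HomB_gain {a : ℝ} (ha : -1 ≤ a) (ha0 : a < 0) {g : Vec d → ℝ} (hg : Nice g)
    (hg0 : ∀ u, 0 ≤ g u) {R C₀ ε : ℝ} (hR : 1 ≤ R) (hC : 0 < C₀) (e : Fin d) (v : Vec d)
    (hs : ∫ w, (g w - chi R w * bet C₀ (g w)) * jb w ≤ ε) :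
    ∫ w, (v e - w e) * PhS e a v w * (g w - chi R w * bet C₀ (g w)) ≤ 2 * jb v ^ (1 + a) * ε := by
  obtain ⟨m1, p1, l1, c1, z1⟩ := HomB_g1 hg hg0 hR hC
  have jv : 0 ≤ 2 * jb v ^ (1 + a) := mul_nonneg zero_le_two (Real.rpow_nonneg (jb_pos v).le _)
  have hPG : PG fun v : Vec d => jb v := by
    have h := PG_jb (d := d) (r := 1)
    simpa using h
  have i0 : Integrable fun w => g w * jb w :=
    (hg.rd.mul_PG hPG).integrable (hg.cont.mul jb_cont).aestronglyMeasurable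
  have i1 : Integrable fun w => (g w - chi R w * bet C₀ (g w)) * jb w := by
    refine i0.mono' ((hg.cont.measurable.sub m1).mul jb_cont.measurable).aestronglyMeasurable
      (Eventually.of_forall fun w => ?_)
    have h2 : 0 ≤ g w - chi R w * bet C₀ (g w) := by linarith [l1 w]
    have h3 : g w - chi R w * bet C₀ (g w) ≤ g w := by linarith [p1 w]
    rw [Real.norm_of_nonneg (mul_nonneg h2 (jb_pos w).le)]
    exact mul_le_mul_of_nonneg_right h3 (jb_pos w).le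
  calc ∫ w, (v e - w e) * PhS e a v w * (g w - chi R w * bet C₀ (g w))
      ≤ ∫ w, 2 * jb v ^ (1 + a) * ((g w - chi R w * bet C₀ (g w)) * jb w) := by
        refine integral_mono_of_nonneg (Eventually.of_forall fun w => ?_) (i1.const_mul _)
          (Eventually.of_forall fun w => ?_)
        · exact mul_nonneg (Pool.Agent.H82.DG.VPhS_nonneg e a v w) (by linarith [l1 w])
        · have h2 : 0 ≤ g w - chi R w * bet C₀ (g w) := by linarith [l1 w]
          have h3 := (Pool.Agent.H82.DG.VPhS_le_len e a v w).trans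
            (HomB_up (by linarith : 0 ≤ 1 + a) (by linarith) v w)
          calc (v e - w e) * PhS e a v w * (g w - chi R w * bet C₀ (g w))
              ≤ 2 * jb v ^ (1 + a) * jb w * (g w - chi R w * bet C₀ (g w)) :=
                mul_le_mul_of_nonneg_right h3 h2
            _ = _ := by ring
    _ = 2 * jb v ^ (1 + a) * ∫ w, (g w - chi R w * bet C₀ (g w)) * jb w := integral_const_mul _ _
    _ ≤ 2 * jb v ^ (1 + a) * ε := mul_le_mul_of_nonneg_left hs jv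

/-- the collision operator is not positive at a high touching point -/
private theorem HomB_slice {a C Ca cb : ℝ} (HL : HypL d (1 + a) s b C Ca cb) (ha : -1 ≤ a) (ha0 : a < 0)
    (hs1 : 2 * s < 1) {p : ℕ} (hp : (d : ℝ) + (1 + a) + 4 ≤ 2 * p) (e : Fin d) (M : ℝ) {m₀ : ℝ}
    (hm : 0 < m₀) :
    ∃ N₁ : ℝ, 0 < N₁ ∧ ∀ F G : Vec d → Vec d → ℝ, FS e F G → GB M F → m₀ ≤ ∫ p, F p.2 p.1 ∂(nu d) →
      (∀ x y v, F x v = F y v) → (∀ x, Nice (F x)) → ∀ x v, N₁ ≤ F x v * (1 + nsq v) ^ p →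
      (∀ u, F x u * (1 + nsq u) ^ p ≤ F x v * (1 + nsq v) ^ p) → boltzQ (1 + a) b (F x) v ≤ 0 := by
  obtain ⟨K₀, κ, δ₁, hK₀, hκ, hδ₁, hδ₁1, hop⟩ := Pool.Agent.H85.DG.op_d HL ha ha0 hs1 hp e
  obtain ⟨R₂, C₂, hR₂, hC₂, hmass⟩ := Pool.Agent.H48.PV.mass_gb (d := d) M hm
  obtain ⟨δ, hδ, hslab⟩ := Pool.Agent.H48.PV.slab_gb (d := d) M hR₂ (show (0 : ℝ) < m₀ / 4 by positivity)
  have hR₂0 : 0 < R₂ := by linarith
  have hC₂0 : 0 < C₂ := by linarith
  obtain ⟨c, hc⟩ : ∃ c : ℝ, c = min (1 / 2) (δ / (4 * R₂)) ^ (1 + a) := ⟨_, rfl⟩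
  have hc0 : 0 < c := by
    rw [hc]
    exact Real.rpow_pos_of_pos (lt_min (by norm_num) (by positivity)) _
  obtain ⟨ε, hε, hεd⟩ : ∃ ε : ℝ, 0 < ε ∧ K₀ * (2 * ε) ≤ κ * (c * (m₀ / 4)) := by
    refine ⟨κ * (c * (m₀ / 4)) / (2 * K₀ + 1), by positivity, ?_⟩
    have h1 : K₀ * (2 * (κ * (c * (m₀ / 4)) / (2 * K₀ + 1))) =
        (2 * K₀ / (2 * K₀ + 1)) * (κ * (c * (m₀ / 4))) := by ring
    have h2 : 2 * K₀ / (2 * K₀ + 1) ≤ 1 := (div_le_one (by linarith)).2 (by linarith)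
    rw [h1]
    have h3 : 0 ≤ κ * (c * (m₀ / 4)) := by positivity
    nlinarith
  obtain ⟨R₀, hR₀, hgb⟩ := Pool.Agent.H48.PG.gb_small (d := d) (a := 0) M le_rfl zero_lt_one hε
  obtain ⟨C₁, hC₁, hgb⟩ := hgb (max R₀ R₂) (le_max_left _ _)
  have hgb := hgb (max C₁ C₂) (le_max_left _ _)
  have hR1 : 1 ≤ max R₀ R₂ := hR₀.trans (le_max_left _ _)
  have hC0 : 0 < max C₁ C₂ := lt_of_lt_of_le hC₂0 (le_max_right _ _)
  obtain ⟨N₁, hN₁, hop⟩ := hop (max C₁ C₂) (2 * max R₀ R₂) hC0 (by linarith)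
  refine ⟨N₁, hN₁, fun F G hF hG hmF hom hN x v hhigh htch => ?_⟩
  have hg := hN x
  have hg0 : ∀ u, 0 ≤ F x u := fun u => hF.nonneg x u
  obtain ⟨m1, p1, l1, c1, z1⟩ := HomB_g1 hg hg0 hR1 hC0
  have hT : TouchS δ₁ 1 p (F x) v := by
    refine ⟨fun _ => 0, measurable_const, fun u => ?_, fun u => ?_, fun m _ k hk => ?_⟩
    · simpa using htch u
    · simpa using hδ₁.le
    · simp only [mul_zero, integral_zero]
      exact mul_nonneg hδ₁.le (integral_nonneg fun σ => mul_nonneg (hk.nonneg _) (mm_nonneg _ _ _))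
  have h1 := hop (F x) (fun u => chi (max R₀ R₂) u * bet (max C₁ C₂) (F x u)) hg hg0 m1 p1 l1 c1 z1 v
    hT hhigh
  -- the gain
  have e1 : ∫ w, (F x w - chi (max R₀ R₂) w * bet (max C₁ C₂) (F x w)) * jb w ≤ ε := by
    have h2 := hgb e F G hF hG
    rw [← HomB_nu]
    refine le_trans (le_of_eq ?_) h2
    refine integral_congr_ae (Eventually.of_forall fun q => ?_)
    simp only [add_zero, Real.rpow_one]
    unfold Pool.Agent.H48.PV.gb
    rw [hom q.2 x]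
  have h3 := HomB_gain ha ha0 hg hg0 hR1 hC0 e v e1
  -- the loss
  have e2 : m₀ / 2 ≤ ∫ w, chi R₂ w * bet C₂ (F x w) := by
    refine (hmass e F G hF hG hmF).trans (le_of_eq ?_)
    rw [← HomB_nu]
    refine integral_congr_ae (Eventually.of_forall fun q => ?_)
    simp only
    unfold Pool.Agent.H48.PV.gb
    rw [hom q.2 x]
  have hS : MeasurableSet {w : Vec d | |w e - v e| < δ} := by
    have h3 : Continuous fun w : Vec d => |w e - v e| := by fun_prop
    have h4 : Measurable fun w : Vec d => |w e - v e| := h3.measurable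
    exact h4 measurableSet_Iio
  have e3 : ∫ w in {w : Vec d | |w e - v e| < δ}, chi R₂ w * bet C₂ (F x w) ≤ m₀ / 4 := by
    refine le_trans (le_of_eq ?_) (hslab C₂ hC₂0 e F G hF hG (v e))
    rw [← HomB_nuS _ hS]
    refine integral_congr_ae (Eventually.of_forall fun q => ?_)
    simp only
    unfold Pool.Agent.H48.PV.gb
    rw [hom q.2 x]
  have h4 := HomB_low (by linarith : 0 ≤ 1 + a) (by linarith) HL.H.hd hg hg0 hR₂ hC₂0
    (le_max_right R₀ R₂) (le_max_right C₁ C₂) hδ e v e2 e3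
  rw [← hc] at h4
  refine h1.trans (mul_nonpos_of_nonneg_of_nonpos (hg0 v) ?_)
  have jv : 0 ≤ jb v ^ (1 + a) := Real.rpow_nonneg (jb_pos v).le _
  have h5 := mul_le_mul_of_nonneg_left h3 hK₀
  have h6 := mul_le_mul_of_nonneg_left h4 hκ.le
  have h7 := mul_le_mul_of_nonneg_right hεd jv
  nlinarith

/-- the mass is positive -/
private lemma HomB_mass {F₀ : Vec d → Vec d → ℝ} (hom : ∀ x y v, F₀ x v = F₀ y v) (x : Vec d) :
    ∫ q, F₀ q.2 q.1 ∂(nu d) = ∫ v, F₀ x v := by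
  rw [← HomB_nu]
  refine integral_congr_ae (Eventually.of_forall fun q => ?_)
  simp only
  rw [hom q.2 x]

private lemma HomB_dec {F₀ : Vec d → Vec d → ℝ} (hF : Slice F₀) (p : ℕ) :
    ∃ A : ℝ, ∀ x v, F₀ x v * (1 + nsq v) ^ p ≤ A := by
  obtain ⟨C, hC⟩ := hF.decay (2 * p)
  refine ⟨((d : ℝ) + 1) ^ p * C, fun x v => ?_⟩
  have h1 := one_add_sq_le v
  have h2 : 0 ≤ 1 + nsq v := by linarith [sq_nonneg' v]
  calc F₀ x v * (1 + nsq v) ^ p ≤ F₀ x v * (((d : ℝ) + 1) * (1 + ‖v‖) ^ 2) ^ p :=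
        mul_le_mul_of_nonneg_left (pow_le_pow_left₀ h2 h1 p) (hF.nonneg x v)
    _ = ((d : ℝ) + 1) ^ p * ((1 + ‖v‖) ^ (2 * p) * F₀ x v) := by rw [mul_pow, ← pow_mul]; ring
    _ ≤ _ := mul_le_mul_of_nonneg_left (hC x v) (by positivity)

end Aux

theorem hom_sup (hd : 2 ≤ d) (hs : 0 < s) (h0 : 0 ≤ γ) (h1 : γ < 1) (hs1 : 2 * s < 1)
    (hb : IsKernel d s b) {F₀ : Vec d → Vec d → ℝ} (hF : Slice F₀) (hom : ∀ x y v, F₀ x v = F₀ y v)
    (hpos : ∀ x, 0 < ∫ v, F₀ x v) {p : ℕ} (hp : (d : ℝ) + γ + 4 ≤ 2 * p) :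
    ∃ A : ℝ, ∀ (T : ℝ) (f : ℝ → Vec d → Vec d → ℝ), IsBoltzmannSol γ b T f →
      (∀ t ∈ Ico 0 T, ∀ x y v, f t x v = f t y v) → f 0 = F₀ →
      ∀ t ∈ Ico 0 T, ∀ x v, f t x v * (1 + nsq v) ^ p ≤ A := by
  obtain ⟨a, rfl⟩ : ∃ a : ℝ, γ = 1 + a := ⟨γ - 1, by ring⟩
  have ha : -1 ≤ a := by linarith
  have ha0 : a < 0 := by linarith
  obtain ⟨C, Ca, cb, HL⟩ := exists_hypL (γ := 1 + a) hd hs (by linarith) (by linarith) (by linarith) hb
  obtain ⟨e, -⟩ : ∃ e : Fin d, e = ⟨0, by omega⟩ := ⟨_, rfl⟩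
  obtain ⟨m₀, hm₀⟩ : ∃ m₀ : ℝ, m₀ = ∫ q, F₀ q.2 q.1 ∂(nu d) := ⟨_, rfl⟩
  have hm : 0 < m₀ := by
    rw [hm₀, HomB_mass hom 0]
    exact hpos 0
  obtain ⟨M, hM⟩ : ∃ M : ℝ, GB M F₀ :=
    ⟨max (∫ q, F₀ q.2 q.1 ∂(nu d)) (max (∫ q, F₀ q.2 q.1 * nsq q.1 ∂(nu d))
      (∫ q, F₀ q.2 q.1 * Real.log (F₀ q.2 q.1) ∂(nu d))),
      ⟨le_max_left _ _, (le_max_left _ _).trans (le_max_right _ _),
        (le_max_right _ _).trans (le_max_right _ _)⟩⟩
  obtain ⟨N₁, hN₁, hsl⟩ := HomB_slice HL ha ha0 hs1 hp e M hm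
  obtain ⟨A, hA⟩ := HomB_dec hF p
  refine ⟨max N₁ A, fun T f hf hh hf0 => ?_⟩
  have hf' : IsClassicalSol T (fun t x => boltzQ (1 + a) b (f t x)) f := hf
  have hpl : Planar e T f := fun t ht x y v _ => hh t ht x y v
  have hI := boltz_HasInvariants HL.H hf
  have h3 := Pool.Agent.H48.PI.max_high (E := fun _ _ _ => 0) (DE := fun _ _ _ => 0) (m := fun _ => 0) (A₁ := N₁) hf' p
    (by
      have : ContinuousOn (fun _ : ℝ × Vec d × Vec d => (0 : ℝ)) (Ico 0 T ×ˢ univ) := continuousOn_const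
      exact this)
    (fun _ _ _ _ _ => rfl) (fun T₁ _ => ⟨0, fun t _ x v => by simp⟩)
    (fun t _ x v => hasDerivAt_const _ _) integrableOn_zero (fun _ _ => le_rfl)
    (fun t ht x v h1 h2 => by
      simp only [neg_zero, Real.exp_zero, mul_one] at h1 h2
      have ht' : t ∈ Ico 0 T := ⟨ht.1.le, ht.2⟩
      have h4 := hsl (f t) _ (fs_of hf hpl ht) (glob_bounds HL.H hf (by rw [hf0]; exact hM) ht')
        (by rw [Pool.Agent.H15.AV.mass_const (Q := boltzQ (1 + a) b) hf hI ht', hf0, hm₀])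
        (hh t ht') (fun x => IsClassicalSol.nice hf' ht x) x v h1 h2
      simpa using h4)
    (le_max_left N₁ A)
    (fun x v => by
      simp only [neg_zero, Real.exp_zero, mul_one]
      rw [hf0]
      exact (hA x v).trans (le_max_right _ _))
  intro t ht x v
  simpa using h3 t ht x v

theorem hom_of (hd : 2 ≤ d) (hs : 0 < s) (h0 : 0 ≤ γ) (hs1 : 2 * s < 1) (h2 : γ + 2 * s ≤ 2)
    (hb : IsKernel d s b) {ν : Vec d} {F₀ : Vec d → Vec d → ℝ} (hF : PlaneData s ν F₀)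
    (hom : ∀ x y v, F₀ x v = F₀ y v) {T : ℝ} {f : ℝ → Vec d → Vec d → ℝ} (hf : IsBoltzmannSol γ b T f)
    (hf0 : f 0 = F₀) : ∀ t ∈ Ico 0 T, ∀ x y v, f t x v = f t y v := by
  obtain ⟨C, Ca, cb, HL⟩ := exists_hypL hd hs (by linarith) (by linarith) h2 hb
  have hP : ∀ i : Fin d, PlaneSym (Pi.single i 1) T f := fun i =>
    sym_of_hol HL h0 hs1 hf (by
      rw [hf0]
      exact ⟨fun x y v _ => hom x y v, hF.2.1, hF.2.2⟩)
  have hdot : ∀ (i : Fin d) (x : Vec d), dot (Pi.single i 1) x = x i := fun i x => by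
    unfold dot
    rw [Finset.sum_eq_single i]
    · simp
    · intro j _ hj
      rw [Pi.single_eq_of_ne hj, zero_mul]
    · intro h
      exact absurd (Finset.mem_univ i) h
  intro t ht x y v
  obtain ⟨i, hi⟩ : ∃ i : Fin d, i = ⟨0, by omega⟩ := ⟨_, rfl⟩
  obtain ⟨j, hj⟩ : ∃ j : Fin d, j = ⟨1, by omega⟩ := ⟨_, rfl⟩
  have hij : i ≠ j := by
    rw [hi, hj]
    intro h
    have := congrArg Fin.val h
    simp at this
  have h3 : f t x v = f t (Function.update y i (x i)) v :=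
    hP i t ht x _ v (by rw [hdot, hdot, Function.update_self])
  have h4 : f t (Function.update y i (x i)) v = f t y v :=
    hP j t ht _ y v (by rw [hdot, hdot, Function.update_of_ne hij.symm])
  rw [h3, h4]

theorem hom_UB (hd : 2 ≤ d) (hs : 0 < s) (h0 : 0 ≤ γ) (h1 : γ < 1) (hs1 : 2 * s < 1)
    (hb : IsKernel d s b) {ν : Vec d} {F₀ : Vec d → Vec d → ℝ} (hF : PlaneData s ν F₀)
    (hom : ∀ x y v, F₀ x v = F₀ y v) (hS : Slice F₀) : UB d γ b (PlaneSym ν) F₀ := by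
  have key : ∀ N : ℕ, ∃ A : ℝ, ∀ (T : ℝ) (f : ℝ → Vec d → Vec d → ℝ), IsBoltzmannSol γ b T f →
      (∀ t ∈ Ico 0 T, ∀ x y v, f t x v = f t y v) → f 0 = F₀ →
      ∀ t ∈ Ico 0 T, ∀ x v, f t x v * (1 + nsq v) ^ (N + d + 3) ≤ A := fun N =>
    hom_sup hd hs h0 h1 hs1 hb hS hom hF.2.1 (by
      push_cast
      have h3 : (0 : ℝ) ≤ N := Nat.cast_nonneg _
      have h4 : (0 : ℝ) ≤ d := Nat.cast_nonneg _
      linarith)
  choose A hA using key
  refine ⟨fun N => 2 ^ N * A N, ∫ v, F₀ 0 v, hF.2.1 0, fun T f hf hf0 => ?_⟩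
  have hh := hom_of hd hs h0 hs1 (by linarith) hb hF hom hf hf0
  obtain ⟨C, Ca, cb, HL⟩ := exists_hypL hd hs (by linarith) (by linarith) (by linarith) hb
  have hI := boltz_HasInvariants HL.H hf
  refine ⟨fun t ht x y v _ => hh t ht x y v, fun t ht x => ⟨fun N v => ?_, ?_⟩⟩
  · have h3 := hA N T f hf hh hf0 t ht x v
    have h4 : 0 ≤ f t x v := hf.nonneg t ht x v
    have hn := norm_nonneg v
    have h5 : 1 + ‖v‖ ≤ 2 * (1 + nsq v) := by
      have := norm_sq_le_sq v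
      nlinarith [sq_nonneg (‖v‖ - 1)]
    have h6 : 1 ≤ 1 + nsq v := by linarith [sq_nonneg' v]
    calc (1 + ‖v‖) ^ N * f t x v ≤ (2 * (1 + nsq v)) ^ N * f t x v :=
          mul_le_mul_of_nonneg_right (pow_le_pow_left₀ (by linarith) h5 N) h4
      _ = 2 ^ N * (f t x v * (1 + nsq v) ^ N) := by rw [mul_pow]; ring
      _ ≤ 2 ^ N * (f t x v * (1 + nsq v) ^ (N + d + 3)) := by
          refine mul_le_mul_of_nonneg_left (mul_le_mul_of_nonneg_left ?_ h4) (by positivity)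
          exact pow_le_pow_right₀ h6 (by omega)
      _ ≤ 2 ^ N * A N := mul_le_mul_of_nonneg_left h3 (by positivity)
  · rw [← HomB_mass hom 0, ← HomB_mass (hh t ht) x,
      Pool.Agent.H15.AV.mass_const (Q := boltzQ γ b) hf hI ht, hf0]

end Pool.Agent.H48.CV
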