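import Pool.Agent.H48.CV.DirG
import Pool.Agent.H48.CV.ThmH
import Pool.Agent.H48.CV.HomB
import Pool.Agent.H37.LT.Fin
import Pool.Agent.H71.SM.Fin0
import Pool.Agent.H85.DG.LastD
import Pool.Agent.H48.PR.DatF

/-!
# Module AllG: THEOREM G assembled
-/

set_option autoImplicit false

open MeasureTheory Set Filter Topology Pool.Agent.H25.Kin Pool.Agent.H48.PL Pool.Agent.H48.PD Pool.Agent.H25.PN
open Pool.Agent.H82.BK Pool.Agent.H82.CM Pool.Agent.H48.PR Pool.Agent.H93.CM Pool.Agent.H48.NE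
open Pool.Agent.H15.AV (Slice sol_slice)

namespace Pool.Agent.H48.CV

variable {d : ℕ} {s γ : ℝ} {b : ℝ → ℝ}

/-- the two blocks -/
theorem blocks (hd : 2 ≤ d) (hs : 0 < s) (h0 : 0 ≤ γ) (hs1 : 2 * s < 1) (h2 : γ + 2 * s < 2) :
    ∀ b : ℝ → ℝ, IsKernel d s b → ∀ e : Fin d, L1T d γ b e ∧ SupS d γ b e := by
  intro b hb e
  refine ⟨fun Cl m hm a k u ε hε => ?_, fun Cl m hm a k ha hk u p η hη => ?_⟩
  · exact Pool.Agent.H37.LT.l1_time' hd hs (by linarith) h0 h2.le hb e Cl hm a k u hε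
  · exact Pool.Agent.H71.SM.sup_smooth0 hd hs h0 hs1 h2 hb e Cl hm ha hk u p hη

/-- `γ ≥ 1`: all plane symmetric data -/
theorem ub_ge (hd : 2 ≤ d) (hs : 0 < s) (h1 : 1 ≤ γ) (h2 : γ + 2 * s < 2) (hb : IsKernel d s b)
    {ν : Vec d} (hν : ν ≠ 0) {F₀ : Vec d → Vec d → ℝ} (hF : PlaneData s ν F₀) :
    UB d γ b (PlaneSym ν) F₀ := by
  obtain ⟨⟨U, M₁, hU⟩, h4⟩ := (Pool.Agent.H48.PG.est_holB hd hs h1 h2 hb hν).1 F₀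
  obtain ⟨m₀, hm₀, M₀, hM⟩ := h4 hF.2.1
  refine ⟨U, m₀, hm₀, fun T f hf hf0 => ?_⟩
  have hc : PlaneData s ν (f 0) := by rw [hf0]; exact hF
  exact ⟨Pool.Agent.H48.PG.sym_geB hd hs h1 h2 hb hf (Or.inr hc), fun t ht x =>
    ⟨(hU T f hf (Or.inr hc) hf0 t ht x).1, (hM T f hf (Or.inr hc) hf0 t ht x).1⟩⟩

/-- `0 ≤ γ < 1`: dilute plane symmetric data -/
theorem ub_dil (hd : 2 ≤ d) (hs : 0 < s) (h0 : 0 ≤ γ) (h1 : γ < 1) (hs1 : 2 * s < 1)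
    (hb : IsKernel d s b) {ν : Vec d} (hν : ν ≠ 0) {p : ℕ} (hp : (d : ℝ) + γ + 4 ≤ 2 * p) (α : ℝ) :
    ∃ M > 0, ∀ F₀ : Vec d → Vec d → ℝ, (∫ x in Icc (0 : Vec d) 1, ∫ v, F₀ x v) ≤ M →
      (∀ x v, F₀ x v * (1 + nsq v) ^ p ≤ α * ∫ x in Icc (0 : Vec d) 1, ∫ v, F₀ x v) →
      PlaneData s ν F₀ → UB d γ b (PlaneSym ν) F₀ := by
  obtain ⟨M, hM, E, -⟩ := Pool.Agent.H85.DG.dil_all hd hs h0 h1 hs1 hb hν p hp α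
  obtain ⟨C, Ca, cb, HL⟩ := exists_hypL hd hs (by linarith) (by linarith : 0 ≤ γ + 2 * s)
    (by linarith) hb
  refine ⟨M, hM, fun F₀ hm hα hF => ?_⟩
  obtain ⟨⟨U, M₁, hU⟩, h4⟩ := E F₀ hm hα
  obtain ⟨m₀, hm₀, M₀, hM⟩ := h4 hF.2.1
  refine ⟨U, m₀, hm₀, fun T f hf hf0 => ?_⟩
  have hc : PlaneData s ν (f 0) := by rw [hf0]; exact hF
  exact ⟨sym_of_hol HL h0 hs1 hf hc, fun t ht x =>
    ⟨(hU T f hf (Or.inr hc) hf0 t ht x).1, (hM T f hf (Or.inr hc) hf0 t ht x).1⟩⟩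

/-- THEOREM G for all data with time independent bounds of the solutions -/
theorem glob (hd : 2 ≤ d) (hs : 0 < s) (hγ : 0 < γ) (hs1 : 2 * s < 1) (h2 : γ + 2 * s < 2)
    (hb : IsKernel d s b) {ν : Vec d} (hν : ν ≠ 0) {F₀ : Vec d → Vec d → ℝ} (hF : PlaneData s ν F₀)
    (hS : Slice F₀) (hU : UB d γ b (PlaneSym ν) F₀) :
    ∃ (a k : ℝ) (u : Vec d), EqM a k u F₀ ∧
      (∀ (p : ℕ) (η : ℝ), 0 < η → ∃ L : ℝ, ∀ (T : ℝ) (f : ℝ → Vec d → Vec d → ℝ),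
        IsBoltzmannSol γ b T f → f 0 = F₀ → ∀ t ∈ Ico L T, ∀ x v, |f t x v - mx a k u v| ≤ η * Wp p v) ∧
      ∀ η > 0, ∃ Ts : ℝ, ∀ T₁ > Ts, ∀ g : ℝ → Vec d → Vec d → ℝ,
        IsBoltzmannSol γ b T₁ g → g 0 = F₀ → ∀ B : ℕ → ℝ, ∃ ε > 0, ∃ m₀ > 0, ∃ (M₀ : ℝ) (U : ℕ → ℝ),
        ∀ (T : ℝ) (f : ℝ → Vec d → Vec d → ℝ), IsBoltzmannSol γ b T f →
          (∀ (N : ℕ) (x v : Vec d), (1 + ‖v‖) ^ N * f 0 x v ≤ B N) → (∀ x v, |f 0 x v - F₀ x v| ≤ ε) →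
          ∀ t ∈ Ico 0 T, ∀ x, HydroBounds m₀ M₀ M₀ M₀ (f t x) ∧
            (∀ (N : ℕ) (v : Vec d), (1 + ‖v‖) ^ N * f t x v ≤ U N) ∧
            (t < T₁ → ∀ v, |f t x v - g t x v| ≤ η) ∧
            (Ts ≤ t → ∀ v, |f t x v - mx a k u v| ≤ η) := by
  have hUP : UBP d γ b (PlaneSym ν) F₀ := by
    obtain ⟨U, m₀, hm₀, h⟩ := hU
    exact ⟨U, m₀, hm₀, fun T f hf _ hf0 => (h T f hf hf0).2⟩
  obtain ⟨a, k, u, hE, hc⟩ := conv_dirG hd hs hγ.le hs1 h2.le (blocks hd hs hγ.le hs1 h2) hb hν hS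
    hF.2.1 hF.1 hUP
  refine ⟨a, k, u, hE, fun p η hη => ?_, fun η hη => ?_⟩
  · obtain ⟨L, hL⟩ := hc p η hη
    obtain ⟨U, m₀, hm₀, h⟩ := hU
    exact ⟨L, fun T f hf hf0 => hL T f hf (h T f hf hf0).1 hf0⟩
  · exact thmG_gen hd hs hγ hs1 h2.le hb hF hU hE.ha hE.hk hc hη

end Pool.Agent.H48.CV
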