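import Pool.Agent.H48.CV.Defs
import Pool.Agent.H15.AV.Defs

/-!
# Convergence to the Maxwellian: the statement (MP_c15324_an)
-/

set_option autoImplicit false

open MeasureTheory Set Filter Topology Pool.Agent.H25.Kin Pool.Agent.H48.PL Pool.Agent.H48.PD
open Pool.Agent.H82.BK Pool.Agent.H82.CM Pool.Agent.H48.PR Pool.Agent.H48.NE

namespace Pool.Agent.H48.CV

variable {d : ℕ}

/-- all classical solutions with the initial value `F₀` and the symmetry `P` converge to the Maxwellian with the mass, momentum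
and energy of `F₀`, uniformly with all polynomial weights and with a rate that depends on `F₀` only -/
def ConvP (d : ℕ) (γ : ℝ) (b : ℝ → ℝ) (P : ℝ → (ℝ → Vec d → Vec d → ℝ) → Prop)
    (F₀ : Vec d → Vec d → ℝ) : Prop :=
  ∃ (a k : ℝ) (u : Vec d), EqM a k u F₀ ∧ ∀ (p : ℕ) (η : ℝ), 0 < η → ∃ L : ℝ,
    ∀ (T : ℝ) (f : ℝ → Vec d → Vec d → ℝ), IsBoltzmannSol γ b T f → P T f → f 0 = F₀ →
      ∀ t ∈ Ico L T, ∀ x v, |f t x v - mx a k u v| ≤ η * Wp p v

theorem ConvP.mono {γ : ℝ} {b : ℝ → ℝ} {P P' : ℝ → (ℝ → Vec d → Vec d → ℝ) → Prop}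
    {F₀ : Vec d → Vec d → ℝ} (h : ConvP d γ b P F₀)
    (hP : ∀ T f, IsBoltzmannSol γ b T f → P' T f → P T f) : ConvP d γ b P' F₀ := by
  obtain ⟨a, k, u, h1, h2⟩ := h
  refine ⟨a, k, u, h1, fun p η hη => ?_⟩
  obtain ⟨L, hL⟩ := h2 p η hη
  exact ⟨L, fun T f hf hp => hL T f hf (hP T f hf hp)⟩

end Pool.Agent.H48.CV
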