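import Pool.Agent.H48.CV.Iface
import Pool.Agent.H48.CV.HsD

/-!
# Module Crd: convergence to the Maxwellian, coordinate directions

If `EqM a k u (f 0)` then `0 < a`, `0 < k`. `ε` from `sup_smooth` (with `p`, `η`); `M = Cl`-bound of the mass (or `M = ∫ mx` by `EqM.mass` and conservation of mass, `mass_const`), `K` of `re_l1`, `η₁ ≤ ε` with `K √η₁ ≤ ε`; `ε₁` of `re_small` with `η₁`, `B = Cl`; `L₁` of `l1_time` with `ε₁`. `L = L₁ + 1`. For `t ∈ [L₁+1, T)`: there is `r ∈ [1, L₁]` with `∫ |f r - mx| ≤ ε₁`, so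
`RE (f r) ≤ η₁` (`PB.dec`), `RE (f τ) ≤ η₁` for `τ ∈ [r,T)` (`re_mono`), `∫ |f τ - mx| ≤ K √η₁ ≤ ε`, `Hs (f (t-1)) - Hs (f t) ≤ RE (f (t-1)) ≤ η₁ ≤ ε` (`hs_drop`); `sup_smooth` with `t₀ = t - 1 ≥ L₁ ≥ 1`: but it needs `t₀ + 1 < T`: yes, `t < T`. The constants `a, k, u` are fixed; if `a ≤ 0` or `k ≤ 0` the statement is empty (`EqM`).
`conv_crd`: `F₀` given. `est_ge`-type bounds for `Planar e`: `PG/CrdB`, `PG/FinB` (`EstB d γ b (Planar e)`: see how `est_ge` is proved from the coordinate directions, or use `est_ge` with `ν = Pi.single e 1` and `Planar e T f → PlaneSym (Pi.single e 1) T f`): first clause: decay constants `U`, second clause (`hm`): `HydroBounds m₀ ..`: `PB γ b U m₀ e T f` for all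
solutions with `f 0 = F₀`. `eqm_exists` (`0 < ∫ F₀ dν`: Fubini and `hm`), then `conv_coord` for each `p, η`. -/

set_option autoImplicit false

open MeasureTheory Set Filter Topology Pool.Agent.H25.Kin Pool.Agent.H48.PL Pool.Agent.H48.PD
open Pool.Agent.H82.BK Pool.Agent.H82.CM Pool.Agent.H48.PR Pool.Agent.H48.NE
open Pool.Agent.H15.AV (Slice sol_slice)

namespace Pool.Agent.H48.CV

variable {d : ℕ}

theorem conv_coord {s γ : ℝ} (hd : 2 ≤ d) (hs : 0 < s) (h1 : 1 ≤ γ) (h2 : γ + 2 * s < 2) {b : ℝ → ℝ}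
    (hb : IsKernel d s b) (e : Fin d) (Cl : ℕ → ℝ) {m : ℝ} (hm : 0 < m) (a k : ℝ) (u : Vec d) (p : ℕ)
    {η : ℝ} (hη : 0 < η) : ∃ L : ℝ, ∀ (T : ℝ) (f : ℝ → Vec d → Vec d → ℝ), PB γ b Cl m e T f →
      EqM a k u (f 0) → ∀ t ∈ Ico L T, ∀ x v, |f t x v - mx a k u v| ≤ η * Wp p v := by
  by_cases hak : 0 < a ∧ 0 < k
  swap
  · exact ⟨0, fun T f _ hE => absurd ⟨hE.ha, hE.hk⟩ hak⟩
  obtain ⟨ha, hk⟩ := hak
  obtain ⟨C, Ca, cb, HL⟩ := exists_hypL hd hs (by linarith : s < 1) (by linarith : 0 ≤ γ + 2 * s)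
    h2.le hb
  obtain ⟨ε, hε, hsup⟩ := sup_smooth hd hs h1 h2 hb e Cl hm ha hk u p hη
  obtain ⟨K, hK, hre⟩ := re_l1 ha hk u (∫ v, mx a k u v)
  obtain ⟨η₁, hη₁, hη₁e, hη₁K⟩ : ∃ η₁ : ℝ, 0 < η₁ ∧ η₁ ≤ ε ∧ K * Real.sqrt η₁ ≤ ε := by
    refine ⟨min ε ((ε / (K + 1)) ^ 2), lt_min hε (by positivity), min_le_left _ _, ?_⟩
    have k1 : Real.sqrt (min ε ((ε / (K + 1)) ^ 2)) ≤ ε / (K + 1) :=
      (Real.sqrt_le_sqrt (min_le_right _ _)).trans
        (le_of_eq (Real.sqrt_sq (by positivity : 0 ≤ ε / (K + 1))))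
    calc K * Real.sqrt (min ε ((ε / (K + 1)) ^ 2)) ≤ K * (ε / (K + 1)) :=
          mul_le_mul_of_nonneg_left k1 hK
      _ = ε * (K / (K + 1)) := by ring
      _ ≤ ε * 1 := mul_le_mul_of_nonneg_left ((div_le_one (by linarith)).2 (by linarith)) hε.le
      _ = ε := mul_one ε
  obtain ⟨ε₁, hε₁, hsm⟩ := re_small ha hk u Cl hη₁
  obtain ⟨L₁, hL₁, hl⟩ := l1_time hd hs h1 h2 hb e Cl hm a k u hε₁
  refine ⟨L₁ + 1, fun T f hP hE t ht x v => ?_⟩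
  obtain ⟨r, hr, hr1⟩ := hl T f hP hE (by linarith [ht.1, ht.2])
  have hLt := ht.1
  have hrT : r < T := by linarith [hr.2, ht.1, ht.2]
  have hr0 : 0 ≤ r := by linarith [hr.1]
  have hRE : ∀ τ, r ≤ τ → τ < T → RE a k u (f τ) ≤ η₁ := fun τ h3 h4 =>
    (re_mono HL ha hk u hP.sol hr0 h3 h4).trans
      (hsm (f r) (sol_slice hP.sol ⟨hr0, hrT⟩) (hP.dec r ⟨hr0, hrT⟩) hr1)
  have hI := boltz_HasInvariants HL.H hP.sol
  have hL1 : ∀ τ, r ≤ τ → τ < T → ∫ q, |f τ q.2 q.1 - mx a k u q.1| ∂(nu d) ≤ ε := by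
    intro τ h3 h4
    have hτ : τ ∈ Ico 0 T := ⟨hr0.trans h3, h4⟩
    have h5 := Pool.Agent.H15.AV.mass_const (Q := boltzQ γ b) hP.sol hI hτ
    have h6 := hre (f τ) (sol_slice hP.sol hτ) (by rw [h5, hE.mass])
    refine h6.trans (le_trans ?_ hη₁K)
    exact mul_le_mul_of_nonneg_left (Real.sqrt_le_sqrt (hRE τ h3 h4)) hK
  have hrt : r ≤ t - 1 := by linarith [hr.2]
  have ht1 : t - 1 < T := by linarith [ht.2]
  have hdrop := hs_drop HL ha hk u hP.sol (hr0.trans hrt) (by linarith : t - 1 ≤ t) ht.2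
  have h7 := hsup T f hP (t - 1) (by linarith) (by linarith [ht.2])
    (by
      rw [sub_add_cancel]
      exact hdrop.trans ((hRE (t - 1) hrt ht1).trans hη₁e))
    (fun τ hτ => hL1 τ (hrt.trans hτ.1) (by linarith [hτ.2, ht.2])) x v
  rwa [sub_add_cancel] at h7

end Pool.Agent.H48.CV
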