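import Pool.Agent.H48.CV.Crd
import Pool.Agent.H48.CV.EqmE
import Pool.Agent.H48.PG.FinB

/-!
# Module CrdE: all data, coordinate directions

`est_ge` (PG/FinB) with `ν = Pi.single e 1` (`dot (Pi.single e 1) x = x e`): for all solutions with `Planar e T f` (so `PlaneSym ν T f`), `f 0 = F₀`: first clause: decay constants `U` on `[0,T)`; second clause (`hm`): mass density `≥ m₀`: `PB γ b U m₀ e T f`. `eqm_exists` (`0 < ∫ F₀ dν`: Fubini, the density is continuous and positive), then `conv_coord` for each `p, η`. -/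

set_option autoImplicit false

open MeasureTheory Set Filter Topology Pool.Agent.H25.Kin Pool.Agent.H48.PL Pool.Agent.H48.PD
open Pool.Agent.H82.BK Pool.Agent.H82.CM Pool.Agent.H48.PR Pool.Agent.H48.NE
open Pool.Agent.H15.AV (Slice sol_slice)

namespace Pool.Agent.H48.CV

variable {d : ℕ}

private lemma CrdE_mass {F₀ : Vec d → Vec d → ℝ} (hF : Slice F₀)
    (hm : ∀ x, 0 < ∫ v, F₀ x v) : 0 < ∫ q, F₀ q.2 q.1 ∂(nu d) := by
  have hms : Measurable fun q : Vec d × Vec d => F₀ q.2 q.1 :=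
    (hF.cont.comp (continuous_snd.prodMk continuous_fst)).measurable
  obtain ⟨C, hC⟩ := hF.decay (d + 1)
  have hint : Integrable (fun q : Vec d × Vec d => F₀ q.2 q.1) (nu d) := by
    refine integrable_nu (C := C) hms.aestronglyMeasurable fun q => ?_
    rw [abs_of_nonneg (hF.nonneg _ _)]
    unfold wt
    rw [← div_eq_mul_inv, le_div_iff₀ (by positivity), mul_comm]
    exact hC q.2 q.1
  have h1 : ∫ x, (∫ v, F₀ x v) ∂(muD d) = ∫ q, F₀ q.2 q.1 ∂(nu d) :=
    (integral_prod_symm _ hint).symm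
  rw [← h1]
  have h2 : Integrable (fun x => ∫ v, F₀ x v) (muD d) := hint.integral_prod_right
  rw [integral_pos_iff_support_of_nonneg (fun x => (hm x).le) h2]
  have h3 : Function.support (fun x => ∫ v, F₀ x v) = Set.univ := by
    ext x
    simp only [Function.mem_support, Set.mem_univ, iff_true]
    exact (hm x).ne'
  rw [h3]
  unfold muD
  rw [Measure.restrict_apply_univ]
  have h4 : (volume : Measure (Vec d)) (Icc (0 : Vec d) 1) = 1 := by
    rw [Real.volume_Icc_pi]
    simp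
  rw [h4]
  exact one_pos

theorem conv_crd {s γ : ℝ} (hd : 2 ≤ d) (hs : 0 < s) (h1 : 1 ≤ γ) (h2 : γ + 2 * s < 2) {b : ℝ → ℝ}
    (hb : IsKernel d s b) (e : Fin d) {F₀ : Vec d → Vec d → ℝ} (hF : Slice F₀)
    (hm : ∀ x, 0 < ∫ v, F₀ x v) : ConvP d γ b (Planar e) F₀ := by
  have hν : (Pi.single e 1 : Vec d) ≠ 0 := by
    intro h
    have := congrFun h e
    simp at this
  have hdot : ∀ x : Vec d, dot (Pi.single e 1) x = x e := by
    intro x
    unfold dot
    rw [Finset.sum_eq_single e]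
    · simp
    · intro i _ hi
      simp [Pi.single_apply, hi]
    · intro h
      exact absurd (Finset.mem_univ e) h
  obtain ⟨hE1, -⟩ := Pool.Agent.H48.PG.est_ge hd hs h1 h2 hb hν
  obtain ⟨⟨U, M₀, hU⟩, h3⟩ := hE1 F₀
  obtain ⟨m₀, hm₀, M₁, hH⟩ := h3 hm
  have hps : ∀ (T : ℝ) (f : ℝ → Vec d → Vec d → ℝ), Planar e T f →
      Pool.Agent.H25.PN.PlaneSym (Pi.single e 1) T f := by
    intro T f hp t ht x y v hxy
    rw [hdot, hdot] at hxy
    exact hp t ht x y v hxy
  have hPB : ∀ (T : ℝ) (f : ℝ → Vec d → Vec d → ℝ), IsBoltzmannSol γ b T f → Planar e T f →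
      f 0 = F₀ → PB γ b U m₀ e T f := by
    intro T f hf hp h0
    refine ⟨hf, hp, fun t ht N x v => (hU T f hf (hps T f hp) h0 t ht x).1 N v, fun t ht x => ?_⟩
    exact (hH T f hf (hps T f hp) h0 t ht x).1
  obtain ⟨a, k, u, hEq⟩ := eqm_exists (by omega) hF (CrdE_mass hF hm)
  refine ⟨a, k, u, hEq, fun p η hη => ?_⟩
  obtain ⟨L, hL⟩ := conv_coord hd hs h1 h2 hb e U hm₀ a k u p hη
  refine ⟨L, fun T f hf hp h0 t ht x v => ?_⟩
  refine hL T f (hPB T f hf hp h0) ?_ t ht x v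
  rw [h0]
  exact hEq

end Pool.Agent.H48.CV
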