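import Pool.Agent.H48.CV.CrdE
import Pool.Agent.H48.PG.DirB

/-!
# Module Dir: all directions

As `dirb_prim`, `est_allB` of PG/DirB.lean. `dir_cases hν`. (1) Dense case: `conv_crd` for `e = ⟨0,_⟩`, `ConvP.mono` with `dense_planar`. (2) `ν = c • k`, `Prim k`, `exists_rot`: `Rot e lam k A`. `G₀ = pull e lam k A F₀` is a `Slice` (nonneg, continuity, decay by `norm_rot`; periodicity: `F₀` depends on `dot k x` only and is periodic, `Prim.one`; see `cube_main` in H25/PN/Cube)
with positive density (`int_rot`). `conv_crd` for the kernel `fun z => lam⁻¹ * b z` (`kernel_scale`) and `G₀`: `(a, κ, w)`, `EqM a κ w G₀`. Claim with `(a, κ, A w)`: `mx a κ w (A v) = mx a κ (A w) v` since `A v - w = A (v - A w)` (`Rot.inv`, linearity) and `nsq (A z) = nsq z`. For a solution `f` with `PlaneSym k`: `g = pullT e lam k A f` is a solution (`sol_pull`, as in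
`dirb_prim`), `g 0 = G₀`, `f t x v = g (lam t) (Pi.single e (dot k x)) (A v)` (`back_eq`), `Wp p (A v) = Wp p v`; `L_f = L_g/lam`. `EqM a κ (A w) F₀`: `∫ D(x) dx` over the cube for `D(x) = ∫ F₀ x v φ(v) dv`, `φ = 1, v_i, nsq`: `cube_gen` (H25/PN/CubeG): `∫ D = ∫_y D((y_e/lam²) k)`, `∫ F₀(.., v) φ(v) dv = ∫ G₀ y v φ(A v) dv` (`int_rot`),
`φ(A v) = 1`, `(A v)_i = Σ_j A_ij v_j` (`A (Pi.single j 1) i = A_ij`), `nsq v`; then `EqM a κ w G₀` and back: `∫ mx a κ w v (A v)_i dv = ∫ mx a κ w (A v) v_i dv = ∫ mx a κ (A w) v v_i dv`. `nu d` integrals are iterated integrals (`integral_prod`, Fubini). -/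

set_option autoImplicit false

open MeasureTheory Set Filter Topology Pool.Agent.H25.Kin Pool.Agent.H48.PL Pool.Agent.H48.PD
open Pool.Agent.H82.BK Pool.Agent.H82.CM Pool.Agent.H48.PR Pool.Agent.H48.NE Pool.Agent.H25.PN
open Pool.Agent.H15.AV (Slice sol_slice)

namespace Pool.Agent.H48.CV

variable {d : ℕ}

private lemma dir_ci {G : Vec d → Vec d → ℝ} (hc : Continuous fun q : Vec d × Vec d => G q.1 q.2)
    {C : ℝ} (hb : ∀ x v, |G x v| ≤ C * wt d v) : Continuous fun x : Vec d => ∫ v, G x v := by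
  have h2 := Pool.Agent.H15.AV.cont_int (I := (univ : Set ℝ)) (G := fun _ x v => G x v)
    (by
      have h3 : Continuous fun q : ℝ × Vec d × Vec d => G q.2.1 q.2.2 := hc.comp continuous_snd
      exact h3.continuousOn)
    fun t _ => ⟨univ, univ_mem, C, fun s _ x v => hb x v⟩
  rw [univ_prod_univ] at h2
  have h4 := continuousOn_univ.1 h2
  have h5 : Continuous fun x : Vec d => ((0 : ℝ), x) := by fun_prop
  exact h4.comp h5

private lemma dir_it {G : Vec d → Vec d → ℝ} (hc : Continuous fun q : Vec d × Vec d => G q.1 q.2)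
    {C : ℝ} (hb : ∀ x v, |G x v| ≤ C * wt d v) :
    ∫ q, G q.2 q.1 ∂(nu d) = ∫ x in Icc (0 : Vec d) 1, ∫ v, G x v := by
  have hc2 : Continuous fun q : Vec d × Vec d => G q.2 q.1 := hc.comp continuous_swap
  have hi : Integrable (fun q : Vec d × Vec d => G q.2 q.1) (nu d) :=
    integrable_nu hc2.aestronglyMeasurable fun q => hb q.2 q.1
  unfold nu at hi ⊢
  rw [integral_prod_symm _ hi]
  rfl

private lemma dir_wt {e : Fin d} {lam : ℝ} {k : Vec d} {A : Vec d →ₗ[ℝ] Vec d} (h : Rot e lam k A)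
    (v : Vec d) : wt d (A v) ≤ (d + 1 : ℝ) ^ (d + 1) * wt d v := by
  have h1 : (1 + ‖v‖) ^ (d + 1) ≤ (d + 1 : ℝ) ^ (d + 1) * (1 + ‖A v‖) ^ (d + 1) := by
    rw [← mul_pow]
    exact pow_le_pow_left₀ (w_pos v).le (norm_rot h v) _
  have hw := pow_pos (w_pos v) (d + 1)
  have hw2 := pow_pos (w_pos (A v)) (d + 1)
  unfold wt
  rw [← div_eq_mul_inv, le_div_iff₀ hw, inv_mul_eq_div, div_le_iff₀ hw2]
  exact h1

private lemma dir_cube {e : Fin d} {lam : ℝ} {k : Vec d} {A : Vec d →ₗ[ℝ] Vec d}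
    (h : Rot e lam k A) (hk : Prim k) {G : Vec d → Vec d → ℝ}
    (hc : Continuous fun q : Vec d × Vec d => G q.1 q.2) {C : ℝ}
    (hb : ∀ x v, |G x v| ≤ C * wt d v) (hper : ∀ x v i, G (x + Pi.single i 1) v = G x v)
    (hsym : ∀ x y v, dot k x = dot k y → G x v = G y v) :
    ∫ q, G ((q.2 e / lam ^ 2) • k) (A q.1) ∂(nu d) = ∫ q, G q.2 q.1 ∂(nu d) := by
  have hA : Continuous A := A.continuous_of_finiteDimensional
  have hC0 : 0 ≤ C * wt d 0 := (abs_nonneg _).trans (hb 0 0)
  have hC : 0 ≤ C := by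
    have hw : 0 < wt d (0 : Vec d) := by unfold wt; positivity
    exact nonneg_of_mul_nonneg_left hC0 hw
  have hc2 : Continuous fun q : Vec d × Vec d => G ((q.1 e / lam ^ 2) • k) (A q.2) := by
    have h1 : Continuous fun q : Vec d × Vec d => (((q.1 e / lam ^ 2) • k : Vec d), A q.2) := by
      fun_prop
    exact hc.comp h1
  have hb2 : ∀ x v : Vec d, |G ((x e / lam ^ 2) • k) (A v)| ≤ (C * (d + 1 : ℝ) ^ (d + 1)) * wt d v :=
    fun x v => (hb _ _).trans (by
      rw [mul_assoc]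
      exact mul_le_mul_of_nonneg_left (dir_wt h v) hC)
  rw [dir_it (G := fun x v => G ((x e / lam ^ 2) • k) (A v)) hc2 hb2, dir_it hc hb]
  have h1 : ∀ x : Vec d, ∫ v, G ((x e / lam ^ 2) • k) (A v) = ∫ v, G ((x e / lam ^ 2) • k) v :=
    fun x => int_rot h (fun v => G ((x e / lam ^ 2) • k) v)
  simp only [h1]
  refine cube_gen h hk (D := fun x => ∫ v, G x v) (dir_ci hc hb).measurable
    ⟨∫ v, C * wt d v, fun x => ?_⟩ (fun x i => ?_) fun x y hxy => ?_
  · rw [← Real.norm_eq_abs]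
    exact norm_integral_le_of_norm_le ((integrable_wt (d := d)).const_mul C)
      (Eventually.of_forall fun v => hb x v)
  · exact integral_congr_ae (Eventually.of_forall fun v => hper x v i)
  · exact integral_congr_ae (Eventually.of_forall fun v => hsym x y v hxy)

private lemma dir_bd {F : Vec d → Vec d → ℝ} (hF : Slice F) {φ : Vec d → ℝ} (hφ : PG φ) :
    ∃ C, ∀ x v, |F x v * φ v| ≤ C * wt d v := by
  obtain ⟨N, c, hc0, hc⟩ := hφ.pos
  obtain ⟨C, hC⟩ := hF.decay (N + (d + 1))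
  refine ⟨c * C, fun x v => ?_⟩
  have hw := pow_pos (w_pos v) (d + 1)
  have h2 := hC x v
  have h3 := hc v
  rw [Real.norm_eq_abs] at h3
  unfold wt
  rw [← div_eq_mul_inv, le_div_iff₀ hw, abs_mul, abs_of_nonneg (hF.nonneg x v)]
  calc F x v * |φ v| * (1 + ‖v‖) ^ (d + 1)
      ≤ F x v * (c * (1 + ‖v‖) ^ N) * (1 + ‖v‖) ^ (d + 1) :=
        mul_le_mul_of_nonneg_right (mul_le_mul_of_nonneg_left h3 (hF.nonneg x v)) hw.le
    _ = c * ((1 + ‖v‖) ^ (N + (d + 1)) * F x v) := by rw [pow_add]; ring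
    _ ≤ c * C := mul_le_mul_of_nonneg_left h2 hc0

/-- the moments, for one weight -/
private lemma dir_mom {e : Fin d} {lam : ℝ} {k : Vec d} {A : Vec d →ₗ[ℝ] Vec d}
    (h : Rot e lam k A) (hk : Prim k) {F : Vec d → Vec d → ℝ} (hF : Slice F)
    (hsym : ∀ x y v, dot k x = dot k y → F x v = F y v) {φ : Vec d → ℝ} (hφ : PG φ)
    (hφc : Continuous φ) :
    ∫ q, F q.2 q.1 * φ q.1 ∂(nu d) = ∫ q, pull e lam k A F q.2 q.1 * φ (A q.1) ∂(nu d) := by
  obtain ⟨C, hC⟩ := dir_bd hF hφ
  exact (dir_cube h hk (G := fun x v => F x v * φ v)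
    (hF.cont.mul (hφc.comp continuous_snd)) hC (fun x v i => by rw [hF.per])
    (fun x y v hxy => by rw [hsym x y v hxy])).symm

theorem slice_pull {e : Fin d} {lam : ℝ} {k : Vec d} {A : Vec d →ₗ[ℝ] Vec d} (h : Rot e lam k A)
    (hk : Prim k) {F₀ : Vec d → Vec d → ℝ} (hF : Slice F₀)
    (hsym : ∀ x y v, dot k x = dot k y → F₀ x v = F₀ y v) : Slice (pull e lam k A F₀) := by
  refine ⟨fun x v => hF.nonneg _ _, ?_, ?_, ?_⟩
  · intro x v i
    unfold pull
    by_cases hi : i = e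
    · subst hi
      obtain ⟨n, hn⟩ := hk.one
      have h1 : (x + Pi.single i (1 : ℝ) : Vec d) i = x i + 1 := by
        rw [Pi.add_apply, Pi.single_eq_same]
      rw [h1]
      have h2 : dot k (((x i + 1) / lam ^ 2) • k) =
          dot k (((x i) / lam ^ 2) • k + fun j => (n j : ℝ)) := by
        rw [dotk_smul h, dot_add, dotk_smul h, hn]
      rw [hsym _ _ (A v) h2]
      exact int_shift (F := fun z => F₀ z (A v)) (fun z j => hF.per z (A v) j) n _
    · have h1 : (x + Pi.single i (1 : ℝ) : Vec d) e = x e := by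
        rw [Pi.add_apply, Pi.single_eq_of_ne (Ne.symm hi), add_zero]
      rw [h1]
  · have hA : Continuous A := A.continuous_of_finiteDimensional
    have h1 : Continuous fun q : Vec d × Vec d => (((q.1 e / lam ^ 2) • k : Vec d), A q.2) := by
      fun_prop
    exact hF.cont.comp h1
  · intro N
    obtain ⟨C, hC⟩ := hF.decay N
    refine ⟨((d : ℝ) + 1) ^ N * C, fun x v => ?_⟩
    have h0 : 0 ≤ pull e lam k A F₀ x v := hF.nonneg _ _
    have h2 : (1 + ‖v‖) ^ N ≤ ((d : ℝ) + 1) ^ N * (1 + ‖A v‖) ^ N := by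
      rw [← mul_pow]
      exact pow_le_pow_left₀ (w_pos v).le (norm_rot h v) N
    have h3 : (1 + ‖A v‖) ^ N * pull e lam k A F₀ x v ≤ C := hC _ _
    calc (1 + ‖v‖) ^ N * pull e lam k A F₀ x v
        ≤ ((d : ℝ) + 1) ^ N * (1 + ‖A v‖) ^ N * pull e lam k A F₀ x v :=
          mul_le_mul_of_nonneg_right h2 h0
      _ = ((d : ℝ) + 1) ^ N * ((1 + ‖A v‖) ^ N * pull e lam k A F₀ x v) := by ring
      _ ≤ _ := mul_le_mul_of_nonneg_left h3 (by positivity)

/-- the Maxwellian under the rotation -/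
private lemma dir_mx {e : Fin d} {lam : ℝ} {k : Vec d} {A : Vec d →ₗ[ℝ] Vec d} (h : Rot e lam k A)
    (a κ : ℝ) (w v : Vec d) : mx a κ (A w) v = mx a κ w (A v) := by
  have h1 : A (v - A w) = A v - w := by rw [map_sub, h.inv]
  have h2 := h.iso (v - A w)
  rw [h1] at h2
  unfold mx
  rw [h2]

private lemma dir_exp (A : Vec d →ₗ[ℝ] Vec d) (v : Vec d) (i : Fin d) :
    A v i = ∑ j, A (Pi.single j 1) i * v j := by
  have h1 : v = ∑ j, v j • (Pi.single j 1 : Vec d) := by
    ext i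
    simp [Finset.sum_apply, Pi.single_apply]
  conv_lhs => rw [h1]
  rw [map_sum, Finset.sum_apply]
  refine Finset.sum_congr rfl fun j _ => ?_
  rw [map_smul, Pi.smul_apply, smul_eq_mul, mul_comm]

/-- the moments of the pulled back slice -/
theorem eqm_pull {e : Fin d} {lam : ℝ} {k : Vec d} {A : Vec d →ₗ[ℝ] Vec d} (h : Rot e lam k A)
    (hk : Prim k) {F₀ : Vec d → Vec d → ℝ} (hF : Slice F₀)
    (hsym : ∀ x y v, dot k x = dot k y → F₀ x v = F₀ y v) {a κ : ℝ} {w : Vec d}
    (hE : EqM a κ w (pull e lam k A F₀)) : EqM a κ (A w) F₀ := by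
  have hG := slice_pull h hk hF hsym
  refine ⟨hE.ha, hE.hk, ?_, fun i => ?_, ?_⟩
  · have h1 := dir_mom h hk hF hsym (φ := fun _ => (1 : ℝ)) (PG.const 1) continuous_const
    simp only [mul_one] at h1
    rw [h1, hE.mass, ← int_rot h (fun v => mx a κ w v)]
    exact integral_congr_ae (Eventually.of_forall fun v => (dir_mx h a κ w v).symm)
  · have h1 := dir_mom h hk hF hsym (φ := fun v => v i) (PG.coord i) (continuous_apply i)
    rw [h1]
    have h2 : ∀ q : Vec d × Vec d, pull e lam k A F₀ q.2 q.1 * (A q.1) i =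
        ∑ j, A (Pi.single j 1) i * (pull e lam k A F₀ q.2 q.1 * q.1 j) := fun q => by
      rw [dir_exp A q.1 i, Finset.mul_sum]
      exact Finset.sum_congr rfl fun j _ => by ring
    have h3 : ∀ j : Fin d, Integrable
        (fun q : Vec d × Vec d => pull e lam k A F₀ q.2 q.1 * q.1 j) (nu d) := fun j => by
      obtain ⟨C, hC⟩ := dir_bd hG (φ := fun v => v j) (PG.coord j)
      have hc : Continuous fun q : Vec d × Vec d => pull e lam k A F₀ q.2 q.1 * q.1 j :=
        (hG.cont.comp continuous_swap).mul ((continuous_apply j).comp continuous_fst)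
      exact integrable_nu hc.aestronglyMeasurable fun q => hC q.2 q.1
    have h4 : ∀ j : Fin d, Integrable (fun v : Vec d => mx a κ w v * v j) := fun j => by
      have hn := mx_nice hE.ha hE.hk w
      exact (hn.rd.mul_PG (PG.coord j)).integrable
        (hn.cont.mul (continuous_apply j)).aestronglyMeasurable
    calc ∫ q, pull e lam k A F₀ q.2 q.1 * (A q.1) i ∂(nu d)
        = ∫ q, ∑ j, A (Pi.single j 1) i * (pull e lam k A F₀ q.2 q.1 * q.1 j) ∂(nu d) :=
          integral_congr_ae (Eventually.of_forall h2)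
      _ = ∑ j, A (Pi.single j 1) i * ∫ q, pull e lam k A F₀ q.2 q.1 * q.1 j ∂(nu d) := by
          rw [integral_finsetSum _ fun j _ => (h3 j).const_mul _]
          exact Finset.sum_congr rfl fun j _ => integral_const_mul _ _
      _ = ∑ j, A (Pi.single j 1) i * ∫ v, mx a κ w v * v j :=
          Finset.sum_congr rfl fun j _ => by rw [hE.mom j]
      _ = ∫ v, ∑ j, A (Pi.single j 1) i * (mx a κ w v * v j) := by
          rw [integral_finsetSum _ fun j _ => (h4 j).const_mul _]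
          exact Finset.sum_congr rfl fun j _ => (integral_const_mul _ _).symm
      _ = ∫ v, mx a κ w v * (A v) i :=
          integral_congr_ae (Eventually.of_forall fun v => by
            show ∑ j, A (Pi.single j 1) i * (mx a κ w v * v j) = mx a κ w v * (A v) i
            rw [dir_exp A v i, Finset.mul_sum]
            exact Finset.sum_congr rfl fun j _ => by ring)
      _ = ∫ v, mx a κ w (A v) * (A (A v)) i :=
          (int_rot h (fun v => mx a κ w v * (A v) i)).symm
      _ = ∫ v, mx a κ (A w) v * v i :=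
          integral_congr_ae (Eventually.of_forall fun v => by
            show mx a κ w (A v) * (A (A v)) i = mx a κ (A w) v * v i
            rw [h.inv, dir_mx h])
  · have h1 := dir_mom h hk hF hsym (φ := fun v => nsq v) PG.nsq continuous_sq
    simp only [h.iso] at h1
    rw [h1, hE.ene, ← int_rot h (fun v => mx a κ w v * nsq v)]
    exact integral_congr_ae (Eventually.of_forall fun v => by
      show mx a κ w (A v) * nsq (A v) = mx a κ (A w) v * nsq v
      rw [h.iso, dir_mx h])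

theorem conv_dir {s γ : ℝ} (hd : 2 ≤ d) (hs : 0 < s) (h1 : 1 ≤ γ) (h2 : γ + 2 * s < 2) {b : ℝ → ℝ}
    (hb : IsKernel d s b) {ν : Vec d} (hν : ν ≠ 0) {F₀ : Vec d → Vec d → ℝ} (hF : Slice F₀)
    (hm : ∀ x, 0 < ∫ v, F₀ x v) (hsym : ∀ x y v, dot ν x = dot ν y → F₀ x v = F₀ y v) :
    ConvP d γ b (PlaneSym ν) F₀ := by
  rcases dir_cases hν with hD | ⟨c, k, hc, hck, hk0, hk⟩
  · exact (conv_crd hd hs h1 h2 hb ⟨0, by omega⟩ hF hm).mono
      fun T f hf hP => dense_planar hν hD hf hP _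
  · obtain ⟨lam, A, h⟩ := exists_rot (⟨0, by omega⟩ : Fin d) hk0
    have hsk : ∀ x y v, dot k x = dot k y → F₀ x v = F₀ y v := fun x y v hxy =>
      hsym x y v (by rw [hck, smul_dot, smul_dot, hxy])
    have hG : Slice (pull ⟨0, by omega⟩ lam k A F₀) := slice_pull h hk hF hsk
    have hGm : ∀ x, 0 < ∫ v, pull ⟨0, by omega⟩ lam k A F₀ x v := fun x => by
      unfold pull
      rw [int_rot h (fun v => F₀ ((x _ / lam ^ 2) • k) v)]
      exact hm _
    obtain ⟨a, κ, w, hE, hcv⟩ :=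
      conv_crd hd hs h1 h2 (kernel_scale hb (inv_pos.2 h.pos)) ⟨0, by omega⟩ hG hGm
    refine ⟨a, κ, A w, eqm_pull h hk hF hsk hE, fun p η hη => ?_⟩
    obtain ⟨L, hL⟩ := hcv p η hη
    refine ⟨max (L / lam) 0, fun T f hf hP hf0 t ht x v => ?_⟩
    have hPk : PlaneSym k T f := fun t ht x y v hxy =>
      hP t ht x y v (by rw [hck, smul_dot, smul_dot, hxy])
    have ht' : t ∈ Ico 0 T := ⟨(le_max_right _ _).trans ht.1, ht.2⟩
    have hsol := sol_pull hd hs (by linarith) (by linarith) h2.le hb h hk hf hPk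
    have h3 := hL (lam * T) _ hsol (solA_planar f _) (by rw [pullT_zero, hf0]) (lam * t)
      ⟨by
        have := (le_max_left _ _).trans ht.1
        rwa [div_le_iff₀ h.pos, mul_comm] at this,
        mul_lt_mul_of_pos_left ht.2 h.pos⟩ (Pi.single ⟨0, by omega⟩ (dot k x)) (A v)
    rw [← back_eq h hPk ht' x v, ← dir_mx h] at h3
    have h4 : Wp p (A v) = Wp p v := by
      unfold Wp
      rw [h.iso]
    rwa [h4] at h3

end Pool.Agent.H48.CV
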