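import Pool.Agent.H48.CV.GenC
import Pool.Agent.H48.CV.Dir
import Pool.Agent.H48.PG.DirB

/-!
# Module DirG: convergence to the Maxwellian, all directions, general form

As `conv_dir` with the blocks P1, P2 and the bounds of the solutions as hypotheses. -/

set_option autoImplicit false

open MeasureTheory Set Filter Topology Pool.Agent.H25.Kin Pool.Agent.H48.PL Pool.Agent.H48.PD
open Pool.Agent.H82.BK Pool.Agent.H82.CM Pool.Agent.H48.PR Pool.Agent.H48.NE Pool.Agent.H25.PN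
open Pool.Agent.H15.AV (Slice sol_slice)

namespace Pool.Agent.H48.CV

variable {d : ℕ}

private lemma DirG_dec {e : Fin d} {lam : ℝ} {k : Vec d} {A : Vec d →ₗ[ℝ] Vec d} (h : Rot e lam k A)
    {r C : ℝ} {N : ℕ} {v : Vec d} (h8 : 0 ≤ r) (h7 : (1 + ‖A v‖) ^ N * r ≤ C) :
    (1 + ‖v‖) ^ N * r ≤ (d + 1 : ℝ) ^ N * C := by
  have h9 : (1 + ‖v‖) ^ N ≤ ((d + 1 : ℝ) * (1 + ‖A v‖)) ^ N :=
    pow_le_pow_left₀ (w_pos v).le (norm_rot h v) N
  calc (1 + ‖v‖) ^ N * r ≤ ((d + 1 : ℝ) * (1 + ‖A v‖)) ^ N * r := mul_le_mul_of_nonneg_right h9 h8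
    _ = (d + 1 : ℝ) ^ N * ((1 + ‖A v‖) ^ N * r) := by rw [mul_pow]; ring
    _ ≤ (d + 1 : ℝ) ^ N * C := mul_le_mul_of_nonneg_left h7 (by positivity)

private lemma DirG_mx {e : Fin d} {lam : ℝ} {k : Vec d} {A : Vec d →ₗ[ℝ] Vec d} (h : Rot e lam k A)
    (a κ : ℝ) (w v : Vec d) : mx a κ w (A v) = mx a κ (A w) v := by
  unfold mx
  have h1 : A v - w = A (v - A w) := by
    rw [map_sub, h.inv]
  rw [h1, h.iso]

private lemma DirG_prim {e : Fin d} {lam : ℝ} {k : Vec d} {A : Vec d →ₗ[ℝ] Vec d} {s γ : ℝ} (hd : 2 ≤ d)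
    (hs : 0 < s) (h0 : 0 ≤ γ) (hs1 : 2 * s < 1) (h2 : γ + 2 * s ≤ 2)
    (hP : ∀ b : ℝ → ℝ, IsKernel d s b → ∀ e : Fin d, L1T d γ b e ∧ SupS d γ b e) {b : ℝ → ℝ}
    (hb : IsKernel d s b) (hk : Prim k) (h : Rot e lam k A) {F₀ : Vec d → Vec d → ℝ} (hF : Slice F₀)
    (hm : ∀ x, 0 < ∫ v, F₀ x v) (hsym : ∀ x y v, dot k x = dot k y → F₀ x v = F₀ y v)
    (hU : UBP d γ b (PlaneSym k) F₀) : ConvP d γ b (PlaneSym k) F₀ := by
  obtain ⟨U, m₀, hm₀, hU⟩ := hU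
  have hb' : IsKernel d s (fun z => lam⁻¹ * b z) := kernel_scale hb (inv_pos.2 h.pos)
  obtain ⟨hP1, hP2⟩ := hP (fun z => lam⁻¹ * b z) hb' e
  have sol : ∀ {T : ℝ} {f : ℝ → Vec d → Vec d → ℝ}, IsBoltzmannSol γ b T f → PlaneSym k T f →
      IsBoltzmannSol γ (fun z => lam⁻¹ * b z) (lam * T) (pullT e lam k A f) := fun hf hP =>
    sol_pull hd hs (by linarith) (by linarith) h2 hb h hk hf hP
  have hG : ∀ x, 0 < ∫ v, pull e lam k A F₀ x v := fun x => by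
    unfold pull
    rw [int_rot h (fun v => F₀ ((x e / lam ^ 2) • k) v)]
    exact hm _
  obtain ⟨a, κ, w, hE, hc⟩ := conv_crdG hd hs h0 hs1 h2 hb' hP1 hP2
    (P := fun T g => Planar e T g ∧ ∃ (T' : ℝ) (f : ℝ → Vec d → Vec d → ℝ), T = lam * T' ∧
      IsBoltzmannSol γ b T' f ∧ PlaneSym k T' f ∧ f 0 = F₀ ∧ g = pullT e lam k A f)
    (fun T g hg => hg.1) (slice_pull h hk hF hsym) hG
    ⟨fun N => (d + 1 : ℝ) ^ N * U N, m₀, hm₀, by
      rintro T g - ⟨-, T', f, rfl, hf, hfP, hf0, rfl⟩ - t ht x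
      have ht' : t / lam ∈ Ico 0 T' := ⟨div_nonneg ht.1 h.pos.le, by
        rw [div_lt_iff₀ h.pos, mul_comm]
        exact ht.2⟩
      obtain ⟨h3, h4⟩ := hU T' f hf hfP hf0 (t / lam) ht' ((x e / lam ^ 2) • k)
      refine ⟨fun N v => ?_, ?_⟩
      · exact DirG_dec h (hf.nonneg (t / lam) ht' _ _) (h3 N (A v))
      · show m₀ ≤ ∫ v, f (t / lam) ((x e / lam ^ 2) • k) (A v)
        rw [int_rot h (fun v => f (t / lam) ((x e / lam ^ 2) • k) v)]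
        exact h4⟩
  refine ⟨a, κ, A w, eqm_pull h hk hF hsym hE, fun p η hη => ?_⟩
  obtain ⟨L, hL⟩ := hc p η hη
  refine ⟨max (L / lam) 0, fun T f hf hfP hf0 t ht x v => ?_⟩
  have htT : t ∈ Ico 0 T := ⟨(le_max_right _ _).trans ht.1, ht.2⟩
  have h5 := hL (lam * T) (pullT e lam k A f) (sol hf hfP) ⟨solA_planar f _, T, f, rfl, hf, hfP, hf0, rfl⟩
    (by rw [pullT_zero, hf0]) (lam * t) ⟨by
      have h6 := (le_max_left _ _).trans ht.1
      rw [div_le_iff₀ h.pos] at h6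
      rw [mul_comm]
      exact h6, (mem_lam h htT).2⟩ (Pi.single e (dot k x)) (A v)
  rw [← back_eq h hfP htT x v, DirG_mx h] at h5
  have h7 : Wp p (A v) = Wp p v := by
    unfold Wp
    rw [h.iso]
  rwa [h7] at h5

theorem conv_dirG {s γ : ℝ} (hd : 2 ≤ d) (hs : 0 < s) (h0 : 0 ≤ γ) (hs1 : 2 * s < 1)
    (h2 : γ + 2 * s ≤ 2) (hP : ∀ b : ℝ → ℝ, IsKernel d s b → ∀ e : Fin d, L1T d γ b e ∧ SupS d γ b e)
    {b : ℝ → ℝ} (hb : IsKernel d s b) {ν : Vec d} (hν : ν ≠ 0) {F₀ : Vec d → Vec d → ℝ} (hF : Slice F₀)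
    (hm : ∀ x, 0 < ∫ v, F₀ x v) (hsym : ∀ x y v, dot ν x = dot ν y → F₀ x v = F₀ y v)
    (hU : UBP d γ b (PlaneSym ν) F₀) : ConvP d γ b (PlaneSym ν) F₀ := by
  rcases dir_cases hν with hD | ⟨c, k, hc, hck, hk0, hk⟩
  · obtain ⟨hP1, hP2⟩ := hP b hb ⟨0, by omega⟩
    obtain ⟨U, m₀, hm₀, hU⟩ := hU
    have h3 := conv_crdG hd hs h0 hs1 h2 hb hP1 hP2
      (P := fun T f => IsBoltzmannSol γ b T f ∧ PlaneSym ν T f)
      (fun T f hf => dense_planar hν hD hf.1 hf.2 _) hF hm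
      ⟨U, m₀, hm₀, fun T f hf hp hf0 => hU T f hf hp.2 hf0⟩
    exact h3.mono fun T f hf hP => ⟨hf, hP⟩
  · obtain ⟨lam, A, h⟩ := exists_rot (⟨0, by omega⟩ : Fin d) hk0
    have hkν : ∀ x y : Vec d, dot k x = dot k y → dot ν x = dot ν y := fun x y hxy => by
      rw [hck, smul_dot, smul_dot, hxy]
    have hνk : ∀ x y : Vec d, dot ν x = dot ν y → dot k x = dot k y := fun x y hxy => by
      rw [hck, smul_dot, smul_dot] at hxy
      exact mul_left_cancel₀ hc hxy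
    have h3 := DirG_prim hd hs h0 hs1 h2 hP hb hk h hF hm
      (fun x y v hxy => hsym x y v (hkν x y hxy)) (by
        obtain ⟨U, m₀, hm₀, hU⟩ := hU
        exact ⟨U, m₀, hm₀, fun T f hf hp hf0 => hU T f hf
          (fun t ht x y v hxy => hp t ht x y v (hνk x y hxy)) hf0⟩)
    exact h3.mono fun T f _ hP t ht x y v hxy => hP t ht x y v (hkν x y hxy)

end Pool.Agent.H48.CV
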