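import Pool.Agent.H48.CV.AllG

/-!
# Module FinG: THEOREM G in plain form
-/

set_option autoImplicit false

open MeasureTheory Set Filter Topology Pool.Agent.H25.Kin Pool.Agent.H48.PL Pool.Agent.H48.PD Pool.Agent.H25.PN
open Pool.Agent.H82.BK Pool.Agent.H82.CM Pool.Agent.H48.PR Pool.Agent.H93.CM Pool.Agent.H48.NE
open Pool.Agent.H15.AV (Slice sol_slice)

namespace Pool.Agent.H48.CV

variable {d : ℕ} {s γ : ℝ} {b : ℝ → ℝ}

private lemma FinG_w (N : ℕ) (v : Vec d) {r η : ℝ} (hη : 0 ≤ η) (h : r ≤ η / 2 ^ N * Wp N v) :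
    (1 + ‖v‖) ^ N * r ≤ η := by
  have hn := norm_nonneg v
  have h1 : (1 + ‖v‖) ^ 2 ≤ 2 * (1 + nsq v) := by
    have := norm_sq_le_sq v
    nlinarith [sq_nonneg (1 - ‖v‖)]
  have h2 : (1 + ‖v‖) ^ N ≤ 2 ^ N * (1 + nsq v) ^ N := by
    calc (1 + ‖v‖) ^ N ≤ ((1 + ‖v‖) ^ 2) ^ N := by
          rw [← pow_mul]
          exact pow_le_pow_right₀ (by linarith) (by omega)
      _ ≤ (2 * (1 + nsq v)) ^ N := pow_le_pow_left₀ (by positivity) h1 N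
      _ = 2 ^ N * (1 + nsq v) ^ N := mul_pow _ _ _
  have hW := Wp_pos N v
  have h4 : (2 : ℝ) ^ N * (1 + nsq v) ^ N * (η / 2 ^ N * Wp N v) = η := by
    unfold Wp
    have h5 : (0 : ℝ) < (1 + nsq v) ^ N := by
      have := sq_nonneg' v
      positivity
    field_simp
  calc (1 + ‖v‖) ^ N * r ≤ (1 + ‖v‖) ^ N * (η / 2 ^ N * Wp N v) :=
        mul_le_mul_of_nonneg_left h (by positivity)
    _ ≤ 2 ^ N * (1 + nsq v) ^ N * (η / 2 ^ N * Wp N v) :=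
        mul_le_mul_of_nonneg_right h2 (by positivity)
    _ = η := h4

private lemma FinG_int {F : Vec d → Vec d → ℝ} (hF : Slice F) {φ : Vec d → ℝ} (hφ : Continuous φ)
    {C : ℝ} (hC : 0 ≤ C) (hle : ∀ v, |φ v| ≤ C * (1 + ‖v‖) ^ 2) :
    ∫ q, F q.2 q.1 * φ q.1 ∂(nu d) = ∫ x in Icc (0 : Vec d) 1, ∫ v, F x v * φ v := by
  obtain ⟨C₂, hC₂⟩ := hF.decay (d + 1 + 2)
  have hc : Continuous fun q : Vec d × Vec d => F q.2 q.1 * φ q.1 :=
    (hF.cont.comp (continuous_snd.prodMk continuous_fst)).mul (hφ.comp continuous_fst)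
  have hint : Integrable (fun q : Vec d × Vec d => F q.2 q.1 * φ q.1) (nu d) := by
    refine integrable_nu (C := C * C₂) hc.aestronglyMeasurable fun q => ?_
    have h1 := hC₂ q.2 q.1
    have h2 : 0 < (1 + ‖q.1‖) ^ (d + 1) := pow_pos (w_pos _) _
    rw [abs_mul, abs_of_nonneg (hF.nonneg _ _)]
    unfold wt
    rw [← div_eq_mul_inv, le_div_iff₀ h2]
    have h3 := hle q.1
    have h4 := hF.nonneg q.2 q.1
    calc F q.2 q.1 * |φ q.1| * (1 + ‖q.1‖) ^ (d + 1)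
        ≤ F q.2 q.1 * (C * (1 + ‖q.1‖) ^ 2) * (1 + ‖q.1‖) ^ (d + 1) :=
          mul_le_mul_of_nonneg_right (mul_le_mul_of_nonneg_left h3 h4) h2.le
      _ = C * ((1 + ‖q.1‖) ^ (d + 1 + 2) * F q.2 q.1) := by
          rw [pow_add]
          ring
      _ ≤ C * C₂ := mul_le_mul_of_nonneg_left h1 hC
  rw [Pool.Agent.H15.AV.nu_integral hint]
  rfl

/-- Hoelder continuous functions are continuous -/
theorem cont_of_hol {F : Vec d → Vec d → ℝ} {α A : ℝ} {k : ℕ} (hα : 0 < α)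
    (hA : ∀ x y v w : Vec d,
      |F x v - F y w| ≤ A * (1 + ‖v‖ + ‖w‖) ^ k * (‖x - y‖ + ‖v - w‖) ^ α) :
    Continuous fun q : Vec d × Vec d => F q.1 q.2 := by
  rw [continuous_iff_continuousAt]
  intro q
  rw [ContinuousAt, tendsto_iff_norm_sub_tendsto_zero]
  have h1 : Tendsto (fun r : Vec d × Vec d => |A| * (1 + ‖r.2‖ + ‖q.2‖) ^ k *
      (‖r.1 - q.1‖ + ‖r.2 - q.2‖) ^ α) (𝓝 q) (𝓝 (|A| * (1 + ‖q.2‖ + ‖q.2‖) ^ k *
      (‖q.1 - q.1‖ + ‖q.2 - q.2‖) ^ α)) := by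
    have hc : Continuous fun r : Vec d × Vec d => |A| * (1 + ‖r.2‖ + ‖q.2‖) ^ k *
        (‖r.1 - q.1‖ + ‖r.2 - q.2‖) ^ α := by
      refine Continuous.mul (by fun_prop) ?_
      exact Continuous.rpow_const (by fun_prop) fun r => Or.inr hα.le
    exact hc.tendsto q
  rw [sub_self, sub_self, norm_zero, add_zero, Real.zero_rpow hα.ne', mul_zero] at h1
  refine squeeze_zero (fun r => norm_nonneg _) (fun r => ?_) h1
  rw [Real.norm_eq_abs]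
  refine (hA r.1 q.1 r.2 q.2).trans ?_
  have h2 : 0 ≤ (1 + ‖r.2‖ + ‖q.2‖) ^ k * (‖r.1 - q.1‖ + ‖r.2 - q.2‖) ^ α := by positivity
  rw [mul_assoc, mul_assoc]
  exact mul_le_mul_of_nonneg_right (le_abs_self A) h2

/-- plain form of `glob` -/
theorem glob_plain (hd : 2 ≤ d) (hs : 0 < s) (hγ : 0 < γ) (hs1 : 2 * s < 1) (h2 : γ + 2 * s < 2)
    (hb : IsKernel d s b) {ν : Vec d} (hν : ν ≠ 0) {F₀ : Vec d → Vec d → ℝ} (hF : PlaneData s ν F₀)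
    (hS : Slice F₀) (hU : UB d γ b (PlaneSym ν) F₀) :
    ∃ (a k : ℝ) (u : Vec d), 0 < a ∧ 0 < k ∧
      (∫ x in Icc (0 : Vec d) 1, ∫ v, F₀ x v = ∫ v, a * Real.exp (-(k * nsq (v - u)))) ∧
      (∀ i, ∫ x in Icc (0 : Vec d) 1, ∫ v, F₀ x v * v i =
        ∫ v, a * Real.exp (-(k * nsq (v - u))) * v i) ∧
      (∫ x in Icc (0 : Vec d) 1, ∫ v, F₀ x v * nsq v =
        ∫ v, a * Real.exp (-(k * nsq (v - u))) * nsq v) ∧
      (∀ (N : ℕ), ∀ η > 0, ∃ L : ℝ, ∀ (T : ℝ) (f : ℝ → Vec d → Vec d → ℝ),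
        IsBoltzmannSol γ b T f → f 0 = F₀ → ∀ t ∈ Ico L T, ∀ x v,
          (1 + ‖v‖) ^ N * |f t x v - a * Real.exp (-(k * nsq (v - u)))| ≤ η) ∧
      ∀ η > 0, ∃ Ts : ℝ, ∀ (T₁ : ℝ) (g : ℝ → Vec d → Vec d → ℝ), IsBoltzmannSol γ b T₁ g → g 0 = F₀ →
        ∀ T₀ < T₁, ∀ B : ℕ → ℝ, ∃ ε > 0, ∃ m₀ > 0, ∃ (M₀ : ℝ) (U : ℕ → ℝ),
        ∀ (T : ℝ) (f : ℝ → Vec d → Vec d → ℝ), (T ≤ T₀ ∨ Ts < T₁) → IsBoltzmannSol γ b T f →
          (∀ (N : ℕ) (x v : Vec d), (1 + ‖v‖) ^ N * f 0 x v ≤ B N) → (∀ x v, |f 0 x v - F₀ x v| ≤ ε) →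
          ∀ t ∈ Ico 0 T, ∀ x, HydroBounds m₀ M₀ M₀ M₀ (f t x) ∧
            (∀ (N : ℕ) (v : Vec d), (1 + ‖v‖) ^ N * f t x v ≤ U N) ∧
            (t < T₁ → ∀ v, |f t x v - g t x v| ≤ η) ∧
            (Ts ≤ t → ∀ v, |f t x v - a * Real.exp (-(k * nsq (v - u)))| ≤ η) := by
  obtain ⟨a, k, u, hE, h3, h4⟩ := glob hd hs hγ hs1 h2 hb hν hF hS hU
  have e1 := FinG_int hS (φ := fun _ => 1) continuous_const (C := 1) zero_le_one fun v => by
    have := norm_nonneg v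
    rw [abs_one, one_mul]
    nlinarith
  have e2 := fun i => FinG_int hS (φ := fun v => v i) (continuous_apply i) (C := 1) zero_le_one fun v => by
    have h5 := norm_le_pi_norm v i
    rw [Real.norm_eq_abs] at h5
    have := norm_nonneg v
    nlinarith
  have e3 := FinG_int hS (φ := fun v => nsq v) continuous_sq (C := d) (Nat.cast_nonneg _) fun v => by
    rw [abs_of_nonneg (sq_nonneg' v)]
    have h5 := sq_le v
    have h6 := norm_nonneg v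
    have h7 : (0 : ℝ) ≤ d := Nat.cast_nonneg _
    nlinarith [mul_nonneg h7 h6]
  simp only [mul_one] at e1
  refine ⟨a, k, u, hE.ha, hE.hk, ?_, fun i => ?_, ?_, fun N η hη => ?_, fun η hη => ?_⟩
  · rw [← e1]
    exact hE.mass
  · rw [← e2 i]
    exact hE.mom i
  · rw [← e3]
    exact hE.ene
  · obtain ⟨L, hL⟩ := h3 N (η / 2 ^ N) (by positivity)
    exact ⟨L, fun T f hf hf0 t ht x v => FinG_w N v hη.le (hL T f hf hf0 t ht x v)⟩
  · obtain ⟨Ts, hTs⟩ := h4 η hη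
    refine ⟨Ts, fun T₁ g hg hg0 T₀ hT₀ B => ?_⟩
    rcases lt_or_ge Ts T₁ with hT | hT
    · obtain ⟨ε, hε, m₀, hm₀, M₀, U, h5⟩ := hTs T₁ hT g hg hg0 B
      exact ⟨ε, hε, m₀, hm₀, M₀, U, fun T f _ hf => h5 T f hf⟩
    · obtain ⟨U₀, m₁, hm₁, hU₀⟩ := hU
      have hPD : PlaneData s ν (g 0) := by rw [hg0]; exact hF
      obtain ⟨ε, hε, U, hst⟩ := stab_closeU hd hs hγ.le hs1 h2.le hb hT₀ hg hPD hm₁
        (fun t ht x => ((hU₀ T₁ g hg hg0).2 t ht x).2) B (le_refl (d + 10)) hη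
      obtain ⟨M₀, hM₀⟩ := Pool.Agent.H48.PI.hydro_of_U d U
      refine ⟨ε, hε, m₁ / 2, half_pos hm₁, M₀, U, fun T f hTT hf hfB hfε t ht x => ?_⟩
      have hT' : T ≤ T₀ := by
        rcases hTT with h | h
        · exact h
        · exact absurd h (not_lt.2 hT)
      have key := hst T hT' f hf hfB (by rw [hg0]; exact hfε)
      obtain ⟨g1, g2, g3⟩ := hM₀ T _ f hf (fun N t ht x v => (key t ht x).1 N v) t ht x
      refine ⟨⟨(key t ht x).2.1, g1, g2, g3⟩, (key t ht x).1, fun _ v => ?_, fun h => ?_⟩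
      · refine ((key t ht x).2.2 v).trans ?_
        exact mul_le_of_le_one_right hη.le (Wp_le_one _ v)
      · exact absurd (ht.2.trans_le hT') (not_lt.2 ((hT₀.le.trans hT).trans h))

end Pool.Agent.H48.CV
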