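import Pool.Agent.H48.CV.ThmV
import Pool.Agent.H48.PI.HydU

/-!
# Module FinV: THEOREM V in plain form
-/

set_option autoImplicit false

open MeasureTheory Set Filter Topology Pool.Agent.H25.Kin Pool.Agent.H48.PL Pool.Agent.H48.PR
open Pool.Agent.H82.BK
open Pool.Agent.H15.AV (Slice)
open Pool.Agent.H82.HF (SchT avT)

namespace Pool.Agent.H48.CV

variable {d : ℕ}

/-- Hoelder continuous functions of the velocity as homogeneous data -/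
theorem hom_data {F : Vec d → ℝ} {α A : ℝ} {k : ℕ} (hα : 0 < α) (hn : ∀ v, 0 ≤ F v)
    (hdec : ∀ N : ℕ, ∃ C, ∀ v, (1 + ‖v‖) ^ N * F v ≤ C)
    (hA : ∀ v w : Vec d, |F v - F w| ≤ A * (1 + ‖v‖ + ‖w‖) ^ k * ‖v - w‖ ^ α) :
    Slice (fun _ : Vec d => F) ∧ HolData α fun _ : Vec d => F := by
  refine ⟨⟨fun x v => hn v, fun x v i => rfl, ?_, fun N => ?_⟩, |A|, k, fun x y v w => ?_⟩
  · have hc : Continuous F := by
      rw [continuous_iff_continuousAt]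
      intro q
      rw [ContinuousAt, tendsto_iff_norm_sub_tendsto_zero]
      have h1 : Tendsto (fun r : Vec d => |A| * (1 + ‖r‖ + ‖q‖) ^ k * ‖r - q‖ ^ α) (𝓝 q)
          (𝓝 (|A| * (1 + ‖q‖ + ‖q‖) ^ k * ‖q - q‖ ^ α)) := by
        have hc : Continuous fun r : Vec d => |A| * (1 + ‖r‖ + ‖q‖) ^ k * ‖r - q‖ ^ α := by
          refine Continuous.mul (by fun_prop) ?_
          exact Continuous.rpow_const (by fun_prop) fun r => Or.inr hα.le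
        exact hc.tendsto q
      rw [sub_self, norm_zero, Real.zero_rpow hα.ne', mul_zero] at h1
      refine squeeze_zero (fun r => norm_nonneg _) (fun r => ?_) h1
      rw [Real.norm_eq_abs]
      refine (hA r q).trans ?_
      have h2 : 0 ≤ (1 + ‖r‖ + ‖q‖) ^ k * ‖r - q‖ ^ α := by positivity
      rw [mul_assoc, mul_assoc]
      exact mul_le_mul_of_nonneg_right (le_abs_self A) h2
    exact hc.comp continuous_snd
  · obtain ⟨C, hC⟩ := hdec N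
    exact ⟨C, fun x v => hC v⟩
  · refine (hA v w).trans ?_
    have h1 : (0 : ℝ) ≤ (1 + ‖v‖ + ‖w‖) ^ k := by positivity
    have h3 : ‖v - w‖ ^ α ≤ (‖x - y‖ + ‖v - w‖) ^ α :=
      Real.rpow_le_rpow (norm_nonneg _) (by linarith [norm_nonneg (x - y)]) hα.le
    exact mul_le_mul (mul_le_mul_of_nonneg_right (le_abs_self A) h1) h3
      (Real.rpow_nonneg (norm_nonneg _) _) (mul_nonneg (abs_nonneg _) h1)

/-- **dilute gases without symmetry** -/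
theorem dilute_plain {s γ : ℝ} (hd : 2 ≤ d) (hs : 0 < s) (h0 : 0 ≤ γ) (hs1 : 2 * s < 1)
    (h2 : γ + 2 * s < 2) {b : ℝ → ℝ} (hb : IsKernel d s b) {h : Vec d → Vec d → ℝ} (hh : SchT h)
    (hn : ∀ x v, 0 ≤ h x v) (hv : ∀ x, 0 < ∫ v, h x v) (B : ℕ → ℝ) :
    ∃ δ₀ > 0, ∃ ε > 0, ∃ (M₀ : ℝ) (U : ℕ → ℝ), ∀ δ ∈ Ioc (0 : ℝ) δ₀, ∃ m₀ > 0,
      ∀ (T : ℝ) (f : ℝ → Vec d → Vec d → ℝ), IsBoltzmannSol γ b T f →
      (∀ (N : ℕ) (x v : Vec d), (1 + ‖v‖) ^ N * f 0 x v ≤ δ * B N) →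
      (∀ x v, |f 0 x v - δ * h x v| ≤ δ * ε) →
      ∀ t ∈ Ico 0 T, ∀ x, HydroBounds m₀ M₀ M₀ M₀ (f t x) ∧
        ∀ (N : ℕ) (v : Vec d), (1 + ‖v‖) ^ N * f t x v ≤ δ * U N := by
  obtain ⟨δ₀, hδ₀, ε, hε, U, hU⟩ := dilute hd hs h0 hs1 h2 hb hh hn hv B
  obtain ⟨M₀, hM₀⟩ := Pool.Agent.H48.PI.hydro_of_U d (fun N => |U N|)
  refine ⟨min δ₀ 1, lt_min hδ₀ one_pos, ε, hε, M₀, U, fun δ hδ => ?_⟩
  have hδ0 : 0 < δ := hδ.1
  have hδ1 : δ ≤ 1 := hδ.2.trans (min_le_right _ _)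
  obtain ⟨m, hm, hr⟩ := hU δ ⟨hδ0, hδ.2.trans (min_le_left _ _)⟩
  refine ⟨δ * m, mul_pos hδ0 hm, fun T f hf hfB hfh => ?_⟩
  have hs1' : s < 1 := by linarith
  have hr' := Pool.Agent.H85.DG.amp_sol hd hs hs1' (by linarith) h2.le hb hδ0 hf
  have hi : ∀ x v, f 0 x v = δ * (δ⁻¹ * f 0 x v) := fun x v => by
    rw [mul_inv_cancel_left₀ hδ0.ne']
  have key := hr T _ hr' (fun N x v => by
      have h3 := hfB N x v
      rw [hi x v] at h3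
      have h4 : δ * ((1 + ‖v‖) ^ N * (δ⁻¹ * f 0 x v)) ≤ δ * B N := by
        calc δ * ((1 + ‖v‖) ^ N * (δ⁻¹ * f 0 x v)) = (1 + ‖v‖) ^ N * (δ * (δ⁻¹ * f 0 x v)) := by ring
          _ ≤ δ * B N := h3
      exact le_of_mul_le_mul_left h4 hδ0) (fun x v => by
      have h3 := hfh x v
      rw [hi x v, ← mul_sub, abs_mul, abs_of_pos hδ0] at h3
      exact le_of_mul_le_mul_left h3 hδ0)
  have hdec : ∀ (N : ℕ), ∀ t ∈ Ico 0 T, ∀ x v, (1 + ‖v‖) ^ N * f t x v ≤ δ * U N := by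
    intro N t ht x v
    have h3 := (key t ht x).1 N v
    have h4 := mul_le_mul_of_nonneg_left h3 hδ0.le
    calc (1 + ‖v‖) ^ N * f t x v = δ * ((1 + ‖v‖) ^ N * (δ⁻¹ * f t x v)) := by
          field_simp
      _ ≤ δ * U N := h4
  have hdec1 : ∀ (N : ℕ), ∀ t ∈ Ico 0 T, ∀ x v, (1 + ‖v‖) ^ N * f t x v ≤ |U N| := by
    intro N t ht x v
    have h3 := hdec N t ht x v
    have h4 : δ * U N ≤ δ * |U N| := mul_le_mul_of_nonneg_left (le_abs_self _) hδ0.le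
    have h5 : δ * |U N| ≤ 1 * |U N| := mul_le_mul_of_nonneg_right hδ1 (abs_nonneg _)
    linarith
  intro t ht x
  have hyd := hM₀ T _ f hf hdec1 t ht x
  have hmass : δ * m ≤ ∫ v, f t x v := by
    have h3 := (key t ht x).2
    rw [integral_const_mul] at h3
    have h4 := mul_le_mul_of_nonneg_left h3 hδ0.le
    rwa [mul_inv_cancel_left₀ hδ0.ne'] at h4
  exact ⟨⟨hmass, hyd.1, hyd.2.1, hyd.2.2⟩, fun N v => hdec N t ht x v⟩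

/-- **neighbourhoods of space homogeneous data** -/
theorem hom_plain {s γ : ℝ} (hd : 2 ≤ d) (hs : 0 < s) (h0 : 0 ≤ γ) (hs1 : 2 * s < 1)
    (h2 : γ + 2 * s < 2) {b : ℝ → ℝ} (hb : IsKernel d s b) {F : Vec d → ℝ}
    (hF : Slice (fun _ : Vec d => F)) (hm : 0 < ∫ v, F v)
    (hH : ∃ α : ℝ, 2 * s < α ∧ α ≤ 1 ∧ HolData α fun _ : Vec d => F) (B : ℕ → ℝ) :
    ∃ ε > 0, ∃ m₀ > 0, ∃ (M₀ : ℝ) (U : ℕ → ℝ),
      ∀ (T : ℝ) (f : ℝ → Vec d → Vec d → ℝ), IsBoltzmannSol γ b T f →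
      (∀ (N : ℕ) (x v : Vec d), (1 + ‖v‖) ^ N * f 0 x v ≤ B N) → (∀ x v, |f 0 x v - F v| ≤ ε) →
      ∀ t ∈ Ico 0 T, ∀ x, HydroBounds m₀ M₀ M₀ M₀ (f t x) ∧
        ∀ (N : ℕ) (v : Vec d), (1 + ‖v‖) ^ N * f t x v ≤ U N := by
  obtain ⟨ε, hε, U, m₁, hm₁, hg⟩ := Pool.Agent.H37.GH.g_hom hd hs h0 hs1 h2 hb hF hm hH B
  obtain ⟨M₀, hM₀⟩ := Pool.Agent.H48.PI.hydro_of_U d U
  refine ⟨ε, hε, m₁, hm₁, M₀, U, fun T f hf hfB hfF t ht x => ?_⟩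
  obtain ⟨k1, k2⟩ := hg T f hf hfB hfF t ht x
  have hyd := hM₀ T _ f hf (fun N t ht x v => (hg T f hf hfB hfF t ht x).1 N v) t ht x
  exact ⟨⟨k2, hyd.1, hyd.2.1, hyd.2.2⟩, k1⟩

end Pool.Agent.H48.CV
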