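import Pool.Agent.H48.CV.Defs

/-!
# Part P: the two blocks

P1 (`l1_time`): at some time before `L` the solution is close to its Maxwellian in `L¹(dx dv)`.
P2 (`sup_smooth`): smallness in `L¹(dx dv)` on `[t₀, t₀+1]` gives smallness in the sup norm at `t₀ + 1`.
-/

set_option autoImplicit false

open MeasureTheory Set Filter Topology Pool.Agent.H25.Kin Pool.Agent.H48.PL Pool.Agent.H48.PD
open Pool.Agent.H82.BK Pool.Agent.H82.CM Pool.Agent.H48.PR Pool.Agent.H48.NE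

namespace Pool.Agent.H48.CV

variable {d : ℕ}

/-- block P1 -/
theorem l1_time {s γ : ℝ} (hd : 2 ≤ d) (hs : 0 < s) (h1 : 1 ≤ γ) (h2 : γ + 2 * s < 2) {b : ℝ → ℝ}
    (hb : IsKernel d s b) (e : Fin d) (Cl : ℕ → ℝ) {m : ℝ} (hm : 0 < m) (a k : ℝ) (u : Vec d)
    {ε : ℝ} (hε : 0 < ε) : ∃ L : ℝ, 1 ≤ L ∧ ∀ (T : ℝ) (f : ℝ → Vec d → Vec d → ℝ),
      PB γ b Cl m e T f → EqM a k u (f 0) → L < T →
      ∃ t ∈ Icc 1 L, ∫ q, |f t q.2 q.1 - mx a k u q.1| ∂(nu d) ≤ ε := by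
  sorry

/-- block P2 -/
theorem sup_smooth {s γ : ℝ} (hd : 2 ≤ d) (hs : 0 < s) (h1 : 1 ≤ γ) (h2 : γ + 2 * s < 2) {b : ℝ → ℝ}
    (hb : IsKernel d s b) (e : Fin d) (Cl : ℕ → ℝ) {m : ℝ} (hm : 0 < m) {a k : ℝ} (ha : 0 < a)
    (hk : 0 < k) (u : Vec d) (p : ℕ) {η : ℝ} (hη : 0 < η) :
    ∃ ε > 0, ∀ (T : ℝ) (f : ℝ → Vec d → Vec d → ℝ), PB γ b Cl m e T f → ∀ t₀ : ℝ, 1 ≤ t₀ →
      t₀ + 1 < T → Pool.Agent.H48.PI.Hs (f t₀) - Pool.Agent.H48.PI.Hs (f (t₀ + 1)) ≤ ε →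
      (∀ t ∈ Icc t₀ (t₀ + 1), ∫ q, |f t q.2 q.1 - mx a k u q.1| ∂(nu d) ≤ ε) →
      ∀ x v, |f (t₀ + 1) x v - mx a k u v| ≤ η * Wp p v := by
  sorry

end Pool.Agent.H48.CV
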