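import Pool.Agent.H48.NE.Mxw

/-!
# A Maxwellian is determined by its mass, momentum and energy
-/

set_option autoImplicit false

open MeasureTheory Set Filter Topology Pool.Agent.H25.Kin Pool.Agent.H48.PR Pool.Agent.H48.NE

namespace Pool.Agent.H48.CV

variable {d : ℕ}

private lemma MxU_log {a k : ℝ} (ha : 0 < a) (u v : Vec d) :
    Real.log (mx a k u v) = Real.log a - k * nsq u - k * nsq v + ∑ i, 2 * k * u i * v i := by
  unfold mx
  rw [Real.log_mul ha.ne' (Real.exp_pos _).ne', Real.log_exp]
  have e : nsq (v - u) = nsq v - 2 * (∑ i, u i * v i) + nsq u := by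
    unfold nsq
    rw [Finset.mul_sum, ← Finset.sum_sub_distrib, ← Finset.sum_add_distrib]
    refine Finset.sum_congr rfl fun i _ => ?_
    rw [Pi.sub_apply]
    ring
  have e2 : ∑ i, 2 * k * u i * v i = 2 * k * ∑ i, u i * v i := by
    rw [Finset.mul_sum]
    exact Finset.sum_congr rfl fun i _ => by ring
  rw [e, e2]
  ring

private lemma MxU_mono {x y : ℝ} (hx : 0 < x) (hy : 0 < y) :
    0 ≤ (x - y) * (Real.log x - Real.log y) ∧
      ((x - y) * (Real.log x - Real.log y) = 0 → x = y) := by
  rcases lt_trichotomy x y with h | h | h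
  · have h1 := Real.log_lt_log hx h
    refine ⟨mul_nonneg_of_nonpos_of_nonpos (by linarith) (by linarith), fun h2 => ?_⟩
    rcases mul_eq_zero.1 h2 with h3 | h3 <;> linarith
  · rw [h]
    exact ⟨by simp, fun _ => rfl⟩
  · have h1 := Real.log_lt_log hy h
    refine ⟨mul_nonneg (by linarith) (by linarith), fun h2 => ?_⟩
    rcases mul_eq_zero.1 h2 with h3 | h3 <;> linarith

theorem mx_ext {a k a' k' : ℝ} (ha : 0 < a) (hk : 0 < k) (ha' : 0 < a') (hk' : 0 < k') (u u' : Vec d)
    (h0 : ∫ v, mx a k u v = ∫ v, mx a' k' u' v)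
    (h1 : ∀ i, ∫ v, mx a k u v * v i = ∫ v, mx a' k' u' v * v i)
    (h2 : ∫ v, mx a k u v * nsq v = ∫ v, mx a' k' u' v * nsq v) (v : Vec d) :
    mx a k u v = mx a' k' u' v := by
  have hn := mx_nice ha hk u
  have hn' := mx_nice ha' hk' u'
  have hci : ∀ i, Continuous fun v : Vec d => v i := fun i => continuous_apply i
  have hPi : ∀ i, PG fun v : Vec d => v i := fun i => ⟨1, 1, fun v => by
    rw [one_mul, pow_one]
    have := norm_le_pi_norm v i
    linarith⟩
  have hPq : PG (nsq : Vec d → ℝ) := ⟨2, d, fun v => by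
    rw [Real.norm_eq_abs, abs_of_nonneg (sq_nonneg' v)]
    have h5 := sq_le v
    have h6 := norm_nonneg v
    have h7 : (0 : ℝ) ≤ d := Nat.cast_nonneg _
    nlinarith [mul_nonneg h7 h6]⟩
  have hcq : Continuous (nsq : Vec d → ℝ) := by unfold nsq; fun_prop
  have I0 : Integrable (mx a k u) := hn.rd.integrable hn.cont.aestronglyMeasurable
  have I0' : Integrable (mx a' k' u') := hn'.rd.integrable hn'.cont.aestronglyMeasurable
  have I1 : ∀ i, Integrable fun v => mx a k u v * v i := fun i =>
    (hn.rd.mul_PG (hPi i)).integrable (hn.cont.mul (hci i)).aestronglyMeasurable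
  have I1' : ∀ i, Integrable fun v => mx a' k' u' v * v i := fun i =>
    (hn'.rd.mul_PG (hPi i)).integrable (hn'.cont.mul (hci i)).aestronglyMeasurable
  have I2 : Integrable fun v => mx a k u v * nsq v :=
    (hn.rd.mul_PG hPq).integrable (hn.cont.mul hcq).aestronglyMeasurable
  have I2' : Integrable fun v => mx a' k' u' v * nsq v :=
    (hn'.rd.mul_PG hPq).integrable (hn'.cont.mul hcq).aestronglyMeasurable
  set c0 : ℝ := (Real.log a - k * nsq u) - (Real.log a' - k' * nsq u') with hc0
  set c2 : ℝ := k' - k with hc2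
  set c1 : Fin d → ℝ := fun i => 2 * k * u i - 2 * k' * u' i with hc1
  have hD : ∀ v, (mx a k u v - mx a' k' u' v) * (Real.log (mx a k u v) - Real.log (mx a' k' u' v)) =
      c0 * (mx a k u v - mx a' k' u' v) + c2 * (mx a k u v * nsq v - mx a' k' u' v * nsq v) +
        ∑ i, c1 i * (mx a k u v * v i - mx a' k' u' v * v i) := by
    intro v
    rw [MxU_log ha u v, MxU_log ha' u' v]
    have e : ∑ i, c1 i * (mx a k u v * v i - mx a' k' u' v * v i) =
        (mx a k u v - mx a' k' u' v) * (∑ i, 2 * k * u i * v i - ∑ i, 2 * k' * u' i * v i) := by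
      rw [← Finset.sum_sub_distrib, Finset.mul_sum]
      refine Finset.sum_congr rfl fun i _ => ?_
      rw [hc1]
      ring
    rw [e, hc0, hc2]
    ring
  have J0 : Integrable fun v => c0 * (mx a k u v - mx a' k' u' v) := (I0.sub I0').const_mul c0
  have J2 : Integrable fun v => c2 * (mx a k u v * nsq v - mx a' k' u' v * nsq v) :=
    (I2.sub I2').const_mul c2
  have J1 : ∀ i, Integrable fun v => c1 i * (mx a k u v * v i - mx a' k' u' v * v i) := fun i =>
    ((I1 i).sub (I1' i)).const_mul (c1 i)
  have J1s : Integrable fun v => ∑ i, c1 i * (mx a k u v * v i - mx a' k' u' v * v i) :=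
    integrable_finsetSum _ fun i _ => J1 i
  have J02 : Integrable fun v => c0 * (mx a k u v - mx a' k' u' v) +
      c2 * (mx a k u v * nsq v - mx a' k' u' v * nsq v) := J0.add J2
  have hz : ∫ v, (mx a k u v - mx a' k' u' v) *
      (Real.log (mx a k u v) - Real.log (mx a' k' u' v)) = 0 := by
    simp_rw [hD]
    rw [integral_add J02 J1s, integral_add J0 J2, integral_finsetSum _ fun i _ => J1 i,
      integral_const_mul, integral_const_mul, integral_sub I0 I0', integral_sub I2 I2', h0, h2,
      sub_self, sub_self, mul_zero, mul_zero, zero_add, zero_add]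
    refine Finset.sum_eq_zero fun i _ => ?_
    rw [integral_const_mul, integral_sub (I1 i) (I1' i), h1 i, sub_self, mul_zero]
  have hDi : Integrable fun v => (mx a k u v - mx a' k' u' v) *
      (Real.log (mx a k u v) - Real.log (mx a' k' u' v)) := by
    simp_rw [hD]
    exact J02.add J1s
  have hpos : ∀ v, 0 < mx a k u v := fun v => mx_pos ha u v
  have hpos' : ∀ v, 0 < mx a' k' u' v := fun v => mx_pos ha' u' v
  have hc : Continuous fun v => (mx a k u v - mx a' k' u' v) *
      (Real.log (mx a k u v) - Real.log (mx a' k' u' v)) :=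
    (hn.cont.sub hn'.cont).mul
      ((hn.cont.log fun v => (hpos v).ne').sub (hn'.cont.log fun v => (hpos' v).ne'))
  have h6 := (integral_eq_zero_iff_of_nonneg (fun v => (MxU_mono (hpos v) (hpos' v)).1) hDi).1 hz
  have h7 := (hc.ae_eq_iff_eq volume continuous_zero).1 h6
  exact (MxU_mono (hpos v) (hpos' v)).2 (congrFun h7 v)

end Pool.Agent.H48.CV
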