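import Pool.Agent.H48.CV.Dir
import Pool.Agent.H48.CV.StbG
import Pool.Agent.H48.NE.Boot

/-!
# Module ThmG: bounds on `[0,∞)` without symmetry near plane symmetric data

If there is no solution with the initial value `F₀` and `T₁ > 0` nothing is to be proved (`Ts = 0`). Otherwise `Slice F₀` (`sol_slice`). `est_holB` (PG/FinB) for `F₀`: all solutions `g` with `g 0 = F₀` have decay constants `U₀` and mass density `≥ m₁ > 0` on `[0,T₁)`, and are plane symmetric (`sym_geB`). `conv_dir`: `μ = mx a k u₀`. `p = d + 10`.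
`A₁ = (d+1)^p |U₀ (2p)| + 1` (`g ≤ (A₁ - 1) Wp p`); `R₁` with `∫_{nsq > R₁²} A₁ Wp p ≤ m₁/8`; `η₁ ≤ 1` with `η₁ ∫ Wp p ≤ m₁/8`. If `|f - g| ≤ η₁ Wp p` then `f ≤ A₁ Wp p` and `∫_{nsq ≤ R₁²} f ≥ m₁/2` (`stb_mass`-type estimate of PS/Stb). `U¹` from `genN` with `A₁, R₁, m₁/2`. `near_eq` with `B := U¹`: `ε', U', m'`.
`L` from `ConvP` with `p`, `η = ε'/2`; `T₀ = max L 2`, `Ts = T₀`. Given `T₁ > Ts`, `g`, `B`: `T₀' = (T₀+T₁)/2`, `stab_close` on `[0,T₀']` with `η = min η₁ (ε'/2)`: `ε, U, m₀`. `f` on `[0,T)`. For `t < min T T₀'`: bounds `U`, `m₀` (restriction of `f` to `[0, min T T₀')`). If `T₀' < T`: at time `T₀ < T₀'`: `genN` for the restriction of `f` to `[0,T₀')` (`T₀ ≥ 1`):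
decay constants `U¹`; `|f T₀ - μ| ≤ |f - g| + |g - μ| ≤ ε'` (`Wp ≤ 1`; `g` on `[0,T₁)`, `T₀ ∈ [L,T₁)`). `near_eq` for `f(T₀ + ·)` on `[0,T-T₀)` (`boltz_shift`): `U'`, `m'` on `[T₀,T)`. Take the maximum of the constants; `HydroBounds` from `hydro_of_U` (PI/HydU; used in PG/FinT). -/

set_option autoImplicit false

open MeasureTheory Set Filter Topology Pool.Agent.H25.Kin Pool.Agent.H48.PL Pool.Agent.H48.PD Pool.Agent.H25.PN
open Pool.Agent.H82.BK Pool.Agent.H82.CM Pool.Agent.H48.PR Pool.Agent.H93.CM Pool.Agent.H48.NE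
open Pool.Agent.H15.AV (Slice sol_slice)

namespace Pool.Agent.H48.CV

variable {d : ℕ}

/-- pointwise decay from a weighted bound -/
private lemma ThmG_le {q : ℕ} {v : Vec d} {a c : ℝ} (ha : 0 ≤ a)
    (h : (1 + ‖v‖) ^ (2 * q) * a ≤ c) : a ≤ ((d : ℝ) + 1) ^ q * |c| * Wp q v := by
  have hn := norm_nonneg v
  have h2 : 1 + nsq v ≤ ((d : ℝ) + 1) * (1 + ‖v‖) ^ 2 := by
    have h3 := sq_le v
    have h4 : (0 : ℝ) ≤ d := Nat.cast_nonneg _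
    nlinarith [mul_nonneg h4 hn]
  have h5 : (1 + nsq v) ^ q ≤ ((d : ℝ) + 1) ^ q * (1 + ‖v‖) ^ (2 * q) := by
    rw [pow_mul, ← mul_pow]
    exact pow_le_pow_left₀ (by have := sq_nonneg' v; linarith) h2 q
  have h6 : 0 < (1 + nsq v) ^ q := by
    have := sq_nonneg' v
    positivity
  rw [Wp, ← div_eq_mul_inv, le_div_iff₀ h6]
  calc a * (1 + nsq v) ^ q ≤ a * (((d : ℝ) + 1) ^ q * (1 + ‖v‖) ^ (2 * q)) :=
        mul_le_mul_of_nonneg_left h5 ha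
    _ = ((d : ℝ) + 1) ^ q * ((1 + ‖v‖) ^ (2 * q) * a) := by ring
    _ ≤ ((d : ℝ) + 1) ^ q * |c| := by
        gcongr
        exact h.trans (le_abs_self c)

/-- the weights are integrable -/
private lemma ThmG_Wint {q : ℕ} (hq : d + 1 ≤ 2 * q) : Integrable (Wp q : Vec d → ℝ) := by
  refine Integrable.mono' ((integrable_wt (d := d)).const_mul ((2 : ℝ) ^ q))
    (Wp_cont q).aestronglyMeasurable (Eventually.of_forall fun v => ?_)
  have hn := norm_nonneg v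
  have h1 : (1 + ‖v‖) ^ 2 ≤ 2 * (1 + nsq v) := by
    have := norm_sq_le_sq v
    nlinarith [sq_nonneg (1 - ‖v‖)]
  have h2 : (1 + ‖v‖) ^ (d + 1) ≤ 2 ^ q * (1 + nsq v) ^ q := by
    calc (1 + ‖v‖) ^ (d + 1) ≤ (1 + ‖v‖) ^ (2 * q) := pow_le_pow_right₀ (by linarith) hq
      _ = ((1 + ‖v‖) ^ 2) ^ q := pow_mul _ _ _
      _ ≤ (2 * (1 + nsq v)) ^ q := pow_le_pow_left₀ (by positivity) h1 q
      _ = 2 ^ q * (1 + nsq v) ^ q := mul_pow _ _ _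
  have h3 : 0 < (1 + nsq v) ^ q := by
    have := sq_nonneg' v
    positivity
  rw [Real.norm_of_nonneg (Wp_pos q v).le, Wp, wt, ← div_eq_mul_inv, ← one_div,
    div_le_div_iff₀ h3 (by positivity), one_mul]
  exact h2

/-- slices are integrable -/
private lemma ThmG_int {T : ℝ} {Q f : ℝ → Vec d → Vec d → ℝ} (hf : IsClassicalSol T Q f) {t : ℝ}
    (ht : t ∈ Ico 0 T) (x : Vec d) : Integrable (f t x) := by
  obtain ⟨C, hC⟩ := hf.decay t ht.2 (2 * (d + 1))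
  have hc : Continuous (f t x) := by
    have h1 : Continuous fun v : Vec d => ((t, x, v) : ℝ × Vec d × Vec d) := by fun_prop
    exact hf.isCont.comp_continuous h1 fun v => ⟨ht, mem_univ _⟩
  refine Integrable.mono' ((ThmG_Wint (d := d) (q := d + 1) (by omega)).const_mul
    (((d : ℝ) + 1) ^ (d + 1) * |C|)) hc.aestronglyMeasurable
    (Eventually.of_forall fun v => ?_)
  have h0 := hf.nonneg t ht x v
  rw [Real.norm_of_nonneg h0]
  exact ThmG_le h0 (hC t ⟨ht.1, le_rfl⟩ x v)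

/-- the mass outside a ball is small -/
private lemma ThmG_tail {p : ℕ} (hp : d + 10 ≤ p) {A δ : ℝ} (hA : 0 ≤ A) (hδ : 0 < δ) :
    ∃ R : ℝ, ∀ G : Vec d → ℝ, Integrable G → (∀ v, G v ≤ A * Wp p v) →
      (∫ v, G v) - δ ≤ ∫ z in {z : Vec d | nsq z ≤ R ^ 2}, G z := by
  obtain ⟨q, rfl⟩ : ∃ q, p = q + 1 := ⟨p - 1, by omega⟩
  have hi := ThmG_Wint (d := d) (q := q) (by omega)
  obtain ⟨I, hI⟩ : ∃ I : ℝ, I = ∫ v : Vec d, Wp q v := ⟨_, rfl⟩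
  obtain ⟨R, hR⟩ : ∃ R : ℝ, R = A * I / δ := ⟨_, rfl⟩
  refine ⟨R, fun G hG hGA => ?_⟩
  have hS : MeasurableSet {z : Vec d | nsq z ≤ R ^ 2} :=
    (isClosed_le continuous_sq continuous_const).measurableSet
  have h1 := integral_add_compl hS hG
  have hR2 : 0 < 1 + R ^ 2 := by positivity
  have h2 : ∫ z in {z : Vec d | nsq z ≤ R ^ 2}ᶜ, G z ≤
      ∫ z in {z : Vec d | nsq z ≤ R ^ 2}ᶜ, A / (1 + R ^ 2) * Wp q z := by
    refine setIntegral_mono_on hG.integrableOn (hi.const_mul _).integrableOn hS.compl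
      fun z hz => (hGA z).trans ?_
    have hz' : R ^ 2 < nsq z := not_le.1 hz
    have h3 : Wp (q + 1) z ≤ Wp q z / (1 + R ^ 2) := by
      have h4 : 0 < 1 + nsq z := by linarith [sq_nonneg R]
      have h5 : Wp (q + 1) z = Wp q z / (1 + nsq z) := by
        unfold Wp
        rw [pow_succ, mul_inv, div_eq_mul_inv]
      rw [h5]
      exact div_le_div_of_nonneg_left (Wp_pos q z).le hR2 (by linarith)
    calc A * Wp (q + 1) z ≤ A * (Wp q z / (1 + R ^ 2)) := mul_le_mul_of_nonneg_left h3 hA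
      _ = A / (1 + R ^ 2) * Wp q z := by ring
  have h3 : ∫ z in {z : Vec d | nsq z ≤ R ^ 2}ᶜ, A / (1 + R ^ 2) * Wp q z ≤
      ∫ z : Vec d, A / (1 + R ^ 2) * Wp q z :=
    setIntegral_le_integral (hi.const_mul _) (Eventually.of_forall fun z =>
      mul_nonneg (div_nonneg hA hR2.le) (Wp_pos q z).le)
  have e3 : ∫ z : Vec d, A / (1 + R ^ 2) * Wp q z = A / (1 + R ^ 2) * I := by
    rw [integral_const_mul, hI]
  rw [e3] at h3
  have h4 : A / (1 + R ^ 2) * I ≤ δ := by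
    rw [div_mul_eq_mul_div, div_le_iff₀ hR2]
    have h5 : A * I = δ * R := by
      rw [hR]
      field_simp
    rw [h5]
    refine mul_le_mul_of_nonneg_left ?_ hδ.le
    nlinarith [sq_nonneg (R - 1)]
  linarith

/-- **Theorem G** with closeness up to the end: for every `η > 0` there is a time `Ts` such that, if the
plane symmetric solution `g` exists on `[0,T₁)` with `T₁ > Ts`, all solutions with data near `F₀` have
hydrodynamic bounds and decay constants on their whole interval and stay `η`-close to `g` before `T₁`. -/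
theorem thmG_close {s γ : ℝ} (hd : 2 ≤ d) (hs : 0 < s) (h1 : 1 ≤ γ) (h2 : γ + 2 * s < 2) {b : ℝ → ℝ}
    (hb : IsKernel d s b) {ν : Vec d} (hν : ν ≠ 0) {F₀ : Vec d → Vec d → ℝ}
    (hF : PlaneData s ν F₀) : ∀ η > 0, ∃ Ts : ℝ, ∀ T₁ > Ts, ∀ g : ℝ → Vec d → Vec d → ℝ,
      IsBoltzmannSol γ b T₁ g → g 0 = F₀ → ∀ B : ℕ → ℝ, ∃ ε > 0, ∃ m₀ > 0, ∃ (M₀ : ℝ) (U : ℕ → ℝ),
      ∀ (T : ℝ) (f : ℝ → Vec d → Vec d → ℝ), IsBoltzmannSol γ b T f →
        (∀ (N : ℕ) (x v : Vec d), (1 + ‖v‖) ^ N * f 0 x v ≤ B N) →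
        (∀ x v, |f 0 x v - F₀ x v| ≤ ε) →
        ∀ t ∈ Ico 0 T, ∀ x, HydroBounds m₀ M₀ M₀ M₀ (f t x) ∧
          (∀ (N : ℕ) (v : Vec d), (1 + ‖v‖) ^ N * f t x v ≤ U N) ∧
          (t < T₁ → ∀ v, |f t x v - g t x v| ≤ η) := by
  intro η hη
  by_cases hex : ∃ (T' : ℝ) (g' : ℝ → Vec d → Vec d → ℝ), 0 < T' ∧ IsBoltzmannSol γ b T' g' ∧ g' 0 = F₀
  swap
  · refine ⟨0, fun T₁ hT₁ g hg hg0 => absurd ⟨T₁, g, hT₁, hg, hg0⟩ hex⟩
  have hs2 : 2 * s < 1 := by linarith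
  have hγ : 0 < γ := by linarith
  have hSl : Slice F₀ := by
    obtain ⟨T', g', hT', hg', hg'0⟩ := hex
    rw [← hg'0]
    exact sol_slice hg' ⟨le_rfl, hT'⟩
  obtain ⟨a, k, u₀, hE, hconv⟩ := conv_dir hd hs h1 h2 hb hν hSl hF.2.1 hF.1
  obtain ⟨U₀, M₁, hU₀⟩ := ((Pool.Agent.H48.PG.est_holB hd hs h1 h2 hb hν).1 F₀).1
  obtain ⟨m₁, hm₁, M₂, hM₂⟩ := ((Pool.Agent.H48.PG.est_holB hd hs h1 h2 hb hν).1 F₀).2 hF.2.1
  obtain ⟨p, hp⟩ : ∃ p : ℕ, p = d + 10 := ⟨_, rfl⟩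
  have hp' : d + 10 ≤ p := hp.ge
  obtain ⟨A₀, hA₀⟩ : ∃ A₀ : ℝ, A₀ = ((d : ℝ) + 1) ^ p * |U₀ (2 * p)| := ⟨_, rfl⟩
  have hA₀0 : 0 ≤ A₀ := by rw [hA₀]; positivity
  obtain ⟨R₁, hR₁⟩ := ThmG_tail hp' hA₀0 (by linarith : 0 < m₁ / 4)
  obtain ⟨I, hI⟩ : ∃ I : ℝ, I = ∫ v : Vec d, Wp p v := ⟨_, rfl⟩
  have hI0 : 0 ≤ I := by rw [hI]; exact integral_nonneg fun z => (Wp_pos p z).le
  have hWi : Integrable (Wp p : Vec d → ℝ) := ThmG_Wint (by omega)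
  obtain ⟨U₁, hU₁⟩ := genN hd ⟨hs, by linarith⟩ hγ h2.le hb hp' (A₀ + 1) R₁ (half_pos hm₁)
  obtain ⟨ε', hε', U', m', hm', hnear⟩ := near_eq2 hd hs hγ hs2 h2.le hb hE.ha hE.hk u₀ U₁
    (half_pos hη)
  obtain ⟨ε₁, hε₁, hε₁a, hε₁b⟩ : ∃ ε₁ : ℝ, 0 < ε₁ ∧ ε₁ ≤ ε' / 2 ∧ ε₁ ≤ η / 2 :=
    ⟨min (ε' / 2) (η / 2), lt_min (half_pos hε') (half_pos hη), min_le_left _ _, min_le_right _ _⟩
  obtain ⟨L, hL⟩ := hconv p ε₁ hε₁
  obtain ⟨T₀, hT₀⟩ : ∃ T₀ : ℝ, T₀ = max L 2 := ⟨_, rfl⟩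
  have hT₀L : L ≤ T₀ := by rw [hT₀]; exact le_max_left _ _
  have hT₀2 : 2 ≤ T₀ := by rw [hT₀]; exact le_max_right _ _
  refine ⟨T₀, fun T₁ hT₁ g hg hg0 B => ?_⟩
  have hPD : PlaneData s ν (g 0) := by rw [hg0]; exact hF
  have hsym : PlaneSym ν T₁ g := Pool.Agent.H48.PG.sym_geB hd hs h1 h2 hb hg (Or.inr hPD)
  obtain ⟨η₁, hη₁, hη₁1, hη₁I⟩ : ∃ η₁ : ℝ, 0 < η₁ ∧ η₁ ≤ 1 ∧ η₁ * I ≤ m₁ / 4 := by
    refine ⟨min 1 (m₁ / 4 / (I + 1)), lt_min one_pos (by positivity), min_le_left _ _, ?_⟩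
    calc min 1 (m₁ / 4 / (I + 1)) * I ≤ m₁ / 4 / (I + 1) * I :=
          mul_le_mul_of_nonneg_right (min_le_right _ _) hI0
      _ = m₁ / 4 * (I / (I + 1)) := by ring
      _ ≤ m₁ / 4 * 1 := mul_le_mul_of_nonneg_left ((div_le_one (by linarith)).2 (by linarith))
          (by linarith)
      _ = m₁ / 4 := mul_one _
  obtain ⟨T₂, hT₂⟩ : ∃ T₂ : ℝ, T₂ = (T₀ + T₁) / 2 := ⟨_, rfl⟩
  have hT₂a : T₀ < T₂ := by rw [hT₂]; linarith
  have hT₂b : T₂ < T₁ := by rw [hT₂]; linarith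
  obtain ⟨ε, hε, U₂, m₂, hm₂, hst⟩ := stab_close hd hs h1 h2 hb hν hT₂b hg hPD B hp'
    (lt_min hη₁ hε₁)
  obtain ⟨M₀, hM₀⟩ := Pool.Agent.H48.PI.hydro_of_U d (fun N => max (U₂ N) (U' N))
  refine ⟨ε, hε, min m₂ m', lt_min hm₂ hm', M₀, fun N => max (U₂ N) (U' N),
    fun T f hf hfB hfε => ?_⟩
  have hf' : IsClassicalSol T (fun t x => boltzQ γ b (f t x)) f := hf
  have hg' : IsClassicalSol T₁ (fun t x => boltzQ γ b (g t x)) g := hg
  -- closeness on the first part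
  have hA := hst (min T T₂) (min_le_right _ _) f
    (Pool.Agent.H48.PI.sol_restrict hf' (min_le_left _ _)) hfB (by rw [hg0]; exact hfε)
  -- decay and mass on the whole interval
  have key : ∀ t ∈ Ico 0 T, ∀ x, (∀ (N : ℕ) (v : Vec d), (1 + ‖v‖) ^ N * f t x v ≤
      max (U₂ N) (U' N)) ∧ min m₂ m' ≤ ∫ v, f t x v ∧ (t < T₁ → ∀ v, |f t x v - g t x v| ≤ η) := by
    intro t ht x
    rcases lt_or_ge t T₂ with htT | htT
    · obtain ⟨j1, j2, j3⟩ := hA t ⟨ht.1, lt_min ht.2 htT⟩ x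
      refine ⟨fun N v => (j1 N v).trans (le_max_left _ _), (min_le_left _ _).trans j2,
        fun _ v => (j3 v).trans ?_⟩
      have j4 : min η₁ ε₁ * Wp p v ≤ ε₁ * 1 :=
        mul_le_mul (min_le_right _ _) (Wp_le_one p v) (Wp_pos p v).le hε₁.le
      linarith
    · have hT2T : T₂ ≤ T := htT.trans ht.2.le
      have hTT : min T T₂ = T₂ := min_eq_right hT2T
      rw [hTT] at hA
      have hfr : IsClassicalSol T₂ (fun t x => boltzQ γ b (f t x)) f :=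
        Pool.Agent.H48.PI.sol_restrict hf' hT2T
      have hclose : ∀ τ ∈ Ico 0 T₂, ∀ y w, |f τ y w - g τ y w| ≤ min η₁ ε₁ * Wp p w :=
        fun τ hτ y w => (hA τ hτ y).2.2 w
      have hgA : ∀ τ ∈ Ico 0 T₁, ∀ y w, g τ y w ≤ A₀ * Wp p w := by
        intro τ hτ y w
        rw [hA₀]
        exact ThmG_le (hg'.nonneg τ hτ y w)
          ((hU₀ T₁ g hg (Or.inr hPD) hg0 τ hτ y).1 (2 * p) w)
      have hsub : ∀ τ ∈ Ico 0 T₂, τ ∈ Ico 0 T₁ := fun τ hτ => ⟨hτ.1, hτ.2.trans hT₂b⟩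
      have hfA : ∀ τ ∈ Ico 0 T₂, ∀ y w, f τ y w ≤ (A₀ + 1) * Wp p w := by
        intro τ hτ y w
        have j1 := (abs_le.1 (hclose τ hτ y w)).2
        have j2 := hgA τ (hsub τ hτ) y w
        have j3 : min η₁ ε₁ * Wp p w ≤ 1 * Wp p w :=
          mul_le_mul_of_nonneg_right ((min_le_left _ _).trans hη₁1) (Wp_pos p w).le
        linarith
      have hfm : ∀ τ ∈ Ico 0 T₂, ∀ y,
          m₁ / 2 ≤ ∫ z in {z : Vec d | nsq z ≤ R₁ ^ 2}, f τ y z := by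
        intro τ hτ y
        have ig := ThmG_int hg' (hsub τ hτ) y
        have if' := ThmG_int hfr hτ y
        have j1 := hR₁ (g τ y) ig (hgA τ (hsub τ hτ) y)
        have j2 : m₁ ≤ ∫ v, g τ y v := (hM₂ T₁ g hg (Or.inr hPD) hg0 τ (hsub τ hτ) y).1
        have j3 : (∫ z in {z : Vec d | nsq z ≤ R₁ ^ 2}, g τ y z) -
            (∫ z in {z : Vec d | nsq z ≤ R₁ ^ 2}, η₁ * Wp p z) ≤
            ∫ z in {z : Vec d | nsq z ≤ R₁ ^ 2}, f τ y z := by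
          rw [← integral_sub ig.integrableOn (hWi.const_mul η₁).integrableOn]
          refine integral_mono (ig.integrableOn.sub (hWi.const_mul η₁).integrableOn)
            if'.integrableOn fun z => ?_
          have j4 := (abs_le.1 (hclose τ hτ y z)).1
          have j5 : min η₁ ε₁ * Wp p z ≤ η₁ * Wp p z :=
            mul_le_mul_of_nonneg_right (min_le_left _ _) (Wp_pos p z).le
          show g τ y z - η₁ * Wp p z ≤ f τ y z
          linarith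
        have j6 : ∫ z in {z : Vec d | nsq z ≤ R₁ ^ 2}, η₁ * Wp p z ≤ η₁ * I := by
          rw [hI, ← integral_const_mul]
          exact setIntegral_le_integral (hWi.const_mul η₁) (Eventually.of_forall fun z =>
            mul_nonneg hη₁.le (Wp_pos p z).le)
        linarith
      have hdT := hU₁ T₂ f hfr hfA hfm T₀ ⟨by linarith, hT₂a⟩
      have hT₀0 : 0 ≤ T₀ := by linarith
      have hdist : ∀ y w, |f T₀ y w - mx a k u₀ w| ≤ ε' := by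
        intro y w
        have j1 := hclose T₀ ⟨hT₀0, hT₂a⟩ y w
        have j2 := hL T₁ g hg hsym hg0 T₀ ⟨hT₀L, hT₁⟩ y w
        have j3 : min η₁ ε₁ * Wp p w ≤ ε₁ * 1 :=
          mul_le_mul (min_le_right _ _) (Wp_le_one p w) (Wp_pos p w).le (by linarith)
        have j4 : ε₁ * Wp p w ≤ ε₁ * 1 :=
          mul_le_mul_of_nonneg_left (Wp_le_one p w) (by linarith)
        have j5 := abs_sub_le (f T₀ y w) (g T₀ y w) (mx a k u₀ w)
        linarith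
      have hsh := Pool.Agent.H48.PI.boltz_shift hf hT₀0
      have hn := hnear (T - T₀) (fun τ => f (T₀ + τ)) hsh
        (fun N y w => by simpa using hdT N y w) (fun y w => by simpa using hdist y w)
        (t - T₀) ⟨by linarith, by linarith [ht.2]⟩ x
      have e1 : T₀ + (t - T₀) = t := by ring
      simp only [e1] at hn
      refine ⟨fun N v => (hn.1 N v).trans (le_max_right _ _), (min_le_right _ _).trans hn.2.1,
        fun htT₁ v => ?_⟩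
      have j1 := hn.2.2 v
      have j2 := hL T₁ g hg hsym hg0 t ⟨by linarith, htT₁⟩ x v
      have j3 : η / 2 * Wp (d + 11) v ≤ η / 2 * 1 :=
        mul_le_mul_of_nonneg_left (Wp_le_one (d + 11) v) (by linarith)
      have j4 : ε₁ * Wp p v ≤ ε₁ * 1 :=
        mul_le_mul_of_nonneg_left (Wp_le_one p v) (by linarith)
      have j5 := abs_sub_le (f t x v) (mx a k u₀ v) (g t x v)
      rw [abs_sub_comm (mx a k u₀ v) (g t x v)] at j5
      linarith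
  intro t ht x
  obtain ⟨g1, g2, g3⟩ := hM₀ T _ f hf' (fun N τ hτ y w => (key τ hτ y).1 N w) t ht x
  exact ⟨⟨(key t ht x).2.1, g1, g2, g3⟩, (key t ht x).1, (key t ht x).2.2⟩

theorem thmG {s γ : ℝ} (hd : 2 ≤ d) (hs : 0 < s) (h1 : 1 ≤ γ) (h2 : γ + 2 * s < 2) {b : ℝ → ℝ}
    (hb : IsKernel d s b) {ν : Vec d} (hν : ν ≠ 0) {F₀ : Vec d → Vec d → ℝ}
    (hF : PlaneData s ν F₀) : ∃ Ts : ℝ, ∀ T₁ > Ts, ∀ g : ℝ → Vec d → Vec d → ℝ,
      IsBoltzmannSol γ b T₁ g → g 0 = F₀ → ∀ B : ℕ → ℝ, ∃ ε > 0, ∃ m₀ > 0, ∃ (M₀ : ℝ) (U : ℕ → ℝ),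
      ∀ (T : ℝ) (f : ℝ → Vec d → Vec d → ℝ), IsBoltzmannSol γ b T f →
        (∀ (N : ℕ) (x v : Vec d), (1 + ‖v‖) ^ N * f 0 x v ≤ B N) → (∀ x v, |f 0 x v - F₀ x v| ≤ ε) →
        ∀ t ∈ Ico 0 T, ∀ x, HydroBounds m₀ M₀ M₀ M₀ (f t x) ∧
          ∀ (N : ℕ) (v : Vec d), (1 + ‖v‖) ^ N * f t x v ≤ U N := by
  obtain ⟨Ts, hTs⟩ := thmG_close hd hs h1 h2 hb hν hF 1 one_pos
  refine ⟨Ts, fun T₁ hT₁ g hg hg0 B => ?_⟩
  obtain ⟨ε, hε, m₀, hm₀, M₀, U, hU⟩ := hTs T₁ hT₁ g hg hg0 B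
  exact ⟨ε, hε, m₀, hm₀, M₀, U, fun T f hf hfB hfε t ht x =>
    ⟨(hU T f hf hfB hfε t ht x).1, (hU T f hf hfB hfε t ht x).2.1⟩⟩

end Pool.Agent.H48.CV
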