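import Pool.Agent.H82.HF.Lay
import Pool.Agent.H82.HF.Cls
import Pool.Agent.H82.HF.PrpD
import Pool.Agent.H82.CL.Unif
import Pool.Agent.H85.LF.Ball
import Pool.Agent.H37.GH.Fin
import Pool.Agent.H48.PI.Shift

/-!
# THEOREM V: dilute gases without symmetry

`h` in the Schwartz class of `𝕋^d × ℝ^d`, nonnegative, without vacuum. For small `δ` every classical solution `r` with the kernel
`δ b` which starts near `h` has decay constants independent of time and a positive lower bound of the mass density.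

1. `F` = average of `h` over the torus. `layer` + `cls`: on `[0, θ₁/δ)`: `|r - F| ≤ (small + Kst A/(1+δ t^(1+2s))) Wp`; decay constants `U₁` of
`prpD`, chosen before the truncation error `ι`.
2. `hom_unif`: `g_hom` near `ϑ F`, uniformly in `ϑ ∈ [1/2,1]` (compactness).
3. `t₂ = θ₁/(2δ)`, `n = ⌊1/δ⌋`, `ϑ = n δ`: `w(t,x,v) = ϑ r(t₂ + n t, n x, v)` is a solution with the kernel `b`, close to `ϑ F` at `t = 0`.
4. `mass_low` on `[0, θ₁/δ)`.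
-/

set_option autoImplicit false

open MeasureTheory Set Filter Topology Pool.Agent.H25.Kin Pool.Agent.H48.PL Pool.Agent.H48.PR
open Pool.Agent.H15.AV (Slice)
open Pool.Agent.H82.HF (SchT avT)

namespace Pool.Agent.H48.CV

variable {d : ℕ}

/-- pointwise decay from a weighted bound -/
private lemma ThmV_le {q : ℕ} {v : Vec d} {a c : ℝ} (ha : 0 ≤ a)
    (h : (1 + ‖v‖) ^ (2 * q) * a ≤ c) : a ≤ ((d : ℝ) + 1) ^ q * c * Wp q v := by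
  have hn := norm_nonneg v
  have h2 : 1 + nsq v ≤ ((d : ℝ) + 1) * (1 + ‖v‖) ^ 2 := by
    have h3 := sq_le v
    have h4 : (0 : ℝ) ≤ d := Nat.cast_nonneg _
    nlinarith [mul_nonneg h4 hn]
  have h5 : (1 + nsq v) ^ q ≤ ((d : ℝ) + 1) ^ q * (1 + ‖v‖) ^ (2 * q) := by
    rw [pow_mul, ← mul_pow]
    exact pow_le_pow_left₀ (by have := sq_nonneg' v; linarith) h2 q
  have h6 : 0 < (1 + nsq v) ^ q := by
    have := sq_nonneg' v
    positivity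
  rw [Wp, ← div_eq_mul_inv, le_div_iff₀ h6]
  calc a * (1 + nsq v) ^ q ≤ a * (((d : ℝ) + 1) ^ q * (1 + ‖v‖) ^ (2 * q)) :=
        mul_le_mul_of_nonneg_left h5 ha
    _ = ((d : ℝ) + 1) ^ q * ((1 + ‖v‖) ^ (2 * q) * a) := by ring
    _ ≤ ((d : ℝ) + 1) ^ q * c := mul_le_mul_of_nonneg_left h (by positivity)

/-- weighted smallness by interpolation -/
theorem near_wp (p : ℕ) (B H : ℕ → ℝ) {ι : ℝ} (hι : 0 < ι) : ∃ ε > 0, ∀ (v : Vec d) (a b : ℝ),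
    0 ≤ a → 0 ≤ b → (∀ N : ℕ, (1 + ‖v‖) ^ N * a ≤ B N) → (∀ N : ℕ, (1 + ‖v‖) ^ N * b ≤ H N) →
    |a - b| ≤ ε → |a - b| ≤ ι * Wp p v := by
  obtain ⟨C, hC⟩ : ∃ C : ℝ, C = |B (2 * (2 * p))| + |H (2 * (2 * p))| + 1 := ⟨_, rfl⟩
  have hC0 : 0 < C := by
    rw [hC]
    positivity
  obtain ⟨D, hD⟩ : ∃ D : ℝ, D = ((d : ℝ) + 1) ^ p := ⟨_, rfl⟩
  have hD0 : 0 < D := by
    rw [hD]
    positivity
  refine ⟨(ι / D) ^ 2 / C, by positivity, fun v a b ha hb hA hB hab => ?_⟩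
  have hn := norm_nonneg v
  have hw : 0 < (1 + ‖v‖) ^ (2 * p) := by positivity
  have h1 : (1 + ‖v‖) ^ (2 * (2 * p)) * |a - b| ≤ C := by
    have h2 : |a - b| ≤ a + b := by
      rw [abs_le]
      constructor <;> linarith
    have h3 : 0 < (1 + ‖v‖) ^ (2 * (2 * p)) := by positivity
    calc (1 + ‖v‖) ^ (2 * (2 * p)) * |a - b| ≤ (1 + ‖v‖) ^ (2 * (2 * p)) * (a + b) :=
          mul_le_mul_of_nonneg_left h2 h3.le
      _ = (1 + ‖v‖) ^ (2 * (2 * p)) * a + (1 + ‖v‖) ^ (2 * (2 * p)) * b := by ring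
      _ ≤ B (2 * (2 * p)) + H (2 * (2 * p)) := add_le_add (hA _) (hB _)
      _ ≤ C := by
          rw [hC]
          linarith [le_abs_self (B (2 * (2 * p))), le_abs_self (H (2 * (2 * p)))]
  have h4 : ((1 + ‖v‖) ^ (2 * p) * |a - b|) ^ 2 ≤ (ι / D) ^ 2 := by
    have h5 : ((1 + ‖v‖) ^ (2 * p) * |a - b|) ^ 2 =
        ((1 + ‖v‖) ^ (2 * (2 * p)) * |a - b|) * |a - b| := by
      rw [mul_pow, ← pow_mul]
      ring_nf
    rw [h5]
    calc ((1 + ‖v‖) ^ (2 * (2 * p)) * |a - b|) * |a - b| ≤ C * ((ι / D) ^ 2 / C) :=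
          mul_le_mul h1 hab (abs_nonneg _) hC0.le
      _ = (ι / D) ^ 2 := by field_simp
  have h6 : (1 + ‖v‖) ^ (2 * p) * |a - b| ≤ ι / D :=
    le_of_pow_le_pow_left₀ two_ne_zero (by positivity) h4
  have h7 := ThmV_le (abs_nonneg (a - b)) h6
  rw [← hD, mul_div_cancel₀ _ hD0.ne'] at h7
  exact h7

/-- `g_hom` near `ϑ F`, uniformly in `ϑ ∈ [1/2,1]` -/
theorem hom_unif {s γ : ℝ} (hd : 2 ≤ d) (hs : 0 < s) (h0 : 0 ≤ γ) (hs1 : 2 * s < 1)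
    (h2 : γ + 2 * s < 2) {b : ℝ → ℝ} (hb : IsKernel d s b) {F : Vec d → ℝ}
    (hF : Slice (fun _ : Vec d => F)) (hm : 0 < ∫ v, F v)
    (hH : ∃ α : ℝ, 2 * s < α ∧ α ≤ 1 ∧ HolData α fun _ : Vec d => F) {M : ℝ} (hM : ∀ v, F v ≤ M)
    (B : ℕ → ℝ) : ∃ ε > 0, ∃ U : ℕ → ℝ, ∃ m₁ > 0, ∀ ϑ ∈ Icc (1 / 2 : ℝ) 1,
      ∀ (T : ℝ) (f : ℝ → Vec d → Vec d → ℝ), IsBoltzmannSol γ b T f →
      (∀ (N : ℕ) (x v : Vec d), (1 + ‖v‖) ^ N * f 0 x v ≤ B N) →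
      (∀ x v, |f 0 x v - ϑ * F v| ≤ ε) →
      ∀ t ∈ Ico 0 T, ∀ x, (∀ (N : ℕ) (v : Vec d), (1 + ‖v‖) ^ N * f t x v ≤ U N) ∧
        m₁ ≤ ∫ v, f t x v := by
  have hM0 : 0 ≤ M := (hF.nonneg 0 0).trans (hM 0)
  refine (isCompact_Icc (a := (1 / 2 : ℝ)) (b := 1)).induction_on
    (p := fun S : Set ℝ => ∃ ε > 0, ∃ U : ℕ → ℝ, ∃ m₁ > 0, ∀ ϑ ∈ S,
      ∀ (T : ℝ) (f : ℝ → Vec d → Vec d → ℝ), IsBoltzmannSol γ b T f →
      (∀ (N : ℕ) (x v : Vec d), (1 + ‖v‖) ^ N * f 0 x v ≤ B N) →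
      (∀ x v, |f 0 x v - ϑ * F v| ≤ ε) →
      ∀ t ∈ Ico 0 T, ∀ x, (∀ (N : ℕ) (v : Vec d), (1 + ‖v‖) ^ N * f t x v ≤ U N) ∧
        m₁ ≤ ∫ v, f t x v) ?_ ?_ ?_ ?_
  · exact ⟨1, one_pos, fun _ => 0, 1, one_pos, fun ϑ h => absurd h (notMem_empty _)⟩
  · rintro S S' hSS ⟨ε, hε, U, m, hm1, h⟩
    exact ⟨ε, hε, U, m, hm1, fun ϑ hϑ => h ϑ (hSS hϑ)⟩
  · rintro S S' ⟨ε, hε, U, m, hm1, h⟩ ⟨ε', hε', U', m', hm1', h'⟩
    refine ⟨min ε ε', lt_min hε hε', fun N => max (U N) (U' N), min m m', lt_min hm1 hm1',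
      fun ϑ hϑ T f hf hf0 hfF t ht x => ?_⟩
    rcases hϑ with hϑ | hϑ
    · obtain ⟨k1, k2⟩ := h ϑ hϑ T f hf hf0 (fun x v => (hfF x v).trans (min_le_left _ _)) t ht x
      exact ⟨fun N v => (k1 N v).trans (le_max_left _ _), (min_le_left _ _).trans k2⟩
    · obtain ⟨k1, k2⟩ := h' ϑ hϑ T f hf hf0 (fun x v => (hfF x v).trans (min_le_right _ _)) t ht x
      exact ⟨fun N v => (k1 N v).trans (le_max_right _ _), (min_le_right _ _).trans k2⟩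
  · intro ϑ₀ hϑ₀
    have hp : 0 < ϑ₀ := by linarith [hϑ₀.1]
    have hF' : Slice (fun _ : Vec d => fun v => ϑ₀ * F v) := by
      refine ⟨fun x v => mul_nonneg hp.le (hF.nonneg x v), fun x v i => rfl, ?_, fun N => ?_⟩
      · exact continuous_const.mul hF.cont
      · obtain ⟨C, hC⟩ := hF.decay N
        refine ⟨ϑ₀ * C, fun x v => ?_⟩
        calc (1 + ‖v‖) ^ N * (ϑ₀ * F v) = ϑ₀ * ((1 + ‖v‖) ^ N * F v) := by ring
          _ ≤ ϑ₀ * C := mul_le_mul_of_nonneg_left (hC x v) hp.le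
    have hm' : 0 < ∫ v, ϑ₀ * F v := by
      rw [integral_const_mul]
      exact mul_pos hp hm
    have hH' : ∃ α : ℝ, 2 * s < α ∧ α ≤ 1 ∧ HolData α fun _ : Vec d => fun v => ϑ₀ * F v := by
      obtain ⟨α, h3, h4, A, k, h5⟩ := hH
      refine ⟨α, h3, h4, ϑ₀ * A, k, fun x y v w => ?_⟩
      have h6 := mul_le_mul_of_nonneg_left (h5 x y v w) hp.le
      have e1 : |ϑ₀ * F v - ϑ₀ * F w| = ϑ₀ * |F v - F w| := by
        rw [← mul_sub, abs_mul, abs_of_pos hp]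
      rw [e1]
      refine h6.trans (le_of_eq ?_)
      ring
    obtain ⟨ε, hε, U, m₁, hm₁, hg⟩ := Pool.Agent.H37.GH.g_hom hd hs h0 hs1 h2 hb hF' hm' hH' B
    have hη : 0 < ε / (2 * (M + 1)) := by positivity
    refine ⟨Icc (1 / 2 : ℝ) 1 ∩ Metric.ball ϑ₀ (ε / (2 * (M + 1))),
      inter_mem self_mem_nhdsWithin (nhdsWithin_le_nhds (Metric.ball_mem_nhds _ hη)),
      ε / 2, by positivity, U, m₁, hm₁, ?_⟩
    rintro ϑ ⟨-, hϑ⟩ T f hf hf0 hfF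
    refine hg T f hf hf0 fun x v => ?_
    rw [Metric.mem_ball, Real.dist_eq] at hϑ
    have h3 : |ϑ - ϑ₀| * F v ≤ ε / 2 := by
      have h4 : |ϑ - ϑ₀| * F v ≤ ε / (2 * (M + 1)) * (M + 1) :=
        mul_le_mul hϑ.le ((hM v).trans (by linarith)) (hF.nonneg 0 v) hη.le
      have h5 : ε / (2 * (M + 1)) * (M + 1) = ε / 2 := by
        have : M + 1 ≠ 0 := by positivity
        field_simp
      linarith
    have h6 : |ϑ * F v - ϑ₀ * F v| ≤ ε / 2 := by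
      rw [← sub_mul, abs_mul, abs_of_nonneg (hF.nonneg 0 v)]
      exact h3
    have h7 := abs_sub_le (f 0 x v) (ϑ * F v) (ϑ₀ * F v)
    linarith [hfF x v]

/-- the late times: `w(t,x,v) = ϑ r(t₂ + n t, n x, v)` with `ϑ = n δ ∈ [1/2,1]` -/
theorem late_scale {s γ : ℝ} (hd : 2 ≤ d) (hs : 0 < s) (h0 : 0 ≤ γ) (hs1 : 2 * s < 1)
    (h2 : γ + 2 * s ≤ 2) {b : ℝ → ℝ} (hb : IsKernel d s b) {F : Vec d → ℝ} {ε m₁ : ℝ}
    (hm₁ : 0 ≤ m₁) {U B : ℕ → ℝ}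
    (hg : ∀ ϑ ∈ Icc (1 / 2 : ℝ) 1,
      ∀ (T : ℝ) (f : ℝ → Vec d → Vec d → ℝ), IsBoltzmannSol γ b T f →
      (∀ (N : ℕ) (x v : Vec d), (1 + ‖v‖) ^ N * f 0 x v ≤ |B N|) →
      (∀ x v, |f 0 x v - ϑ * F v| ≤ ε) →
      ∀ t ∈ Ico 0 T, ∀ x, (∀ (N : ℕ) (v : Vec d), (1 + ‖v‖) ^ N * f t x v ≤ U N) ∧
        m₁ ≤ ∫ v, f t x v)
    {δ : ℝ} (hδ : 0 < δ) (hδ1 : δ ≤ 1) {T : ℝ} {r : ℝ → Vec d → Vec d → ℝ}
    (hr : IsBoltzmannSol γ (fun x => δ * b x) T r) {t₂ : ℝ} (ht₂ : 0 ≤ t₂)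
    (hB : ∀ (N : ℕ) (x v : Vec d), (1 + ‖v‖) ^ N * r t₂ x v ≤ B N)
    (hF : ∀ x v, |r t₂ x v - F v| ≤ ε) :
    ∀ t ∈ Ico t₂ T, ∀ x, (∀ (N : ℕ) (v : Vec d), (1 + ‖v‖) ^ N * r t x v ≤ 2 * |U N|) ∧
      m₁ ≤ ∫ v, r t x v := by
  have h02 : 0 ≤ γ + 2 * s := by linarith
  have hs0 : s ∈ Ioo (0 : ℝ) 1 := ⟨hs, by linarith⟩
  obtain ⟨n, hn⟩ : ∃ n : ℕ, n = ⌊1 / δ⌋₊ := ⟨_, rfl⟩
  have h1δ : 1 ≤ 1 / δ := by rw [le_div_iff₀ hδ, one_mul]; exact hδ1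
  have hn1 : 1 ≤ n := by
    rw [hn]
    exact Nat.le_floor (by simpa using h1δ)
  have hnR : (1 : ℝ) ≤ n := by exact_mod_cast hn1
  have hn0 : (0 : ℝ) < n := by linarith
  have hle : (n : ℝ) ≤ 1 / δ := by
    rw [hn]
    exact Nat.floor_le (by positivity)
  have hlt : 1 / δ < n + 1 := by
    rw [hn]
    exact Nat.lt_floor_add_one _
  obtain ⟨θ, hθ⟩ : ∃ θ : ℝ, θ = n * δ := ⟨_, rfl⟩
  have hθ1 : θ ≤ 1 := by
    rw [hθ]
    rwa [le_div_iff₀ hδ] at hle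
  have hθ2 : 1 / 2 ≤ θ := by
    rw [hθ]
    rw [div_lt_iff₀ hδ] at hlt
    nlinarith
  have hθ0 : 0 < θ := by linarith
  have hk1 : IsKernel d s (fun x => δ * b x) := Pool.Agent.H25.PN.kernel_scale hb hδ
  have hk2 : IsKernel d s (fun x => (n : ℝ) * (δ * b x)) := Pool.Agent.H25.PN.kernel_scale hk1 hn0
  have s0 := Pool.Agent.H48.PI.boltz_shift hr ht₂
  have s1 := Pool.Agent.H82.HF.scl_sol hd hs0 h02 h2 hk1 s0 hn1
  have s2 := Pool.Agent.H85.DG.amp_sol hd hs0.1 hs0.2 h02 h2 hk2 (inv_pos.2 hθ0) s1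
  have hker : (fun x => θ⁻¹ * ((n : ℝ) * (δ * b x))) = b := by
    funext x
    rw [hθ]
    field_simp
  have s3 : IsBoltzmannSol γ b ((T - t₂) / n)
      (fun t x v => θ⁻¹⁻¹ * r (t₂ + (n : ℝ) * t) ((n : ℝ) • x) v) := by
    rw [hker] at s2
    exact s2
  rw [inv_inv] at s3
  have hA : ∀ (N : ℕ) (x v : Vec d),
      (1 + ‖v‖) ^ N * (θ * r (t₂ + (n : ℝ) * 0) ((n : ℝ) • x) v) ≤ |B N| := by
    intro N x v
    rw [mul_zero, add_zero]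
    have h1 := hB N ((n : ℝ) • x) v
    calc (1 + ‖v‖) ^ N * (θ * r t₂ ((n : ℝ) • x) v)
        = θ * ((1 + ‖v‖) ^ N * r t₂ ((n : ℝ) • x) v) := by ring
      _ ≤ θ * B N := mul_le_mul_of_nonneg_left h1 hθ0.le
      _ ≤ θ * |B N| := mul_le_mul_of_nonneg_left (le_abs_self _) hθ0.le
      _ ≤ 1 * |B N| := mul_le_mul_of_nonneg_right hθ1 (abs_nonneg _)
      _ = |B N| := one_mul _
  have hC : ∀ x v, |θ * r (t₂ + (n : ℝ) * 0) ((n : ℝ) • x) v - θ * F v| ≤ ε := by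
    intro x v
    rw [mul_zero, add_zero, ← mul_sub, abs_mul, abs_of_pos hθ0]
    calc θ * |r t₂ ((n : ℝ) • x) v - F v| ≤ 1 * ε :=
          mul_le_mul hθ1 (hF _ _) (abs_nonneg _) zero_le_one
      _ = ε := one_mul _
  intro t ht x
  have ht' : (t - t₂) / n ∈ Ico 0 ((T - t₂) / n) :=
    ⟨div_nonneg (by linarith [ht.1]) hn0.le, div_lt_div_of_pos_right (by linarith [ht.2]) hn0⟩
  obtain ⟨k1, k2⟩ := hg θ ⟨hθ2, hθ1⟩ _ _ s3 hA hC ((t - t₂) / n) ht' ((n : ℝ)⁻¹ • x)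
  have e1 : t₂ + (n : ℝ) * ((t - t₂) / n) = t := by
    field_simp
    ring
  have e2 : (n : ℝ) • ((n : ℝ)⁻¹ • x) = x := by
    rw [smul_smul, mul_inv_cancel₀ hn0.ne', one_smul]
  have h6 : θ⁻¹ ≤ 2 := by
    rw [inv_le_comm₀ hθ0 two_pos]
    linarith
  constructor
  · intro N v
    have key := k1 N v
    rw [e1, e2] at key
    have h5 : (1 + ‖v‖) ^ N * r t x v = θ⁻¹ * ((1 + ‖v‖) ^ N * (θ * r t x v)) := by
      field_simp
    rw [h5]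
    calc θ⁻¹ * ((1 + ‖v‖) ^ N * (θ * r t x v)) ≤ θ⁻¹ * U N :=
          mul_le_mul_of_nonneg_left key (inv_nonneg.2 hθ0.le)
      _ ≤ θ⁻¹ * |U N| := mul_le_mul_of_nonneg_left (le_abs_self _) (inv_nonneg.2 hθ0.le)
      _ ≤ 2 * |U N| := mul_le_mul_of_nonneg_right h6 (abs_nonneg _)
  · rw [e1, e2, integral_const_mul] at k2
    have h7 : 0 ≤ ∫ v, r t x v := by
      by_contra hcon
      push Not at hcon
      nlinarith
    nlinarith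

private lemma ThmV_W (N : ℕ) (v : Vec d) : (1 + ‖v‖) ^ N * Wp N v ≤ 2 ^ N := by
  have h0 := norm_nonneg v
  have h1 : (1 + ‖v‖) ^ 2 ≤ 2 * (1 + nsq v) := by
    have h2 : ‖v‖ ^ 2 ≤ nsq v := by
      have := pow_le_pow_left₀ h0 (norm_le_len v) 2
      rwa [len_sq] at this
    nlinarith [sq_nonneg (1 - ‖v‖)]
  have h3 : 0 < 1 + nsq v := by
    have := sq_nonneg' v
    linarith
  have h4 : 1 + ‖v‖ ≤ 2 * (1 + nsq v) := by nlinarith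
  unfold Wp
  rw [← div_eq_mul_inv, div_le_iff₀ (by positivity), ← mul_pow]
  exact pow_le_pow_left₀ (by linarith) h4 N

private lemma ThmV_mono {p q : ℕ} (h : p ≤ q) (v : Vec d) : Wp q v ≤ Wp p v := by
  unfold Wp
  have h1 : 1 ≤ 1 + nsq v := by
    have : 0 ≤ nsq v := sq_nonneg' v
    linarith
  exact inv_anti₀ (pow_pos (by linarith) _) (pow_le_pow_right₀ h1 h)

private lemma ThmV_len (v : Vec d) : len v ≤ ((d : ℝ) + 1) * ‖v‖ := by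
  have h0 := norm_nonneg v
  have h1 : (0 : ℝ) ≤ d := Nat.cast_nonneg _
  refine le_of_pow_le_pow_left₀ two_ne_zero (by positivity) ?_
  rw [len_sq]
  have h3 := sq_le v
  nlinarith [mul_nonneg h1 (sq_nonneg ‖v‖), sq_nonneg ‖v‖]

/-- the average over the torus as a homogeneous datum -/
private lemma ThmV_slice {h : Vec d → Vec d → ℝ} (hh : SchT h) (hn : ∀ x v, 0 ≤ h x v) :
    Slice (fun _ : Vec d => avT h) := by
  obtain ⟨M, hM0, hM⟩ := Pool.Agent.H82.HF.avT_hr hh 1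
  have hc := Pool.Agent.H82.HF.hr_cont one_pos hM
  refine ⟨fun x v => Pool.Agent.H82.HF.avT_nn hn v, fun x v i => rfl, hc.comp continuous_snd,
    fun N => ?_⟩
  obtain ⟨M', hM'0, hM'⟩ := Pool.Agent.H82.HF.avT_hr hh N
  refine ⟨M' * 2 ^ N, fun x v => ?_⟩
  have h1 := (le_abs_self _).trans (hM'.le v)
  have h2 : 0 < (1 + ‖v‖) ^ N := by
    have := norm_nonneg v
    positivity
  calc (1 + ‖v‖) ^ N * avT h v ≤ (1 + ‖v‖) ^ N * (M' * Wp N v) :=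
        mul_le_mul_of_nonneg_left h1 h2.le
    _ = M' * ((1 + ‖v‖) ^ N * Wp N v) := by ring
    _ ≤ M' * 2 ^ N := mul_le_mul_of_nonneg_left (ThmV_W N v) hM'0

private lemma ThmV_hol {h : Vec d → Vec d → ℝ} (hh : SchT h) :
    HolData 1 fun _ : Vec d => avT h := by
  obtain ⟨M, hM0, hM⟩ := Pool.Agent.H82.HF.avT_hr hh 1
  refine ⟨2 * M * ((d : ℝ) + 1), 0, fun x y v w => ?_⟩
  have h1 := hM.hol w (v - w)
  rw [add_sub_cancel, Real.rpow_one] at h1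
  have h2 : min 1 (len (v - w)) ≤ ((d : ℝ) + 1) * ‖v - w‖ := (min_le_right _ _).trans (ThmV_len _)
  have h3 := Wp_le_one 1 v
  have h4 := Wp_le_one 1 w
  have h5 := (Wp_pos 1 v).le
  have h6 := (Wp_pos 1 w).le
  have h7 : 0 ≤ min 1 (len (v - w)) := le_min zero_le_one (len_nonneg _)
  have h8 := norm_nonneg (x - y)
  have h9 : (0 : ℝ) ≤ d := Nat.cast_nonneg _
  rw [pow_zero, mul_one, Real.rpow_one]
  calc |avT h v - avT h w| ≤ M * min 1 (len (v - w)) * (Wp 1 w + Wp 1 v) := h1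
    _ ≤ M * (((d : ℝ) + 1) * ‖v - w‖) * 2 :=
        mul_le_mul (mul_le_mul_of_nonneg_left h2 hM0) (by linarith) (by positivity) (by positivity)
    _ ≤ 2 * M * ((d : ℝ) + 1) * (‖x - y‖ + ‖v - w‖) := by
        have : 0 ≤ 2 * M * ((d : ℝ) + 1) * ‖x - y‖ := by positivity
        linarith

/-- `δ t^(1+2s)` is large at `t = θ/(2δ)` for small `δ` -/
private lemma ThmV_del {s θ : ℝ} (hs : 0 < s) (hθ : 0 < θ) {Y : ℝ} (hY : 0 ≤ Y) :
    ∃ δ₀ : ℝ, 0 < δ₀ ∧ δ₀ ≤ 1 ∧ ∀ δ ∈ Ioc (0 : ℝ) δ₀, Y ≤ δ * (θ / (2 * δ)) ^ (1 + 2 * s) := by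
  obtain ⟨P, hP⟩ : ∃ P : ℝ, P = (θ / 2) ^ (1 + 2 * s) := ⟨_, rfl⟩
  have hP0 : 0 < P := by
    rw [hP]
    positivity
  have h2s : 0 < 2 * s := by linarith
  refine ⟨min 1 ((P / (Y + 1)) ^ (1 / (2 * s))), lt_min one_pos (by positivity), min_le_left _ _,
    fun δ hδ => ?_⟩
  have hδ0 := hδ.1
  have h1 : δ ^ (2 * s) ≤ P / (Y + 1) := by
    have h2 : δ ≤ (P / (Y + 1)) ^ (1 / (2 * s)) := hδ.2.trans (min_le_right _ _)
    have h3 := Real.rpow_le_rpow hδ0.le h2 h2s.le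
    rwa [← Real.rpow_mul (by positivity), one_div, inv_mul_cancel₀ h2s.ne', Real.rpow_one] at h3
  have h4 : 0 < δ ^ (2 * s) := Real.rpow_pos_of_pos hδ0 _
  have h5 : δ * (θ / (2 * δ)) ^ (1 + 2 * s) * δ ^ (2 * s) = P := by
    have e1 : θ / (2 * δ) = θ / 2 / δ := by
      field_simp
    have e2 : δ ^ (1 + 2 * s) = δ * δ ^ (2 * s) := by
      rw [Real.rpow_add hδ0, Real.rpow_one]
    rw [e1, Real.div_rpow (by positivity) hδ0.le, ← hP, e2]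
    field_simp
  have h6 : (Y + 1) * δ ^ (2 * s) ≤ P := by
    rw [le_div_iff₀ (by positivity)] at h1
    linarith [mul_comm (δ ^ (2 * s)) (Y + 1)]
  have h7 : (Y + 1) * δ ^ (2 * s) ≤ δ * (θ / (2 * δ)) ^ (1 + 2 * s) * δ ^ (2 * s) := by
    rw [h5]
    exact h6
  have h8 := le_of_mul_le_mul_right h7 h4
  linarith

/-- **dilute gases, in the scaling of the kernel** -/
theorem dilute {s γ : ℝ} (hd : 2 ≤ d) (hs : 0 < s) (h0 : 0 ≤ γ) (hs1 : 2 * s < 1)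
    (h2 : γ + 2 * s < 2) {b : ℝ → ℝ} (hb : IsKernel d s b) {h : Vec d → Vec d → ℝ} (hh : SchT h)
    (hn : ∀ x v, 0 ≤ h x v) (hv : ∀ x, 0 < ∫ v, h x v) (B : ℕ → ℝ) :
    ∃ δ₀ > 0, ∃ ε > 0, ∃ U : ℕ → ℝ, ∀ δ ∈ Ioc (0 : ℝ) δ₀, ∃ m₀ > 0,
      ∀ (T : ℝ) (r : ℝ → Vec d → Vec d → ℝ), IsBoltzmannSol γ (fun x => δ * b x) T r →
      (∀ (N : ℕ) (x v : Vec d), (1 + ‖v‖) ^ N * r 0 x v ≤ B N) → (∀ x v, |r 0 x v - h x v| ≤ ε) →
      ∀ t ∈ Ico 0 T, ∀ x, (∀ (N : ℕ) (v : Vec d), (1 + ‖v‖) ^ N * r t x v ≤ U N) ∧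
        m₀ ≤ ∫ v, r t x v := by
  have hd1 : 1 ≤ d := by omega
  have h02 : 0 ≤ γ + 2 * s := by linarith
  have hs0 : s ∈ Ioo (0 : ℝ) 1 := ⟨hs, by linarith⟩
  obtain ⟨C, Ca, cb, HL⟩ := Pool.Agent.H82.CM.exists_hypL hd hs (by linarith) h02 h2.le hb
  obtain ⟨MF, hMF0, hMF⟩ := Pool.Agent.H82.HF.avT_hr hh (2 * d + 22)
  have hFn := Pool.Agent.H82.HF.avT_nn hn
  have hpt : ∀ x, ∃ v, 0 < h x v := by
    intro x
    by_contra hcon
    push Not at hcon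
    have h1 := integral_nonpos (μ := (volume : Measure (Vec d))) (f := fun v => h x v)
      (fun v => hcon v)
    exact absurd (hv x) (not_lt.2 h1)
  obtain ⟨v₀, hv₀⟩ := hpt 0
  have hFm := Pool.Agent.H82.HF.avT_pos hh hn hv₀
  have hFS := ThmV_slice hh hn
  have hFH : ∃ α : ℝ, 2 * s < α ∧ α ≤ 1 ∧ HolData α fun _ : Vec d => avT h :=
    ⟨1, hs1, le_rfl, ThmV_hol hh⟩
  obtain ⟨F, hF⟩ : ∃ F, F = avT h := ⟨_, rfl⟩
  rw [← hF] at hMF hFn hFm hFS hFH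
  obtain ⟨Kst, hKst, hlay⟩ := Pool.Agent.H82.HF.layer HL hb h0 hs1 (α := 1) hs1 le_rfl hMF hFn hFm
  obtain ⟨A, hA0, hcls⟩ := Pool.Agent.H82.HF.cls hd1 hs.le (by linarith) hh
  rw [← hF] at hcls
  have hFle : ∀ v, F v ≤ MF := fun v => by
    have h1 := (le_abs_self _).trans (hMF.le v)
    have h3 := mul_le_mul_of_nonneg_left (Wp_le_one (2 * d + 22) v) hMF0
    linarith
  obtain ⟨U₁, hU₁⟩ := Pool.Agent.H82.HF.prpD hd hs0 h0 h2.le hb (p := d + 10) le_rfl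
    (MF + 1 + Kst * A) B
  obtain ⟨εs, hεs, Us, ms, hms, hg⟩ := hom_unif hd hs h0 hs1 h2 hb hFS hFm hFH hFle
    (fun N => |U₁ N|)
  -- the truncation error
  obtain ⟨ι₀, hι₀⟩ : ∃ ι₀ : ℝ, ι₀ = min 1 (εs / 2) / (2 * Real.exp (Kst * A)) := ⟨_, rfl⟩
  have hex := Real.exp_pos (Kst * A)
  have hι₀p : 0 < ι₀ := by
    rw [hι₀]
    exact div_pos (lt_min one_pos (by positivity)) (by positivity)
  have hι₀e : 2 * Real.exp (Kst * A) * ι₀ = min 1 (εs / 2) := by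
    rw [hι₀]
    field_simp
  obtain ⟨n, M, a, cc, k, φ, hFam, hsa, hsl, hap⟩ := hcls (ι₀ / 2) (by positivity)
  have hexp : 2 * Real.exp (Kst * ∑ j, a j * len (k j) ^ (2 * s)) * ι₀ ≤ min 1 (εs / 2) := by
    rw [← hι₀e]
    refine mul_le_mul_of_nonneg_right (mul_le_mul_of_nonneg_left ?_ two_pos.le) hι₀p.le
    exact Real.exp_le_exp.2 (mul_le_mul_of_nonneg_left hsl hKst)
  obtain ⟨θ, hθ, Ul, hlay'⟩ := hlay n M a cc k φ hFam B ι₀ hι₀p (hexp.trans (min_le_left _ _))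
  -- neighbourhoods
  obtain ⟨H, hH⟩ : ∃ H : ℕ → ℝ, ∀ (N : ℕ) (x v : Vec d), (1 + ‖v‖) ^ N * h x v ≤ H N := by
    choose H hH0 hH using fun N : ℕ => Pool.Agent.H82.HF.sch_bd hh N
    refine ⟨H, fun N x v => ?_⟩
    have h1 := hH N x v
    rwa [abs_of_nonneg (hn x v)] at h1
  obtain ⟨ε₁, hε₁, hwp⟩ := near_wp (d := d) (d + 10) B H (half_pos hι₀p)
  obtain ⟨c, rr, V, hc, hrr, hrr1, hV, hpos⟩ := Pool.Agent.H82.CL.unif_pos
    (Pool.Agent.H82.HF.sch_cont hh) (fun v x i => hh.per x v i) hpt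
  obtain ⟨θ₁, hθ₁⟩ : ∃ θ₁ : ℝ, θ₁ = min θ 1 := ⟨_, rfl⟩
  have hθ₁0 : 0 < θ₁ := by
    rw [hθ₁]
    exact lt_min hθ one_pos
  obtain ⟨δ₀, hδ₀, hδ₀1, hdel⟩ := ThmV_del hs hθ₁0 (Y := 2 * (Kst * A) / εs) (by positivity)
  refine ⟨δ₀, hδ₀, min ε₁ (c / 2), lt_min hε₁ (half_pos hc), fun N => max (U₁ N) (2 * |Us N|),
    fun δ hδ => ?_⟩
  have hδ0 : 0 < δ := hδ.1
  have hδ1 : δ ≤ 1 := hδ.2.trans hδ₀1
  obtain ⟨c', hc', hml⟩ := Pool.Agent.H85.LF.mass_low hd hs0 h02 h2.le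
    (Pool.Agent.H25.PN.kernel_scale hb hδ0) U₁ (half_pos hc) hrr hV (θ₁ / δ)
  refine ⟨min c' ms, lt_min hc' hms, fun T r hr hrB hrh t ht x => ?_⟩
  have hT0 : 0 < T := ht.1.trans_lt ht.2
  obtain ⟨T', hT'⟩ : ∃ T' : ℝ, T' = min T (θ₁ / δ) := ⟨_, rfl⟩
  have hT'T : T' ≤ T := by
    rw [hT']
    exact min_le_left _ _
  have hT'θ : T' ≤ θ₁ / δ := by
    rw [hT']
    exact min_le_right _ _
  have hδT' : δ * T' ≤ θ₁ := by
    have := mul_le_mul_of_nonneg_left hT'θ hδ0.le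
    rwa [mul_div_cancel₀ _ hδ0.ne'] at this
  have hr' : IsBoltzmannSol γ (fun x => δ * b x) T' r := Pool.Agent.H48.PI.sol_restrict hr hT'T
  have hinit : ∀ x v, |r 0 x v - (F v + ∑ j, cc j v *
      Real.cos (2 * Real.pi * dot (k j) x + φ j))| ≤ ι₀ * Wp (d + 10) v := by
    intro x v
    have h1 := hwp v (r 0 x v) (h x v) (hr.nonneg 0 ⟨le_rfl, hT0⟩ x v) (hn x v)
      (fun N => hrB N x v) (fun N => hH N x v) ((hrh x v).trans (min_le_left _ _))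
    have h3 := abs_sub_le (r 0 x v) (h x v) (F v + ∑ j, cc j v *
      Real.cos (2 * Real.pi * dot (k j) x + φ j))
    have h4 := hap x v
    linarith
  have hL := hlay' δ hδ0 hδ1 T' (hδT'.trans (by rw [hθ₁]; exact min_le_left _ _)) r hr' hrB hinit
  have hden : ∀ t ∈ Ico 0 T', 0 ≤ δ * t ^ (1 + 2 * s) := fun t ht =>
    mul_nonneg hδ0.le (Real.rpow_nonneg ht.1 _)
  have hKa : Kst * ∑ j, a j ≤ Kst * A := mul_le_mul_of_nonneg_left hsa hKst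
  have hKA : 0 ≤ Kst * A := mul_nonneg hKst hA0
  have hAb : ∀ t ∈ Ico 0 T', ∀ x v, r t x v ≤ (MF + 1 + Kst * A) * Wp (d + 10) v := by
    intro t ht x v
    have h1 := (hL t ht x v).1
    have h3 := (le_abs_self _).trans (hMF.le v)
    have h4 := mul_le_mul_of_nonneg_left (ThmV_mono (show d + 10 ≤ 2 * d + 22 by omega) v) hMF0
    have h5 : Kst * (∑ j, a j) / (1 + δ * t ^ (1 + 2 * s)) ≤ Kst * A := by
      have h6 := hden t ht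
      rw [div_le_iff₀ (by linarith)]
      exact hKa.trans (le_mul_of_one_le_right hKA (by linarith))
    have h7 : 2 * Real.exp (Kst * ∑ j, a j * len (k j) ^ (2 * s)) * ι₀ ≤ 1 :=
      hexp.trans (min_le_left _ _)
    have h8 := (Wp_pos (d + 10) v).le
    have h9 := (le_abs_self _).trans h1
    have h10 : (2 * Real.exp (Kst * ∑ j, a j * len (k j) ^ (2 * s)) * ι₀ +
        Kst * (∑ j, a j) / (1 + δ * t ^ (1 + 2 * s))) * Wp (d + 10) v ≤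
        (1 + Kst * A) * Wp (d + 10) v := mul_le_mul_of_nonneg_right (by linarith) h8
    have e1 : (MF + 1 + Kst * A) * Wp (d + 10) v = MF * Wp (d + 10) v +
        (1 + Kst * A) * Wp (d + 10) v := by ring
    rw [e1]
    linarith
  have hU := hU₁ δ hδ0 hδ1 T' (hδT'.trans (by rw [hθ₁]; exact min_le_right _ _)) r hr' hrB hAb
  have hUB : Pool.Agent.H85.LB.UB U₁ T' r := fun N t ht x v => hU t ht N x v
  have hml' := hml T' r hr' hUB (fun x => by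
    obtain ⟨v₀, hv₀, h1⟩ := hpos x
    refine ⟨v₀, hv₀, fun y w hyw => ?_⟩
    have h3 := h1 y w hyw
    have h4 := (abs_le.1 ((hrh y w).trans (min_le_right _ _))).1
    linarith)
  rcases lt_or_ge t (θ₁ / δ) with htθ | htθ
  · have ht' : t ∈ Ico 0 T' := ⟨ht.1, by rw [hT']; exact lt_min ht.2 htθ⟩
    exact ⟨fun N v => (hU t ht' N x v).trans (le_max_left _ _),
      (min_le_left _ _).trans (hml' t ht' htθ.le x)⟩
  · -- late times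
    obtain ⟨t₂, ht₂⟩ : ∃ t₂ : ℝ, t₂ = θ₁ / (2 * δ) := ⟨_, rfl⟩
    have ht₂0 : 0 < t₂ := by
      rw [ht₂]
      positivity
    have ht₂1 : t₂ < θ₁ / δ := by
      have : θ₁ / (2 * δ) = θ₁ / δ / 2 := by
        field_simp
      rw [ht₂, this]
      exact half_lt_self (by positivity)
    have ht₂' : t₂ ∈ Ico 0 T' := ⟨ht₂0.le, by
      rw [hT']
      exact lt_min (ht₂1.trans_le htθ |>.trans ht.2) ht₂1⟩
    have hF₂ : ∀ x v, |r t₂ x v - F v| ≤ εs := by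
      intro x v
      have h1 := (hL t₂ ht₂' x v).1
      have h3 := hdel δ hδ
      rw [← ht₂] at h3
      have h4 : Kst * (∑ j, a j) / (1 + δ * t₂ ^ (1 + 2 * s)) ≤ εs / 2 := by
        have h5 := hden t₂ ht₂'
        rw [div_le_iff₀ (by linarith)]
        have h6 : εs / 2 * (2 * (Kst * A) / εs) = Kst * A := by
          field_simp
        have h7 : εs / 2 * (2 * (Kst * A) / εs) ≤ εs / 2 * (δ * t₂ ^ (1 + 2 * s)) :=
          mul_le_mul_of_nonneg_left h3 (by positivity)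
        have e2 : εs / 2 * (1 + δ * t₂ ^ (1 + 2 * s)) =
            εs / 2 + εs / 2 * (δ * t₂ ^ (1 + 2 * s)) := by ring
        rw [e2]
        linarith
      have h8 : 2 * Real.exp (Kst * ∑ j, a j * len (k j) ^ (2 * s)) * ι₀ ≤ εs / 2 :=
        hexp.trans (min_le_right _ _)
      have h9 := (Wp_pos (d + 10) v).le
      have h10 := Wp_le_one (d + 10) v
      calc |r t₂ x v - F v| ≤ (2 * Real.exp (Kst * ∑ j, a j * len (k j) ^ (2 * s)) * ι₀ +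
            Kst * (∑ j, a j) / (1 + δ * t₂ ^ (1 + 2 * s))) * Wp (d + 10) v := h1
        _ ≤ εs * Wp (d + 10) v := mul_le_mul_of_nonneg_right (by linarith) h9
        _ ≤ εs * 1 := mul_le_mul_of_nonneg_left h10 hεs.le
        _ = εs := mul_one _
    obtain ⟨k1, k2⟩ := late_scale hd hs h0 hs1 h2.le hb hms.le (B := U₁) hg hδ0 hδ1 hr
      ht₂0.le (fun N x v => hU t₂ ht₂' N x v) hF₂ t ⟨(ht₂1.trans_le htθ).le, ht.2⟩ x
    exact ⟨fun N v => (k1 N v).trans (le_max_right _ _), (min_le_right _ _).trans k2⟩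

end Pool.Agent.H48.CV
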